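import Mathlib
import Pool.Agent.Lib.MP_ca0fc2_an.TE.G4

set_option autoImplicit false
set_option linter.unusedSectionVars false

open Metric Set MeasureTheory Filter Topology
open scoped InnerProductSpace ENNReal ContDiff

namespace Pool.Agent.MPca0fc2.XC

open Pool.Agent.MPca0fc2.PT
open Pool.Agent.MPca0fc2.QT
open Pool.Agent.MPca0fc2.TS
open Pool.Agent.MPca0fc2.TE

variable {E : Type*} [NormedAddCommGroup E] [InnerProductSpace ℂ E]

/-- A chain of steps of bounded hyperbolic length; variant of `TE.chain` (TE/C1.lean) with the last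
step estimated by `h2 a 1 : Φ a ≤ L' * Φ 1` instead of `Φ a ≤ C₀`. Copy the proof. -/
theorem chain2 {X : Type*} [SeminormedAddCommGroup X] {r L L' : ℝ} (hr0 : 0 ≤ r) (hr1 : r < 1)
    (hL : 0 ≤ L) (hL' : 0 < L') {g : ℝ → X} {Φ : ℝ → ℝ} (hΦ : ContinuousOn Φ (Icc 0 1))
    (hΦ0 : ∀ t ∈ Icc (0 : ℝ) 1, 0 ≤ Φ t)
    (h1 : ∀ a b : ℝ, 0 ≤ a → a ≤ b → b ≤ 1 → 2 / 3 * (1 - r * a) ≤ 1 - r * b →
      ‖g b - g a‖ ≤ L * Φ a)
    (h2 : ∀ a b : ℝ, 0 ≤ a → a ≤ b → b ≤ 1 → 2 / 3 * (1 - r * a) ≤ 1 - r * b → Φ a ≤ L' * Φ b) :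
    ‖g 1 - g 0‖ ≤ L * (L' * Φ 1 +
      6 * L' * ∫ t in Icc (0 : ℝ) 1, Φ t * (r / (1 - t ^ 2 * r ^ 2))) := by
  have hden : ∀ t ∈ Icc (0 : ℝ) 1, 0 < 1 - t ^ 2 * r ^ 2 := by
    intro t ht
    have h1 : t * r < 1 := by nlinarith [ht.1, ht.2]
    have h2 : 0 ≤ t * r := mul_nonneg ht.1 hr0
    nlinarith
  have hcont : ContinuousOn (fun t : ℝ => Φ t * (r / (1 - t ^ 2 * r ^ 2))) (Icc 0 1) := by
    refine hΦ.mul (ContinuousOn.div continuousOn_const (by fun_prop) ?_)
    intro t ht
    exact (hden t ht).ne'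
  have hint : ∀ a b : ℝ, 0 ≤ a → a ≤ b → b ≤ 1 →
      IntervalIntegrable (fun t : ℝ => Φ t * (r / (1 - t ^ 2 * r ^ 2))) volume a b := by
    intro a b ha hab hb
    apply ContinuousOn.intervalIntegrable
    rw [uIcc_of_le hab]
    exact hcont.mono (Icc_subset_Icc ha hb)
  have hpos : ∀ a : ℝ, 0 ≤ a → a ≤ 1 →
      0 ≤ ∫ t in a..1, Φ t * (r / (1 - t ^ 2 * r ^ 2)) := by
    intro a ha ha1
    apply intervalIntegral.integral_nonneg ha1
    intro t ht
    have ht' : t ∈ Icc (0 : ℝ) 1 := ⟨ha.trans ht.1, ht.2⟩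
    exact mul_nonneg (hΦ0 t ht') (div_nonneg hr0 (hden t ht').le)
  have claim : ∀ n : ℕ, ∀ a : ℝ, 0 ≤ a → a ≤ 1 → (2 / 3 : ℝ) ^ n * (1 - r * a) ≤ 1 - r →
      ‖g 1 - g a‖ ≤ L * (L' * Φ 1 + 6 * L' * ∫ t in a..1, Φ t * (r / (1 - t ^ 2 * r ^ 2))) := by
    intro n
    induction n with
    | zero =>
      intro a ha ha1 hn
      rw [pow_zero, one_mul] at hn
      have hra : 0 ≤ 1 - r * a := by nlinarith
      have h := h1 a 1 ha ha1 le_rfl (by rw [mul_one]; linarith)
      have hC := h2 a 1 ha ha1 le_rfl (by rw [mul_one]; linarith)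
      have hI := hpos a ha ha1
      calc ‖g 1 - g a‖ ≤ L * Φ a := h
        _ ≤ L * (L' * Φ 1 + 6 * L' * ∫ t in a..1, Φ t * (r / (1 - t ^ 2 * r ^ 2))) := by
            apply mul_le_mul_of_nonneg_left _ hL
            have : 0 ≤ 6 * L' * ∫ t in a..1, Φ t * (r / (1 - t ^ 2 * r ^ 2)) :=
              mul_nonneg (by linarith) hI
            linarith
    | succ n ih =>
      intro a ha ha1 hn
      have hra : 0 ≤ 1 - r * a := by nlinarith
      by_cases hcase : 2 / 3 * (1 - r * a) ≤ 1 - r
      · have h := h1 a 1 ha ha1 le_rfl (by rw [mul_one]; exact hcase)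
        have hC := h2 a 1 ha ha1 le_rfl (by rw [mul_one]; linarith)
        have hI := hpos a ha ha1
        calc ‖g 1 - g a‖ ≤ L * Φ a := h
          _ ≤ L * (L' * Φ 1 + 6 * L' * ∫ t in a..1, Φ t * (r / (1 - t ^ 2 * r ^ 2))) := by
              apply mul_le_mul_of_nonneg_left _ hL
              have : 0 ≤ 6 * L' * ∫ t in a..1, Φ t * (r / (1 - t ^ 2 * r ^ 2)) :=
                mul_nonneg (by linarith) hI
              linarith
      · push Not at hcase
        have hrpos : 0 < r := by
          rcases hr0.lt_or_eq with h | h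
          · exact h
          · exfalso
            rw [← h] at hcase
            norm_num at hcase
        set b : ℝ := (1 - 2 / 3 * (1 - r * a)) / r with hb
        have hrb : r * b = 1 - 2 / 3 * (1 - r * a) := by
          rw [hb, mul_div_cancel₀ _ hrpos.ne']
        have hb1 : b < 1 := by
          by_contra hcon
          push Not at hcon
          have : r * 1 ≤ r * b := mul_le_mul_of_nonneg_left hcon hr0
          linarith
        have hab : a ≤ b := by
          by_contra hcon
          push Not at hcon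
          have : r * b < r * a := mul_lt_mul_of_pos_left hcon hrpos
          linarith
        have hb0 : 0 ≤ b := ha.trans hab
        have hih := ih b hb0 hb1.le (by
          rw [hrb]
          rw [pow_succ] at hn
          calc (2 / 3 : ℝ) ^ n * (1 - (1 - 2 / 3 * (1 - r * a)))
              = (2 / 3 : ℝ) ^ n * (2 / 3) * (1 - r * a) := by ring
            _ ≤ 1 - r := hn)
        have hstep := h1 a b ha hab hb1.le (by rw [hrb]; linarith)
        have hΦa := hΦ0 a ⟨ha, ha1⟩
        have hlow : Φ a / (6 * L') ≤ ∫ t in a..b, Φ t * (r / (1 - t ^ 2 * r ^ 2)) := by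
          have hda := hden a ⟨ha, ha1⟩
          have hc : ∫ _t in a..b, Φ a / L' * (r / (1 - a ^ 2 * r ^ 2)) =
              (b - a) * (Φ a / L' * (r / (1 - a ^ 2 * r ^ 2))) := by
            rw [intervalIntegral.integral_const, smul_eq_mul]
          have hmono : ∫ _t in a..b, Φ a / L' * (r / (1 - a ^ 2 * r ^ 2)) ≤
              ∫ t in a..b, Φ t * (r / (1 - t ^ 2 * r ^ 2)) := by
            apply intervalIntegral.integral_mono_on hab
            · exact intervalIntegrable_const
            · exact hint a b ha hab hb1.le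
            · intro t ht
              have ht01 : t ∈ Icc (0 : ℝ) 1 := ⟨ha.trans ht.1, ht.2.trans hb1.le⟩
              have hdt := hden t ht01
              have hrt : r * t ≤ r * b := mul_le_mul_of_nonneg_left ht.2 hr0
              have h3 := h2 a t ha ht.1 ht01.2 (by linarith)
              have h4 : Φ a / L' ≤ Φ t := by
                rw [div_le_iff₀ hL']
                linarith [mul_comm (Φ t) L']
              have h5 : r / (1 - a ^ 2 * r ^ 2) ≤ r / (1 - t ^ 2 * r ^ 2) := by
                apply div_le_div_of_nonneg_left hr0 hdt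
                have : a ^ 2 ≤ t ^ 2 := by
                  have := ht.1
                  nlinarith
                nlinarith [sq_nonneg r, mul_le_mul_of_nonneg_right this (sq_nonneg r)]
              exact mul_le_mul h4 h5 (div_nonneg hr0 hda.le) (hΦ0 t ht01)
          refine le_trans ?_ hmono
          rw [hc]
          have hfac : 1 - a ^ 2 * r ^ 2 = (1 - r * a) * (1 + r * a) := by ring
          have h1ra : 0 < 1 - r * a := by
            rcases hra.lt_or_eq with h | h
            · exact h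
            · exfalso
              rw [← h] at hcase
              linarith
          have hra0 : 0 ≤ r * a := mul_nonneg hr0 ha
          have e1 : (b - a) * (Φ a / L' * (r / (1 - a ^ 2 * r ^ 2))) =
              Φ a / (3 * L' * (1 + r * a)) := by
            have e2 : (b - a) * r = (1 - r * a) / 3 := by
              have : (b - a) * r = r * b - r * a := by ring
              rw [this, hrb]
              ring
            have e3 : (b - a) * (Φ a / L' * (r / (1 - a ^ 2 * r ^ 2))) =
                ((b - a) * r) * (Φ a / (L' * (1 - a ^ 2 * r ^ 2))) := by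
              field_simp
            rw [e3, e2, hfac]
            have h1 : (1 - r * a) ≠ 0 := h1ra.ne'
            have h2 : (1 + r * a) ≠ 0 := by linarith
            have h3 : L' ≠ 0 := hL'.ne'
            field_simp
          rw [e1]
          apply div_le_div_of_nonneg_left hΦa
          · positivity
          · have : r * a ≤ 1 := by linarith
            nlinarith
        have hsplit : (∫ t in a..1, Φ t * (r / (1 - t ^ 2 * r ^ 2))) =
            (∫ t in a..b, Φ t * (r / (1 - t ^ 2 * r ^ 2))) +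
              ∫ t in b..1, Φ t * (r / (1 - t ^ 2 * r ^ 2)) :=
          (intervalIntegral.integral_add_adjacent_intervals (hint a b ha hab hb1.le)
            (hint b 1 hb0 hb1.le le_rfl)).symm
        have hΦ6 : Φ a ≤ 6 * L' * ∫ t in a..b, Φ t * (r / (1 - t ^ 2 * r ^ 2)) := by
          rw [div_le_iff₀ (by linarith)] at hlow
          linarith
        calc ‖g 1 - g a‖ = ‖(g 1 - g b) + (g b - g a)‖ := by
              congr 1
              abel
          _ ≤ ‖g 1 - g b‖ + ‖g b - g a‖ := norm_add_le _ _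
          _ ≤ L * (L' * Φ 1 + 6 * L' * ∫ t in b..1, Φ t * (r / (1 - t ^ 2 * r ^ 2))) + L * Φ a :=
              add_le_add hih hstep
          _ ≤ L * (L' * Φ 1 + 6 * L' * ∫ t in a..1, Φ t * (r / (1 - t ^ 2 * r ^ 2))) := by
              rw [hsplit, ← mul_add]
              apply mul_le_mul_of_nonneg_left _ hL
              rw [mul_add (6 * L')]
              linarith
  obtain ⟨n, hn⟩ := exists_pow_lt_of_lt_one (show (0 : ℝ) < 1 - r by linarith)
    (show (2 / 3 : ℝ) < 1 by norm_num)
  have h := claim n 0 le_rfl zero_le_one (by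
    rw [mul_zero, sub_zero, mul_one]
    exact hn.le)
  rw [intervalIntegral.integral_of_le zero_le_one] at h
  rw [integral_Icc_eq_integral_Ioc]
  exact h

variable [MeasurableSpace E] [BorelSpace E] [FiniteDimensional ℂ E]

/-- Variant of `TE.path_osc` (TE/G4.lean) with `chain2`; copy the proof. -/
theorem path_osc2 {V : Type*} [NormedAddCommGroup V] {P : E →L[ℂ] E} (h : Prj P)
    {ν : Measure E} (hν : OnB ν) (M : ℕ) {θ : ℝ} (h0 : 0 < θ) (h1 : θ < 1) (k : ℕ) {L : ℝ}
    (hL : 0 ≤ L) {S : E → V}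
    (hS : ∀ y y' : E, ‖y‖ < 1 → ‖y'‖ < 1 → 3 / 4 ≤ HH y y' →
      ‖S y - S y'‖ ≤ L * Wk ν M θ k y) {z : E} (hz : ‖z‖ < 1) :
    ‖S z - S (P z)‖ ≤
      L * (2 ^ (M + 2) * Wk ν M θ k z + 6 * 2 ^ (M + 2) * GI (Wk ν M θ k) P z) := by
  obtain ⟨r0, r1, -, -, -⟩ := rr_facts h hz 1
  have hpt : ∀ t ∈ Icc (0 : ℝ) 1, ‖pt P t z‖ < 1 := by
    intro t ht
    obtain ⟨d1, -, d3, -⟩ := Dp_anti h hz ht.1 ht.2 (le_refl 1)
    obtain ⟨-, -, d4, -⟩ := Dp_anti h hz ht.1 (le_refl t) ht.2
    have h11 := Dp_eq h t z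
    have h12 : 0 < 1 - ‖pt P t z‖ ^ 2 := by rw [h11]; exact lt_of_lt_of_le d1 d4
    nlinarith [norm_nonneg (pt P t z)]
  have ht01 : 0 ≤ rt θ k ∧ rt θ k ≤ 1 := by
    unfold rt
    have h3 : θ ^ k ≤ 1 := pow_le_one₀ h0.le h1.le
    have h4 : 0 < θ ^ k := pow_pos h0 k
    constructor <;> linarith
  have hrtpt : ∀ t ∈ Icc (0 : ℝ) 1, ‖(rt θ k : ℂ) • pt P t z‖ < 1 := by
    intro t ht
    rw [norm_smul, Complex.norm_real, Real.norm_of_nonneg ht01.1]
    have := hpt t ht
    nlinarith [norm_nonneg (pt P t z), ht01.2]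
  have hcont : ContinuousOn (fun t : ℝ => Wk ν M θ k (pt P t z)) (Icc 0 1) := by
    have e : (fun t : ℝ => Wk ν M θ k (pt P t z)) =
        (Om ν M) ∘ (fun t : ℝ => (rt θ k : ℂ) • pt P t z) := by
      funext t
      exact Wk_eq ν M θ k (pt P t z)
    rw [e]
    refine (Om_cont hν M).comp ?_ ?_
    · apply Continuous.continuousOn
      unfold pt
      fun_prop
    · intro t ht
      exact mem_ball_zero_iff.2 (hrtpt t ht)
  have key := chain2 (X := V) (r := rr P z) (L := L) (L' := 2 ^ (M + 2))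
    (g := fun t => S (pt P t z)) (Φ := fun t => Wk ν M θ k (pt P t z)) r0 r1 hL (by positivity)
    hcont ?_ ?_ ?_
  · simp only [pt_one, pt_zero] at key
    exact key
  · intro t ht
    rw [Wk_eq]
    exact Om_nonneg (hrtpt t ht)
  · intro a b ha hab hb hs
    have := hS (pt P a z) (pt P b z) (hpt a ⟨ha, hab.trans hb⟩) (hpt b ⟨ha.trans hab, hb⟩)
      (HH_step h hz ha hab hb hs)
    rw [norm_sub_rev]
    exact this
  · intro a b ha hab hb hs
    exact Wk_step h hν M h0 h1 k hz ha hab hb hs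

end Pool.Agent.MPca0fc2.XC
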