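import Pool.Agent.Lib.MP_ca0fc2_an.EQ.L3
import Pool.Agent.Lib.MP_ca0fc2_an.EQ.Z2
import Pool.Agent.Lib.MP_ca0fc2_an.EQ.Z4
import Pool.Agent.Lib.MP_ca0fc2_an.EQ.C2
import Pool.Agent.Lib.MP_ca0fc2_an.EQ.C3
import Pool.Agent.Lib.MP_ca0fc2_an.EQ.GR4
import Pool.Agent.Lib.MP_ca0fc2_an.TB.J1
import Pool.Agent.Lib.MP_ca0fc2_an.LV.S5
import Pool.Agent.Lib.MP_ca0fc2_an.Defs
import Pool.Agent.Lib.MP_ca0fc2_an.Mg.G090
import Pool.Agent.Lib.MP_ca0fc2_an.Mg.G094
import Pool.Agent.Lib.MP_ca0fc2_an.Mg.G091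

/-!
# The corona problem for all strictly pseudoconvex domains is the one for the ball

Let `n ≥ 2`. For each number `N ≥ 1` of functions the following are equivalent: the corona theorem holds
on every strictly pseudoconvex domain in `ℂᵐ`, `2 ≤ m ≤ n`; it holds on one nonempty bounded open
set in `ℂⁿ` with a boundary of class `C²` (pseudoconvex or not); it holds on the ball of `ℂⁿ`; it
holds on the ball with bounds which depend only on the lower bound of the data; there are local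
solutions near all boundary points of all strictly pseudoconvex domains in `ℂⁿ`, with the same
bounds; for data on the ball which are continuous up to the boundary except at one point `p` there
are bounded solutions near `p`; for some boundary point `p` of some strictly pseudoconvex domain and
some function `φ` (of arbitrary growth at `0`) such data have solutions near `p` which are bounded by
`C φ(|z - p|)`, where `C` depends on the data; for `0 < δ < 1` the data on the ball with `|f_j| ≤ 1`,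
`|f| ≥ δ` which have bounded solutions near at least one boundary point are not meager; for some
finite measure on the sphere all such data for which all `f_j` are inner have bounded solutions near
at least one boundary point.
-/

set_option autoImplicit false

open Metric Set Filter MeasureTheory
open scoped NNReal
open Pool.Agent.Lib.MP_ca0fc2_an
open Pool.Agent.Lib.MP_ca0fc2_an.ZL

namespace Pool.Agent.MPca0fc2AD

/-- Q1 on `D` for `N` functions: all corona data `f₁, …, f_N` on `D` have solutions. -/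
def Q1On {n : ℕ} (N : ℕ) (D : Set (EuclideanSpace ℂ (Fin n))) : Prop :=
  ∀ f : Fin N → EuclideanSpace ℂ (Fin n) → ℂ, (∀ j, IsHinf D (f j)) →
    (∃ δ > 0, ∀ z ∈ D, δ ≤ ∑ j, ‖f j z‖ ^ 2) →
    ∃ h : Fin N → EuclideanSpace ℂ (Fin n) → ℂ, (∀ j, IsHinf D (h j)) ∧
      ∀ z ∈ D, ∑ j, f j z * h j z = 1

/-- All holomorphic `f₁, …, f_N` on `U` with `δ² ≤ ∑ |f_j|² ≤ 1` have solutions on `V ⊆ U` with
`∑ |h_j|² ≤ A²`. -/
def UniformQ1 {n : ℕ} (N : ℕ) (δ A : ℝ) (U V : Set (EuclideanSpace ℂ (Fin n))) : Prop :=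
  ∀ f : Fin N → EuclideanSpace ℂ (Fin n) → ℂ, (∀ j, DifferentiableOn ℂ (f j) U) →
    (∀ z ∈ U, δ ^ 2 ≤ ∑ j, ‖f j z‖ ^ 2 ∧ ∑ j, ‖f j z‖ ^ 2 ≤ 1) →
    ∃ h : Fin N → EuclideanSpace ℂ (Fin n) → ℂ, (∀ j, DifferentiableOn ℂ (h j) V) ∧
      ∀ z ∈ V, ∑ j, f j z * h j z = 1 ∧ ∑ j, ‖h j z‖ ^ 2 ≤ A ^ 2

/-- Data on `D` which are continuous up to the boundary except at `p` have solutions `h` near `p` with
`|h_j(z)| ≤ C φ(|z - p|)`, where `C` depends on the data. (For `φ = 1` these are bounded solutions.) -/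
def OnePoint {n : ℕ} (N : ℕ) (D : Set (EuclideanSpace ℂ (Fin n))) (p : EuclideanSpace ℂ (Fin n))
    (φ : ℝ → ℝ≥0) : Prop :=
  ∀ f : Fin N → EuclideanSpace ℂ (Fin n) → ℂ, (∀ j, IsHinf D (f j)) →
    (∀ j, ContinuousOn (f j) (closure D \ {p})) →
    (∃ δ > 0, ∀ z ∈ D, δ ≤ ∑ j, ‖f j z‖ ^ 2) →
    ∃ r > 0, ∃ (C : ℝ) (h : Fin N → EuclideanSpace ℂ (Fin n) → ℂ),
      (∀ j, DifferentiableOn ℂ (h j) (D ∩ ball p r)) ∧
      ∀ z ∈ D ∩ ball p r, ∑ j, f j z * h j z = 1 ∧ ∀ j, ‖h j z‖ ≤ C * φ ‖z - p‖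

/-- The data `f` on the ball have a bounded solution near at least one boundary point. -/
def SomewhereSolvable {n N : ℕ}
    (f : C(ball (0 : EuclideanSpace ℂ (Fin n)) 1, EuclideanSpace ℂ (Fin N))) : Prop :=
  ∃ p ∈ sphere (0 : EuclideanSpace ℂ (Fin n)) 1, ∃ r > 0, ∃ A : ℝ, HasSolution f (ball p r) A

/-- The statement for vector valued functions. -/
theorem uniformQ1_iff {n N : ℕ} {δ A : ℝ} (hδ : 0 < δ) (hA : 0 ≤ A)
    {U V : Set (EuclideanSpace ℂ (Fin n))} : UniformQ1 N δ A U V ↔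
      ∀ f : EuclideanSpace ℂ (Fin n) → EuclideanSpace ℂ (Fin N), DifferentiableOn ℂ f U →
        (∀ z ∈ U, δ ≤ ‖f z‖ ∧ ‖f z‖ ≤ 1) → Pool.Agent.MPca0fc2.TB.Solv f V A := by
  constructor
  · intro hU F hF hFb
    obtain ⟨H, hH, hH1⟩ := hU (fun j z => F z j)
      (fun j => (EuclideanSpace.proj (𝕜 := ℂ) j).differentiable.comp_differentiableOn hF)
      (fun z hz => by
        obtain ⟨h1, h2⟩ := hFb z hz
        rw [← EuclideanSpace.norm_sq_eq]
        exact ⟨pow_le_pow_left₀ hδ.le h1 2, by nlinarith [norm_nonneg (F z)]⟩)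
    refine ⟨fun z => WithLp.toLp 2 fun j => H j z, ?_, fun z hz => ?_, fun z hz => (hH1 z hz).1⟩
    · intro z hz
      rw [differentiableWithinAt_euclidean]
      intro j
      exact hH j z hz
    · have h3 : ‖(WithLp.toLp 2 fun j => H j z : EuclideanSpace ℂ (Fin N))‖ ^ 2 ≤ A ^ 2 := by
        rw [EuclideanSpace.norm_sq_eq]
        exact (hH1 z hz).2
      exact (sq_le_sq₀ (norm_nonneg _) hA).mp h3
  · intro hU f hf hfb
    have hfv : DifferentiableOn ℂ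
        (fun z => (WithLp.toLp 2 fun j => f j z : EuclideanSpace ℂ (Fin N))) U := by
      intro z hz
      rw [differentiableWithinAt_euclidean]
      intro j
      exact hf j z hz
    obtain ⟨h, hh, hhA, hsol⟩ := hU _ hfv (fun z hz => by
      obtain ⟨h1, h2⟩ := hfb z hz
      have h3 : ‖(WithLp.toLp 2 fun j => f j z : EuclideanSpace ℂ (Fin N))‖ ^ 2 =
          ∑ j, ‖f j z‖ ^ 2 := by rw [EuclideanSpace.norm_sq_eq]
      rw [← h3] at h1 h2
      constructor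
      · exact (sq_le_sq₀ hδ.le (norm_nonneg _)).mp h1
      · exact (sq_le_sq₀ (norm_nonneg _) zero_le_one).mp (by simpa using h2))
    refine ⟨fun j z => h z j,
      fun j => (EuclideanSpace.proj (𝕜 := ℂ) j).differentiable.comp_differentiableOn hh,
      fun z hz => ⟨hsol z hz, ?_⟩⟩
    rw [← EuclideanSpace.norm_sq_eq]
    exact pow_le_pow_left₀ (norm_nonneg _) (hhA z hz) 2

/-- Normalisation of the data. -/
theorem exists_of_uniform {n N : ℕ} {U : Set (EuclideanSpace ℂ (Fin n))}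
    {f : Fin N → EuclideanSpace ℂ (Fin n) → ℂ} (hf : ∀ j, IsHinf U (f j))
    (hδ : ∃ δ > 0, ∀ z ∈ U, δ ≤ ∑ j, ‖f j z‖ ^ 2) : ∃ δ > 0, ∀ V A, UniformQ1 N δ A U V →
      ∃ h : Fin N → EuclideanSpace ℂ (Fin n) → ℂ, (∀ j, IsHinf V (h j)) ∧
        ∀ z ∈ V, ∑ j, f j z * h j z = 1 := by
  obtain ⟨δ, hδ, hfδ⟩ := hδ
  choose hfd M hM using hf
  set K : ℝ := 1 + ∑ j, |M j| with hK
  have hs0 : 0 ≤ ∑ j, |M j| := Finset.sum_nonneg fun j _ => abs_nonneg _
  have hK0 : 0 < K := by linarith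
  have hup : ∀ z ∈ U, ∑ j, ‖f j z‖ ^ 2 ≤ K ^ 2 := by
    intro z hz
    calc ∑ j, ‖f j z‖ ^ 2 ≤ ∑ j, |M j| ^ 2 := Finset.sum_le_sum fun j _ =>
          pow_le_pow_left₀ (norm_nonneg _) ((hM j z hz).trans (le_abs_self _)) 2
      _ ≤ (∑ j, |M j|) ^ 2 := Finset.sum_sq_le_sq_sum_of_nonneg fun j _ => abs_nonneg _
      _ ≤ K ^ 2 := pow_le_pow_left₀ hs0 (by linarith) 2
  have hng : ∀ j z, ‖((K : ℂ)⁻¹) * f j z‖ ^ 2 = ‖f j z‖ ^ 2 / K ^ 2 := by
    intro j z
    rw [norm_mul, norm_inv, Complex.norm_real, Real.norm_of_nonneg hK0.le]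
    field_simp
  refine ⟨Real.sqrt (δ / K ^ 2), Real.sqrt_pos.2 (by positivity), fun V A hA => ?_⟩
  obtain ⟨h, hh, hh1⟩ := hA (fun j z => (K : ℂ)⁻¹ * f j z) (fun j => (hfd j).const_mul _) (by
    intro z hz
    rw [Real.sq_sqrt (by positivity)]
    simp only [hng]
    rw [← Finset.sum_div]
    constructor
    · exact div_le_div_of_nonneg_right (hfδ z hz) (by positivity)
    · rw [div_le_one (by positivity)]
      exact hup z hz)
  refine ⟨fun j z => (K : ℂ)⁻¹ * h j z, fun j => ⟨(hh j).const_mul _, K⁻¹ * |A|, ?_⟩, ?_⟩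
  · intro z hz
    rw [norm_mul, norm_inv, Complex.norm_real, Real.norm_of_nonneg hK0.le]
    refine mul_le_mul_of_nonneg_left ?_ (by positivity)
    have h1 := (hh1 z hz).2
    have h2 : ‖h j z‖ ^ 2 ≤ A ^ 2 := (Finset.single_le_sum
      (f := fun j => ‖h j z‖ ^ 2) (fun _ _ => sq_nonneg _) (Finset.mem_univ j)).trans h1
    rw [← sq_abs A] at h2
    exact (sq_le_sq₀ (norm_nonneg _) (abs_nonneg _)).mp h2
  · intro z hz
    rw [← (hh1 z hz).1]
    refine Finset.sum_congr rfl fun j _ => ?_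
    ring

/-- A global solution is a local one. -/
theorem onePoint_of_q1 {n N : ℕ} {D : Set (EuclideanSpace ℂ (Fin n))} (hQ : Q1On N D)
    (p : EuclideanSpace ℂ (Fin n)) : OnePoint N D p 1 := by
  intro f hf _ hδ
  obtain ⟨h, hh, hh1⟩ := hQ f hf hδ
  choose hd M hM using hh
  refine ⟨1, one_pos, ∑ j, |M j|, h, fun j => (hd j).mono inter_subset_left,
    fun z hz => ⟨hh1 z hz.1, fun j => ?_⟩⟩
  simp only [Pi.one_apply, NNReal.coe_one, mul_one]
  exact (hM j z hz.1).trans ((le_abs_self _).trans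
    (Finset.single_le_sum (f := fun j => |M j|) (fun _ _ => abs_nonneg _) (Finset.mem_univ j)))

theorem UniformQ1.mono {n N : ℕ} {δ A B : ℝ} {U V : Set (EuclideanSpace ℂ (Fin n))}
    (h : UniformQ1 N δ A U V) (hAB : |A| ≤ B) : UniformQ1 N δ B U V := by
  intro f hf hfb
  obtain ⟨H, hH, hH1⟩ := h f hf hfb
  exact ⟨H, hH, fun z hz => ⟨(hH1 z hz).1, (hH1 z hz).2.trans (by
    rw [← sq_abs A]
    exact pow_le_pow_left₀ (abs_nonneg _) hAB 2)⟩⟩

/-- Strictly pseudoconvex domains have a boundary of class `C²`. -/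
theorem hasC2Boundary_of_psc {n : ℕ} {D : Set (EuclideanSpace ℂ (Fin n))}
    (hD : IsStrictlyPscDomain D) : HasC2Boundary D := by
  obtain ⟨-, W, ρ, hW, hDW, hρ, hDe, hfr⟩ := hD
  refine ⟨W, ρ, hW, hDW, hρ.of_le (WithTop.coe_le_coe.2 le_top), hDe, fun z hz h0 => ?_⟩
  obtain ⟨X, hX⟩ := (hfr z hz).1
  exact hX (by rw [dirDeriv, h0]; rfl)

/-- The hypothesis on local solutions, for vector valued functions. -/
theorem onePoint_vec {n N : ℕ} {D : Set (EuclideanSpace ℂ (Fin n))} {p : EuclideanSpace ℂ (Fin n)}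
    {φ : ℝ → ℝ≥0} (hc : OnePoint N D p φ) {δ : ℝ} (hδ : 0 < δ)
    (F : EuclideanSpace ℂ (Fin n) → EuclideanSpace ℂ (Fin N)) (hF : DifferentiableOn ℂ F D)
    (hFc : ContinuousOn F (closure D \ {p})) (hFb : ∀ z ∈ D, δ ≤ ‖F z‖ ∧ ‖F z‖ ≤ 1) :
    ∃ r > 0, ∃ C : ℝ, 0 ≤ C ∧ ∃ h : EuclideanSpace ℂ (Fin n) → EuclideanSpace ℂ (Fin N),
      DifferentiableOn ℂ h (D ∩ ball p r) ∧ ∀ z ∈ D ∩ ball p r,
        ∑ j, F z j * h z j = 1 ∧ ‖h z‖ ≤ C * (φ ‖z - p‖ : ℝ) := by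
  obtain ⟨r, hr, C, h, hh, hsol⟩ := hc (fun j z => F z j)
    (fun j => ⟨(EuclideanSpace.proj (𝕜 := ℂ) j).differentiable.comp_differentiableOn hF,
      1, fun z hz => (PiLp.norm_apply_le (F z) j).trans (hFb z hz).2⟩)
    (fun j => (EuclideanSpace.proj (𝕜 := ℂ) j).continuous.comp_continuousOn hFc)
    ⟨δ ^ 2, by positivity, fun z hz => by
      rw [← EuclideanSpace.norm_sq_eq]
      exact pow_le_pow_left₀ hδ.le (hFb z hz).1 2⟩
  refine ⟨r, hr, N * |C|, by positivity, fun z => WithLp.toLp 2 fun j => h j z, ?_,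
    fun z hz => ⟨(hsol z hz).1, ?_⟩⟩
  · intro z hz
    rw [differentiableWithinAt_euclidean]
    intro j
    exact hh j z hz
  · have h1 : ∀ j, ‖h j z‖ ≤ |C| * (φ ‖z - p‖ : ℝ) := fun j => ((hsol z hz).2 j).trans
      (mul_le_mul_of_nonneg_right (le_abs_self _) (NNReal.coe_nonneg _))
    have h2 : 0 ≤ |C| * (φ ‖z - p‖ : ℝ) := by positivity
    rw [EuclideanSpace.norm_eq]
    refine (Real.sqrt_le_sqrt (Finset.sum_le_sum fun j _ =>
      pow_le_pow_left₀ (norm_nonneg _) (h1 j) 2)).trans ?_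
    rw [Finset.sum_const, Finset.card_univ, Fintype.card_fin, nsmul_eq_mul]
    rw [Real.sqrt_le_left (by positivity)]
    have h3 : (N : ℝ) ≤ (N : ℝ) ^ 2 := by exact_mod_cast Nat.le_self_pow two_ne_zero N
    calc (N : ℝ) * (|C| * (φ ‖z - p‖ : ℝ)) ^ 2 ≤ (N : ℝ) ^ 2 * (|C| * (φ ‖z - p‖ : ℝ)) ^ 2 :=
          mul_le_mul_of_nonneg_right h3 (sq_nonneg _)
      _ = (N * |C| * (φ ‖z - p‖ : ℝ)) ^ 2 := by ring

/-- From one boundary point to uniform bounds on the ball. -/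
theorem uniform_of_onePoint {n N : ℕ} {D : Set (EuclideanSpace ℂ (Fin n))} (hDo : IsOpen D)
    {p : EuclideanSpace ℂ (Fin n)} (hp : p ∈ frontier D)
    (hacc : ∀ ε > 0, ∃ q ∈ frontier D, q ≠ p ∧ ‖q - p‖ < ε ∧
      ∃ e, Pool.Agent.MPca0fc2.TB.Trans D q e) (hc : OnePoint N D p 1) :
    ∀ δ > 0, ∃ A : ℝ, UniformQ1 N δ A (ball (0 : EuclideanSpace ℂ (Fin n)) 1) (ball 0 1) := by
  intro δ hδ
  obtain ⟨A, hA⟩ := Pool.Agent.MPca0fc2.EQ.uniform_ball_gen (N := N) hDo hp hacc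
    (δ' := δ / 2) (δ := δ) (half_pos hδ) (half_lt_self hδ) (by
    intro F hF hFc hFb
    obtain ⟨r, hr, C, -, h, hh, hsol⟩ := onePoint_vec hc (half_pos hδ) F hF hFc hFb
    exact ⟨r, hr, C, h, hh, fun z hz => by simpa using (hsol z hz).2, fun z hz => (hsol z hz).1⟩)
  refine ⟨|A|, (uniformQ1_iff hδ (abs_nonneg A)).2 fun f hf hfb => ?_⟩
  obtain ⟨h, hh, hhA, hsol⟩ := hA f hf hfb
  exact ⟨h, hh, fun z hz => (hhA z hz).trans (le_abs_self _), hsol⟩

/-- From one boundary point of a strictly pseudoconvex domain, and solutions of arbitrary growth, to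
uniform bounds on the ball. -/
theorem uniform_of_growth {n N : ℕ} (hn : 1 ≤ n) {D : Set (EuclideanSpace ℂ (Fin n))}
    (hD : IsStrictlyPscDomain D) {p : EuclideanSpace ℂ (Fin n)} (hp : p ∈ frontier D) {φ : ℝ → ℝ≥0}
    (hφ : AntitoneOn φ (Ioi 0)) (hc : OnePoint N D p φ) :
    ∀ δ > 0, ∃ A : ℝ, UniformQ1 N δ A (ball (0 : EuclideanSpace ℂ (Fin n)) 1) (ball 0 1) := by
  intro δ hδ
  obtain ⟨hDo, hacc⟩ := Pool.Agent.MPca0fc2.EQ.acc_psc hn hD hp
  obtain ⟨A, hA⟩ := Pool.Agent.MPca0fc2.EQ.uniform_ball_growth (N := N) hn hDo hp hacc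
    (φ := fun t => (φ t : ℝ)) (fun a ha b hb hab => NNReal.coe_le_coe.2 (hφ ha hb hab))
    (fun t => NNReal.coe_nonneg _) (half_pos hδ) (half_lt_self hδ)
    (fun F hF hFc hFb => onePoint_vec hc (half_pos hδ) F hF hFc hFb)
  refine ⟨|A|, (uniformQ1_iff hδ (abs_nonneg A)).2 fun f hf hfb => ?_⟩
  obtain ⟨h, hh, hhA, hsol⟩ := hA f hf hfb
  exact ⟨h, hh, fun z hz => (hhA z hz).trans (le_abs_self _), hsol⟩

theorem hasSolution_iff {n N : ℕ}
    (f : C(ball (0 : EuclideanSpace ℂ (Fin n)) 1, EuclideanSpace ℂ (Fin N)))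
    (V : Set (EuclideanSpace ℂ (Fin n))) (A : ℝ) :
    HasSolution f V A ↔ Pool.Agent.MPca0fc2.TB.Solv (ext f) (ball 0 1 ∩ V) A := by
  constructor
  · rintro ⟨h, h1, h2⟩
    exact ⟨h, h1, fun z hz => (h2 z hz).1, fun z hz => (h2 z hz).2⟩
  · rintro ⟨h, h1, h2, h3⟩
    exact ⟨h, h1, fun z hz => ⟨h2 z hz, h3 z hz⟩⟩

/-- Uniform bounds for the normalisation `|f| ≤ 1` and for the normalisation `|f_j| ≤ 1`. -/
theorem uniform_of_data {n N : ℕ} {δ : ℝ} (hδ : 0 < δ) {A : ℝ}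
    (h : ∀ g : Data n N δ, Pool.Agent.MPca0fc2.TB.Solv (ext g.1) (ball 0 1) A) :
    UniformQ1 N δ |A| (ball (0 : EuclideanSpace ℂ (Fin n)) 1) (ball 0 1) := by
  rw [uniformQ1_iff hδ (abs_nonneg A)]
  intro f hf hfb
  obtain ⟨g, hg⟩ := Pool.Agent.MPca0fc2.ZL.exists_data (δ := δ) hf
    (fun z hz => ⟨fun j => (PiLp.norm_apply_le (f z) j).trans (hfb z hz).2, (hfb z hz).1⟩)
  obtain ⟨u, h1, h2, h3⟩ := h g
  refine ⟨u, h1, fun z hz => (h2 z hz).trans (le_abs_self A), fun z hz => ?_⟩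
  rw [← hg z hz]
  exact h3 z hz

/-- With uniform bounds all the data of the space have solutions. -/
theorem somewhereSolvable {n N : ℕ} (hn : 1 ≤ n)
    (hQ : ∀ δ > 0, ∃ A : ℝ, UniformQ1 N δ A (ball (0 : EuclideanSpace ℂ (Fin n)) 1) (ball 0 1))
    {δ : ℝ} (hδ : 0 < δ) (f : Data n N δ) : SomewhereSolvable f.1 := by
  obtain ⟨δ', hδ', hunif⟩ := exists_of_uniform
    (U := ball (0 : EuclideanSpace ℂ (Fin n)) 1) (f := fun j z => ext f.1 z j)
    (fun j => ⟨(EuclideanSpace.proj (𝕜 := ℂ) j).differentiable.comp_differentiableOn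
      (Pool.Agent.MPca0fc2.ZL.data_bounds f).1,
      1, fun z hz => ((Pool.Agent.MPca0fc2.ZL.data_bounds f).2 z hz).1 j⟩)
    ⟨δ ^ 2, by positivity, fun z hz => by
      rw [← EuclideanSpace.norm_sq_eq]
      exact pow_le_pow_left₀ hδ.le ((Pool.Agent.MPca0fc2.ZL.data_bounds f).2 z hz).2 2⟩
  obtain ⟨A, hA⟩ := hQ δ' hδ'
  obtain ⟨h, hh, hsol⟩ := hunif _ A hA
  choose hd M hM using hh
  have hp : (EuclideanSpace.single ⟨0, hn⟩ 1 : EuclideanSpace ℂ (Fin n)) ∈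
      sphere (0 : EuclideanSpace ℂ (Fin n)) 1 := by
    rw [mem_sphere_zero_iff_norm]
    simp
  refine ⟨_, hp, 1, one_pos, ∑ j, |M j|, fun z => WithLp.toLp 2 fun j => h j z, ?_,
    fun z hz => ⟨?_, hsol z hz.1⟩⟩
  · intro z hz
    rw [differentiableWithinAt_euclidean]
    intro j
    exact ((hd j) z hz.1).mono inter_subset_left
  · have h1 : ∀ j, ‖h j z‖ ≤ |M j| := fun j => (hM j z hz.1).trans (le_abs_self _)
    have h0 : 0 ≤ ∑ j, |M j| := Finset.sum_nonneg fun j _ => abs_nonneg _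
    rw [EuclideanSpace.norm_eq, Real.sqrt_le_left h0]
    exact (Finset.sum_le_sum fun j _ => pow_le_pow_left₀ (norm_nonneg _) (h1 j) 2).trans
      (Finset.sum_sq_le_sq_sum_of_nonneg fun j _ => abs_nonneg _)

/-- The case of one function. -/
theorem uniform_one {n : ℕ} (δ : ℝ) (hδ : δ > 0) :
    ∃ A : ℝ, UniformQ1 1 δ A (ball (0 : EuclideanSpace ℂ (Fin n)) 1) (ball 0 1) := by
  refine ⟨1 / δ, fun f hf hfb => ?_⟩
  have hfb' : ∀ z ∈ ball (0 : EuclideanSpace ℂ (Fin n)) 1, δ ≤ ‖f 0 z‖ := by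
    intro z hz
    have h1 := (hfb z hz).1
    rw [Fin.sum_univ_one] at h1
    exact (sq_le_sq₀ hδ.le (norm_nonneg _)).mp h1
  have hne : ∀ z ∈ ball (0 : EuclideanSpace ℂ (Fin n)) 1, f 0 z ≠ 0 := fun z hz h0 => by
    have := hfb' z hz
    rw [h0, norm_zero] at this
    linarith
  refine ⟨fun _ z => (f 0 z)⁻¹, fun _ => (hf 0).inv hne, fun z hz => ⟨?_, ?_⟩⟩
  · rw [Fin.sum_univ_one]
    exact mul_inv_cancel₀ (hne z hz)
  · rw [Fin.sum_univ_one, norm_inv, one_div]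
    exact pow_le_pow_left₀ (inv_nonneg.2 (norm_nonneg _)) (inv_anti₀ hδ (hfb' z hz)) 2

theorem result {n N : ℕ} (hn : 2 ≤ n) (hN : 1 ≤ N) :
    List.TFAE [
      -- (a) Q1 for `N` functions on all strictly pseudoconvex domains in `ℂᵐ`, `2 ≤ m ≤ n`
      ∀ m, 2 ≤ m → m ≤ n → ∀ D : Set (EuclideanSpace ℂ (Fin m)), IsStrictlyPscDomain D → Q1On N D,
      -- (b) Q1 for `N` functions on one nonempty bounded open set in `ℂⁿ` with a `C²` boundary
      ∃ D : Set (EuclideanSpace ℂ (Fin n)), Bornology.IsBounded D ∧ HasC2Boundary D ∧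
        D.Nonempty ∧ Q1On N D,
      -- (c) Q1 for `N` functions on the ball of `ℂⁿ`
      Q1On N (ball (0 : EuclideanSpace ℂ (Fin n)) 1),
      -- (d) the same with uniform bounds
      ∀ δ > 0, ∃ A : ℝ, UniformQ1 N δ A (ball (0 : EuclideanSpace ℂ (Fin n)) 1) (ball 0 1),
      -- (e) local solutions near all boundary points of all domains, with uniform bounds
      ∀ δ > 0, ∃ A : ℝ, ∀ D : Set (EuclideanSpace ℂ (Fin n)), IsStrictlyPscDomain D →
        ∀ p ∈ frontier D, ∀ s > 0, ∃ r > 0, UniformQ1 N δ A (D ∩ ball p s) (D ∩ ball p r),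
      -- (f) bounded solutions near `p`, for data on the ball with one singular boundary point `p`
      ∀ p ∈ sphere (0 : EuclideanSpace ℂ (Fin n)) 1, OnePoint N (ball 0 1) p 1,
      -- (g) solutions of a fixed, arbitrary growth near one point of one strictly pseudoconvex domain
      ∃ (D : Set (EuclideanSpace ℂ (Fin n))) (p : EuclideanSpace ℂ (Fin n)) (φ : ℝ → ℝ≥0),
        IsStrictlyPscDomain D ∧ p ∈ frontier D ∧ AntitoneOn φ (Ioi 0) ∧ OnePoint N D p φ,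
      -- (h) the data on the ball with bounded solutions near some boundary point are not meager
      ∀ δ ∈ Ioo (0 : ℝ) 1, ¬ IsMeagre {f : Data n N δ | SomewhereSolvable f.1},
      -- (i) inner data on the ball have bounded solutions near some boundary point
      ∃ μ : Measure (sphere (0 : EuclideanSpace ℂ (Fin n)) 1), IsFiniteMeasure μ ∧
        ∀ δ ∈ Ioo (0 : ℝ) 1, ∀ f ∈ Data n N δ, InnerFor μ f → SomewhereSolvable f] := by
  have hn1 : 1 ≤ n := by omega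
  tfae_have 4 → 3 := by
    intro hb f hf hδ
    obtain ⟨δ, hδ0, hA⟩ := exists_of_uniform hf hδ
    obtain ⟨A, hA'⟩ := hb δ hδ0
    exact hA _ A hA'
  tfae_have 3 → 6 := fun ha p _ => onePoint_of_q1 ha p
  tfae_have 6 → 7 := by
    intro hc
    have hp : (EuclideanSpace.single ⟨0, hn1⟩ 1 : EuclideanSpace ℂ (Fin n)) ∈
        sphere (0 : EuclideanSpace ℂ (Fin n)) 1 := by
      rw [mem_sphere_zero_iff_norm]
      simp
    exact ⟨ball 0 1, _, 1, Pool.Agent.MPca0fc2.TB.isStrictlyPscDomain_ball,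
      by rw [frontier_ball _ one_ne_zero]; exact hp, antitoneOn_const, hc _ hp⟩
  tfae_have 7 → 4 := by
    rintro ⟨D, p, φ, hD, hp, hφ, hc⟩
    exact uniform_of_growth hn1 hD hp hφ hc
  tfae_have 4 → 5 := by
    intro hb δ hδ
    obtain ⟨A, hA⟩ := hb (δ / 2) (by positivity)
    refine ⟨|A| + 1, fun D hD p hp s hs => ?_⟩
    obtain ⟨r, hr, -, hloc⟩ := Pool.Agent.MPca0fc2.EQ.loc_psc hD hp (N := N) (abs_nonneg A)
      (half_pos hδ) (half_lt_self hδ) (lt_add_one |A|) hs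
      ((uniformQ1_iff (half_pos hδ) (abs_nonneg A)).1 (hA.mono le_rfl))
    exact ⟨r, hr, (uniformQ1_iff hδ (by positivity)).2 hloc⟩
  tfae_have 5 → 6 := by
    intro he p hp f hf _ hδ
    have hf' : ∀ j, IsHinf (ball (0 : EuclideanSpace ℂ (Fin n)) 1 ∩ ball p 1) (f j) := fun j =>
      ⟨(hf j).1.mono inter_subset_left, (hf j).2.imp fun M hM z hz => hM z hz.1⟩
    obtain ⟨δ, hδ0, hA⟩ := exists_of_uniform hf'
      (hδ.imp fun δ h => ⟨h.1, fun z hz => h.2 z hz.1⟩)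
    obtain ⟨A, hA'⟩ := he δ hδ0
    obtain ⟨r, hr, hr'⟩ := hA' _ Pool.Agent.MPca0fc2.TB.isStrictlyPscDomain_ball p
      (by rw [frontier_ball _ one_ne_zero]; exact hp) 1 one_pos
    obtain ⟨h, hh, hh1⟩ := hA _ A hr'
    choose hd M hM using hh
    refine ⟨r, hr, ∑ j, |M j|, h, hd, fun z hz => ⟨hh1 z hz, fun j => ?_⟩⟩
    simp only [Pi.one_apply, NNReal.coe_one, mul_one]
    exact (hM j z hz).trans ((le_abs_self _).trans
      (Finset.single_le_sum (f := fun j => |M j|) (fun _ _ => abs_nonneg _) (Finset.mem_univ j)))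
  tfae_have 4 → 1 := by
    intro hb m hm hmn D hD f hf hδ
    obtain ⟨δ, hδ, hfδ⟩ := hδ
    obtain ⟨C, h, h1, h2, h3⟩ := Pool.Agent.MPca0fc2.EQ.psc_of_tg hm (N := N) (by
      intro T s δ' f' hs hδ' hf' hfb
      obtain ⟨A, hA⟩ := hb (δ' / 2) (half_pos hδ')
      obtain ⟨s₁, hs₁, -, hloc⟩ := Pool.Agent.MPca0fc2.EQ.local_tg_sharp T (N := N) (abs_nonneg A)
        (half_pos hδ') (half_lt_self hδ') (lt_add_one |A|) hs
        (Pool.Agent.MPca0fc2.EQ.ball_dim hmn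
          ((uniformQ1_iff (half_pos hδ') (abs_nonneg A)).1 (hA.mono le_rfl)))
      exact ⟨s₁, hs₁, |A| + 1, hloc f' hf' hfb⟩) hD hf hδ hfδ
    exact ⟨h, fun j => ⟨h1 j, C, h2 j⟩, h3⟩
  tfae_have 1 → 2 := fun hQ =>
    have hB := Pool.Agent.MPca0fc2.TB.isStrictlyPscDomain_ball (n := n)
    ⟨ball 0 1, hB.1, hasC2Boundary_of_psc hB, ⟨0, mem_ball_self one_pos⟩, hQ n hn le_rfl _ hB⟩
  tfae_have 2 → 4 := by
    rintro ⟨D, hb, h2, hne, hQ⟩
    obtain ⟨hDo, p, hp, hacc⟩ := Pool.Agent.MPca0fc2.EQ.far_seq hn1 hb h2 hne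
    exact uniform_of_onePoint hDo hp hacc (onePoint_of_q1 hQ p)
  have hns : ∀ δ ∈ Ioo (0 : ℝ) 1, ∀ S : Set (Data n N δ), S ∈ residual (Data n N δ) →
      ¬ IsMeagre S := by
    intro δ hδ S hS hm
    have := Pool.Agent.MPca0fc2.ZL.baire_data (n := n) (N := N) δ
    have hne : Nonempty (Data n N δ) :=
      (Pool.Agent.MPca0fc2.ZL.data_nonempty hN hδ.2.le).to_subtype
    obtain ⟨f, hf1, hf2⟩ := (dense_of_mem_residual (inter_mem hS hm)).nonempty
    exact hf2 hf1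
  tfae_have 4 → 9 := fun hQ => ⟨0, inferInstance, fun δ hδ f hf _ =>
    somewhereSolvable hn1 hQ hδ.1 ⟨f, hf⟩⟩
  tfae_have 9 → 8 := by
    rintro ⟨μ, hμ, hQ⟩ δ hδ
    refine hns δ hδ _ ?_
    rcases hN.eq_or_lt with h1 | h1
    · subst h1
      exact Filter.univ_mem' fun f => somewhereSolvable hn1 (uniform_one (n := n)) hδ.1 f
    · filter_upwards [Pool.Agent.MPca0fc2.ZL.gen_inner h1 μ hδ.1 hδ.2] with f hf
      exact hQ δ hδ f.1 f.2 hf
  tfae_have 8 → 4 := by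
    intro hm
    rcases hN.eq_or_lt with h1 | h1
    · subst h1
      exact uniform_one
    intro δ₀ hδ₀
    by_contra hcon
    push Not at hcon
    have hδ : min δ₀ (1 / 2) ∈ Ioo (0 : ℝ) 1 :=
      ⟨lt_min hδ₀ (by norm_num), (min_le_right _ _).trans_lt (by norm_num)⟩
    refine hm _ hδ ?_
    filter_upwards [Pool.Agent.MPca0fc2.ZL.gen_extremal h1 hδ.1 hδ.2] with f hf
    rintro ⟨p, hp, r, hr, A, hA⟩
    have h2 := uniform_of_data hδ.1 (hf p hp r hr A ((hasSolution_iff _ _ _).1 hA))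
    refine hcon |A| fun g hg hgb => h2 g hg fun z hz =>
      ⟨(pow_le_pow_left₀ hδ.1.le (min_le_left _ _) 2).trans (hgb z hz).1, (hgb z hz).2⟩
  tfae_finish

end Pool.Agent.MPca0fc2AD
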