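import Mathlib
import Pool.Agent.Lib.MP_ca0fc2_an.TE.Main
import Pool.Agent.Lib.MP_ca0fc2_an.TE.Aff
import Pool.Agent.Lib.MP_ca0fc2_an.TE.Ln
import Pool.Agent.Lib.MP_ca0fc2_an.TE.V0

/-!
# The corona problem on the ball: extension of solutions from complex slices

Data `f_1, ..., f_N` on the unit ball `B` of `ℂⁿ`, `n ≥ 2`, `δ ≤ ∑ |f_j|² ≤ 1`. For every complex affine
subspace `a + V` which meets `B`, every holomorphic solution `g` on the slice with `|g| ≤ A` extends to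
a holomorphic solution `h` on `B` with `|h(z)| ≤ C (1 + dist(z, a + V))`, and for `a = 0` with
`|h(z)| ≤ C (1 + G(z))`, `G(z)` the integral of the local energy of the data over the geodesic from
the projection of `z` on `V` to `z`. If `dim V ≤ 1`, such `h` exist for all data. For `V = 0` the
function `G` is at most `C` times the energy.
-/

set_option autoImplicit false

open Metric Set MeasureTheory
open scoped InnerProductSpace

namespace Pool.Agent.MPca0fc2SE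

/-- the square of the invariant gradient -/
noncomputable def invGrad {n : ℕ} (u : EuclideanSpace ℂ (Fin n) → ℂ)
    (x : EuclideanSpace ℂ (Fin n)) : ℝ :=
  (1 - ‖x‖ ^ 2) * (‖fderiv ℂ u x‖ ^ 2 - ‖fderiv ℂ u x x‖ ^ 2)

/-- the energy of the data near the point `y` of the unit ball -/
noncomputable def locEnergy {n N : ℕ} (M : ℕ) (f : Fin N → EuclideanSpace ℂ (Fin n) → ℂ)
    (y : EuclideanSpace ℂ (Fin n)) : ℝ :=
  ∫ x in ball (0 : EuclideanSpace ℂ (Fin n)) 1, (∑ j, invGrad (f j) x) *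
    ((1 - ‖x‖ ^ 2) ^ M * (1 - ‖y‖ ^ 2) ^ (1 / 4 : ℝ) / ‖1 - ⟪x, y⟫_ℂ‖ ^ (M + 1 / 4 : ℝ)) /
      (1 - ‖x‖ ^ 2) ^ (n + 1)

/-- the pseudohyperbolic distance of `z` from the slice `V ∩ ball 0 1` -/
noncomputable def rho {n : ℕ} (V : Submodule ℂ (EuclideanSpace ℂ (Fin n)))
    (z : EuclideanSpace ℂ (Fin n)) : ℝ :=
  ‖z - V.starProjection z‖ / √(1 - ‖V.starProjection z‖ ^ 2)

/-- the integral of the local energy over the geodesic from the projection of `z` on `V` to `z`,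
with respect to the hyperbolic length -/
noncomputable def geodEnergy {n N : ℕ} (M : ℕ) (f : Fin N → EuclideanSpace ℂ (Fin n) → ℂ)
    (V : Submodule ℂ (EuclideanSpace ℂ (Fin n))) (z : EuclideanSpace ℂ (Fin n)) : ℝ :=
  ∫ t in Icc (0 : ℝ) 1,
    locEnergy M f (V.starProjection z + (t : ℂ) • (z - V.starProjection z)) *
      (rho V z / (1 - t ^ 2 * rho V z ^ 2))

/-- the energy of the data at the point `z` -/
noncomputable def energy {n N : ℕ} (M : ℕ) (f : Fin N → EuclideanSpace ℂ (Fin n) → ℂ)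
    (z : EuclideanSpace ℂ (Fin n)) : ℝ :=
  ∫ x in ball (0 : EuclideanSpace ℂ (Fin n)) 1, (∑ j, invGrad (f j) x) *
    ((1 - ‖x‖ ^ 2) / ‖1 - ⟪x, z⟫_ℂ‖) ^ M / (1 - ‖x‖ ^ 2) ^ (n + 1)

/-- `h` is a holomorphic solution of `∑ f_j h_j = 1` on the unit ball which grows at most like the
hyperbolic distance from the slice `(a + V) ∩ ball 0 1`, and for `a = 0` at most like the integral
of the local energy over the geodesic from the slice to the point -/
structure Controlled {n N : ℕ} (M : ℕ) (C : ℝ) (f : Fin N → EuclideanSpace ℂ (Fin n) → ℂ)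
    (V : Submodule ℂ (EuclideanSpace ℂ (Fin n))) (a : EuclideanSpace ℂ (Fin n))
    (h : Fin N → EuclideanSpace ℂ (Fin n) → ℂ) : Prop where
  holo : ∀ j, DifferentiableOn ℂ (h j) (ball 0 1)
  sol : ∀ z ∈ ball (0 : EuclideanSpace ℂ (Fin n)) 1, ∑ j, f j z * h j z = 1
  dist : ∀ z ∈ ball (0 : EuclideanSpace ℂ (Fin n)) 1, ∀ v : V, ‖a + v‖ < 1 →
    √(∑ j, ‖h j z‖ ^ 2) ≤
      C * (1 + Real.log (‖1 - ⟪z, a + v⟫_ℂ‖ ^ 2 / ((1 - ‖z‖ ^ 2) * (1 - ‖a + v‖ ^ 2))))
  geod : a = 0 → ∀ z ∈ ball (0 : EuclideanSpace ℂ (Fin n)) 1,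
    √(∑ j, ‖h j z‖ ^ 2) ≤ C * (1 + geodEnergy M f V z)

open Pool.Agent.MPca0fc2.TS Pool.Agent.MPca0fc2.TE Pool.Agent.MPca0fc2.PT

theorem PP_gen {m N : ℕ} (M : ℕ) (p : ℝ) (f : Fin N → EuclideanSpace ℂ (Fin (m + 1)) → ℂ)
    (z : EuclideanSpace ℂ (Fin (m + 1))) :
    PP (nuE volume m M f) p z = ∫ x in ball (0 : EuclideanSpace ℂ (Fin (m + 1))) 1,
      (1 - ‖x‖ ^ 2) ^ M * (∑ j, invGrad (f j) x) / (1 - ‖x‖ ^ 2) ^ (m + 2) *
        ‖1 - ⟪x, z⟫_ℂ‖ ^ (-p) := by
  have hmeas : Measurable fun x : EuclideanSpace ℂ (Fin (m + 1)) =>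
      ENNReal.ofReal ((1 - ‖x‖ ^ 2) ^ M * (∑ j, IG2 (f j) x) /
        (1 - ‖x‖ ^ 2) ^ (m + 2)) := by
    apply ENNReal.measurable_ofReal.comp
    refine Measurable.div (Measurable.mul ?_ ?_) ?_
    · exact (measurable_const.sub (measurable_norm.pow_const 2)).pow_const _
    · exact Finset.measurable_fun_sum _ fun j _ => gd_IG_meas (f j)
    · exact (measurable_const.sub (measurable_norm.pow_const 2)).pow_const _
  unfold PP nuE
  rw [integral_withDensity_eq_integral_toReal_smul hmeas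
    (Filter.Eventually.of_forall fun _ => ENNReal.ofReal_lt_top)]
  refine setIntegral_congr_fun measurableSet_ball fun x hx => ?_
  rw [mem_ball_zero_iff] at hx
  have hx2 : 0 < 1 - ‖x‖ ^ 2 := by nlinarith [norm_nonneg x]
  have hIG : 0 ≤ ∑ j, IG2 (f j) x := Finset.sum_nonneg fun j _ => gd_IG_nonneg hx
  simp only [smul_eq_mul]
  rw [ENNReal.toReal_ofReal (by positivity)]
  rfl

theorem PP_energy {m N : ℕ} (M : ℕ) (f : Fin N → EuclideanSpace ℂ (Fin (m + 1)) → ℂ)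
    (z : EuclideanSpace ℂ (Fin (m + 1))) :
    PP (nuE volume m M f) M z = energy M f z := by
  rw [PP_gen]
  unfold energy
  refine setIntegral_congr_fun measurableSet_ball fun x hx => ?_
  rw [Real.rpow_neg (norm_nonneg _), Real.rpow_natCast, div_pow]
  ring

theorem Om_eq {m N : ℕ} (M : ℕ) (f : Fin N → EuclideanSpace ℂ (Fin (m + 1)) → ℂ)
    (y : EuclideanSpace ℂ (Fin (m + 1))) :
    Om (nuE volume m M f) M y = locEnergy M f y := by
  unfold Om locEnergy
  rw [PP_gen, ← integral_const_mul]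
  refine setIntegral_congr_fun measurableSet_ball fun x hx => ?_
  rw [Real.rpow_neg (norm_nonneg _)]
  ring

theorem GI_eq {m N : ℕ} (M : ℕ) (f : Fin N → EuclideanSpace ℂ (Fin (m + 1)) → ℂ)
    (V : Submodule ℂ (EuclideanSpace ℂ (Fin (m + 1)))) (z : EuclideanSpace ℂ (Fin (m + 1))) :
    GI (Om (nuE volume m M f) M) V.starProjection z = geodEnergy M f V z := by
  unfold GI geodEnergy
  simp only [Om_eq]
  rfl

theorem prj_star {n : ℕ} (V : Submodule ℂ (EuclideanSpace ℂ (Fin n))) :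
    Prj V.starProjection where
  idem x := by
    rw [Submodule.starProjection_eq_self_iff]
    rw [Submodule.starProjection_apply]
    exact Submodule.coe_mem _
  sa x y := Submodule.inner_starProjection_left_eq_right V x y

theorem norm_le {N : ℕ} {u : Fin N → ℂ} {B : ℝ} (hB : 0 ≤ B) (h : ∀ j, ‖u j‖ ≤ B) :
    √(∑ j, ‖u j‖ ^ 2) ≤ (N + 1) * B := by
  calc √(∑ j, ‖u j‖ ^ 2) ≤ √(∑ _j : Fin N, B ^ 2) :=
        Real.sqrt_le_sqrt (Finset.sum_le_sum fun j _ =>
          pow_le_pow_left₀ (norm_nonneg _) (h j) 2)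
    _ = √N * B := by
        rw [Finset.sum_const, Finset.card_univ, Fintype.card_fin, nsmul_eq_mul,
          Real.sqrt_mul (by positivity), Real.sqrt_sq hB]
    _ ≤ (N + 1) * B := by
        refine mul_le_mul_of_nonneg_right ?_ hB
        rw [Real.sqrt_le_left (by positivity)]
        nlinarith [(Nat.cast_nonneg N : (0:ℝ) ≤ N)]

/-- a solution on the slice of dimension at most one -/
theorem small_sol {n N : ℕ} {δ : ℝ} (hδ : 0 < δ) : ∃ A : ℝ, 0 < A ∧
    ∀ f : Fin N → EuclideanSpace ℂ (Fin n) → ℂ,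
      (∀ j, DifferentiableOn ℂ (f j) (ball 0 1)) →
      (∀ z ∈ ball (0 : EuclideanSpace ℂ (Fin n)) 1,
        δ ≤ ∑ j, ‖f j z‖ ^ 2 ∧ ∑ j, ‖f j z‖ ^ 2 ≤ 1) →
      ∀ V : Submodule ℂ (EuclideanSpace ℂ (Fin n)), Module.finrank ℂ V ≤ 1 →
      ∃ g : Fin N → EuclideanSpace ℂ (Fin n) → ℂ,
        (∀ j, DifferentiableOn ℂ (fun z => g j (V.starProjection z)) (ball 0 1)) ∧
        ∀ z ∈ ball (0 : EuclideanSpace ℂ (Fin n)) 1,
          ∑ j, f j (V.starProjection z) * g j (V.starProjection z) = 1 ∧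
          ∑ j, ‖g j (V.starProjection z)‖ ^ 2 ≤ A ^ 2 := by
  obtain ⟨A, hA, h⟩ := line_sol (E := EuclideanSpace ℂ (Fin n)) N hδ
  refine ⟨A + 1 / √δ, by positivity, fun f hf hb V hV => ?_⟩
  have hA2 : A ^ 2 ≤ (A + 1 / √δ) ^ 2 :=
    pow_le_pow_left₀ hA.le (le_add_of_nonneg_right (by positivity)) 2
  rcases Nat.lt_or_ge (Module.finrank ℂ V) 1 with h0 | h0
  · have hV0 : V = ⊥ := by
      rw [← Submodule.finrank_eq_zero (R := ℂ)]
      omega
    subst hV0
    obtain ⟨b1, b2⟩ := hb 0 (by simp)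
    set s : ℝ := ∑ j, ‖f j 0‖ ^ 2 with hs
    have hs0 : 0 < s := hδ.trans_le b1
    refine ⟨fun j _ => (starRingEnd ℂ) (f j 0) / (s : ℂ),
      fun j => differentiableOn_const _, fun z hz => ?_⟩
    have hz0 : (⊥ : Submodule ℂ (EuclideanSpace ℂ (Fin n))).starProjection z = 0 := by simp
    rw [hz0]
    constructor
    · have e : ∀ j, f j 0 * ((starRingEnd ℂ) (f j 0) / (s : ℂ)) =
          ((‖f j 0‖ ^ 2 : ℝ) : ℂ) / (s : ℂ) := by
        intro j
        rw [← mul_div_assoc, Complex.mul_conj, Complex.normSq_eq_norm_sq]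
      simp only [e]
      rw [← Finset.sum_div, ← Complex.ofReal_sum, ← hs,
        div_self (Complex.ofReal_ne_zero.2 hs0.ne')]
    · have e : ∀ j, ‖(starRingEnd ℂ) (f j 0) / (s : ℂ)‖ ^ 2 = ‖f j 0‖ ^ 2 / s ^ 2 := by
        intro j
        rw [norm_div, RCLike.norm_conj, Complex.norm_real, Real.norm_of_nonneg hs0.le, div_pow]
      simp only [e]
      rw [← Finset.sum_div, ← hs]
      have e2 : s / s ^ 2 = 1 / s := by field_simp
      rw [e2]
      have e3 : 1 / s ≤ 1 / δ := one_div_le_one_div_of_le hδ b1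
      have e4 : (1 / √δ) ^ 2 = 1 / δ := by
        rw [div_pow, Real.sq_sqrt hδ.le, one_pow]
      refine (e3.trans (le_of_eq e4.symm)).trans
        (pow_le_pow_left₀ (by positivity) (by linarith) 2)
  · have h1 : Module.finrank ℂ V = 1 := by omega
    obtain ⟨v, hv0, hv⟩ := finrank_eq_one_iff'.1 h1
    have hvn : ‖(v : EuclideanSpace ℂ (Fin n))‖ ≠ 0 := by
      simpa using hv0
    set e : EuclideanSpace ℂ (Fin n) :=
      ((‖(v : EuclideanSpace ℂ (Fin n))‖⁻¹ : ℝ) : ℂ) • (v : EuclideanSpace ℂ (Fin n)) with he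
    have hen : ‖e‖ = 1 := by
      rw [he, norm_smul, Complex.norm_real, Real.norm_of_nonneg (by positivity),
        inv_mul_cancel₀ hvn]
    have heV : e ∈ V := V.smul_mem _ v.2
    have hVe : ∀ x ∈ V, x = ⟪e, x⟫_ℂ • e := by
      intro x hx
      obtain ⟨c, hc⟩ := hv ⟨x, hx⟩
      have hc' : x = c • (v : EuclideanSpace ℂ (Fin n)) := by
        have := congrArg Subtype.val hc
        simpa using this.symm
      have hve : (v : EuclideanSpace ℂ (Fin n)) =
          ((‖(v : EuclideanSpace ℂ (Fin n))‖ : ℝ) : ℂ) • e := by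
        rw [he, smul_smul, ← Complex.ofReal_mul, mul_inv_cancel₀ hvn, Complex.ofReal_one,
          one_smul]
      have hxe : x = (c * ((‖(v : EuclideanSpace ℂ (Fin n))‖ : ℝ) : ℂ)) • e := by
        rw [mul_smul, ← hve]
        exact hc'
      have hee : ⟪e, e⟫_ℂ = 1 := by
        rw [inner_self_eq_norm_sq_to_K, hen]
        simp
      conv_rhs => rw [hxe, inner_smul_right, hee, mul_one]
      exact hxe
    have hP : V.starProjection = ((innerSL ℂ e).smulRight e) := by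
      ext1 z
      have h2 := hVe (V.starProjection z) (by
        rw [Submodule.starProjection_apply]; exact Submodule.coe_mem _)
      have h3 : ⟪e, V.starProjection z⟫_ℂ = ⟪e, z⟫_ℂ := by
        rw [← Submodule.inner_starProjection_left_eq_right,
          Submodule.starProjection_eq_self_iff.2 heV]
      rw [h2, h3]
      simp
    obtain ⟨g, g1, g2⟩ := h e hen f hf hb
    rw [← hP] at g1 g2
    refine ⟨g, g1, fun z hz => ⟨(g2 z hz).1, (g2 z hz).2.trans hA2⟩⟩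

theorem orth_idem {n : ℕ} (V : Submodule ℂ (EuclideanSpace ℂ (Fin n)))
    (z : EuclideanSpace ℂ (Fin n)) :
    V.orthogonalProjectionOnto (V.starProjection z) = V.orthogonalProjectionOnto z := by
  apply Subtype.ext
  rw [← Submodule.starProjection_apply, ← Submodule.starProjection_apply]
  exact (prj_star V).idem z

theorem gg_zero_left {n : ℕ} (z : EuclideanSpace ℂ (Fin n)) : gg 0 z = z := by
  have h := gg_perp (P := ContinuousLinearMap.id ℂ (EuclideanSpace ℂ (Fin n)))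
    ⟨fun _ => rfl, fun _ _ => rfl⟩ (a := 0) rfl z
  have hs : ss (0 : EuclideanSpace ℂ (Fin n)) = 1 := by simp [ss]
  rw [hs] at h
  simpa using h

theorem gg_zero_left' {n : ℕ} (z : EuclideanSpace ℂ (Fin n)) : gg (-0) z = z := by
  rw [neg_zero]
  exact gg_zero_left z

/-- from solutions for `f ∘ gg a'` to solutions for `f` -/
theorem controlled_of {m N : ℕ} (hm : 1 ≤ m) {M : ℕ} (hM : m + 2 ≤ M) : ∃ C₁ : ℝ, 0 < C₁ ∧
    ∀ f : Fin N → EuclideanSpace ℂ (Fin (m + 1)) → ℂ,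
      (∀ j, DifferentiableOn ℂ (f j) (ball 0 1)) →
      (∀ j, ∀ z ∈ ball (0 : EuclideanSpace ℂ (Fin (m + 1))) 1, ‖f j z‖ ≤ 1) →
      ∀ (V : Submodule ℂ (EuclideanSpace ℂ (Fin (m + 1))))
        (a a' : EuclideanSpace ℂ (Fin (m + 1))), a' = a - V.starProjection a → ‖a'‖ < 1 →
      ∀ C' : ℝ, 0 ≤ C' → ∀ C : ℝ, (N + 1) * C' * (1 + C₁) ≤ C →
      ∀ H : Fin N → EuclideanSpace ℂ (Fin (m + 1)) → ℂ,
      (∀ j, DifferentiableOn ℂ (H j) (ball 0 1)) →
      (∀ z ∈ ball (0 : EuclideanSpace ℂ (Fin (m + 1))) 1, ∑ j, f j (gg a' z) * H j z = 1 ∧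
        ∀ j, ‖H j z‖ ≤ C' * (1 + GI (Om (nuE volume m M fun j z => f j (gg a' z)) M)
          V.starProjection z)) →
      Controlled M C f V a (fun j z => H j (gg (-a') z)) ∧
      ∀ v : V, ‖a + v‖ < 1 → ∃ y : EuclideanSpace ℂ (Fin (m + 1)),
        ‖V.starProjection y‖ < 1 ∧ gg (-a') (a + v) = V.starProjection y ∧
        (ss a' : ℂ) • V.orthogonalProjectionOnto y - V.orthogonalProjectionOnto a = v := by
  have hdim : Module.finrank ℂ (EuclideanSpace ℂ (Fin (m + 1))) = m + 1 := by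
    rw [finrank_euclideanSpace_fin]
  obtain ⟨C₁, hC₁, hA⟩ := aff_core (E := EuclideanSpace ℂ (Fin (m + 1))) volume hm hdim N hM
  refine ⟨C₁, hC₁, ?_⟩
  intro f hf hf1 V a a' ha' ha'1 C' hC' C hC H hH hHs
  have hP := prj_star V
  have hPa' : V.starProjection a' = 0 := by
    rw [ha', map_sub, hP.idem, sub_self]
  obtain ⟨b1, b2, b3, b4⟩ := hA f hf hf1 V.starProjection hP a' ha'1 hPa' C' hC' H hH hHs
  have hsl : ∀ v : V, a' + V.starProjection (a + (v : EuclideanSpace ℂ (Fin (m + 1)))) =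
      a + (v : EuclideanSpace ℂ (Fin (m + 1))) := by
    intro v
    rw [map_add, Submodule.starProjection_eq_self_iff.2 v.2, ha']
    abel
  have hNC : 0 ≤ (N + 1) * C' * (1 + C₁) := by positivity
  refine ⟨⟨b1, b2, fun z hz v hv => ?_, fun ha z hz => ?_⟩, fun v hv => ?_⟩
  · have h1 := b4 z hz (a + v) (by rw [hsl]; exact hv)
    rw [hsl] at h1
    have e : 1 / Pool.Agent.MPca0fc2.PT.HH z (a + v) =
        ‖1 - ⟪z, a + v⟫_ℂ‖ ^ 2 / ((1 - ‖z‖ ^ 2) * (1 - ‖a + v‖ ^ 2)) := by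
      unfold Pool.Agent.MPca0fc2.PT.HH
      rw [one_div_div]
    rw [e] at h1
    have h5 : 0 ≤ Real.log
        (‖1 - ⟪z, a + v⟫_ℂ‖ ^ 2 / ((1 - ‖z‖ ^ 2) * (1 - ‖a + v‖ ^ 2))) := by
      rw [← e]
      apply Real.log_nonneg
      rw [le_div_iff₀ (HH_pos (mem_ball_zero_iff.1 hz) hv)]
      have := HH_le_one (mem_ball_zero_iff.1 hz) hv
      linarith
    refine (norm_le (by positivity) h1).trans ?_
    have h6 : (N + 1) * C' * C₁ ≤ C := by
      refine le_trans ?_ hC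
      have : 0 ≤ (N + 1) * C' := by positivity
      nlinarith
    calc (N + 1) * (C' * (C₁ * (1 + Real.log
          (‖1 - ⟪z, a + v⟫_ℂ‖ ^ 2 / ((1 - ‖z‖ ^ 2) * (1 - ‖a + v‖ ^ 2))))))
        = (N + 1) * C' * C₁ * (1 + Real.log
          (‖1 - ⟪z, a + v⟫_ℂ‖ ^ 2 / ((1 - ‖z‖ ^ 2) * (1 - ‖a + v‖ ^ 2)))) := by ring
      _ ≤ _ := mul_le_mul_of_nonneg_right h6 (by positivity)
  · have ha'0 : a' = 0 := by rw [ha', ha, map_zero, sub_zero]
    subst ha'0
    have e : (fun j z => f j (gg 0 z)) = f := by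
      funext j z
      rw [gg_zero_left]
    have h1 := (hHs z hz).2
    rw [e, GI_eq] at h1
    have h2 : 0 ≤ geodEnergy M f V z := by
      rw [← GI_eq]
      exact GI_nonneg hP (fun y hy => Om_nonneg (mem_ball_zero_iff.1 hy))
        (mem_ball_zero_iff.1 hz)
    have h3 : ∀ j, ‖H j (gg (-0) z)‖ ≤ C' * (1 + geodEnergy M f V z) := fun j => by
      rw [gg_zero_left']
      exact h1 j
    refine (norm_le (by positivity) h3).trans ?_
    rw [← mul_assoc]
    refine mul_le_mul_of_nonneg_right (le_trans ?_ hC) (by positivity)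
    have : 0 ≤ (N + 1) * C' := by positivity
    nlinarith
  · obtain ⟨y, y1, y2, y3⟩ := b3 (a + v) (by rw [hsl]; exact hv)
    rw [hsl] at y2 y3
    refine ⟨y, y1, y2, ?_⟩
    rw [gg_perp hP hPa', ha'] at y3
    apply Subtype.ext
    have e1 : ((V.orthogonalProjectionOnto y : V) : EuclideanSpace ℂ (Fin (m + 1))) =
      V.starProjection y := (Submodule.starProjection_apply _ _).symm
    have e2 : ((V.orthogonalProjectionOnto a : V) : EuclideanSpace ℂ (Fin (m + 1))) =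
      V.starProjection a := (Submodule.starProjection_apply _ _).symm
    rw [Submodule.coe_sub, Submodule.coe_smul, e1, e2]
    rw [map_smul, ← ha'] at y3
    have e3 : (ss a' : ℂ) • V.starProjection y = V.starProjection a + v := by
      have h7 : (ss a' : ℂ) • V.starProjection y =
          (a + (v : EuclideanSpace ℂ (Fin (m + 1)))) - a' := by
        rw [← y3]; abel
      rw [h7, ha']
      abel
    rw [e3]
    abel

theorem result {n N M : ℕ} (hn : 2 ≤ n) (hM : n + 1 ≤ M) {δ A : ℝ} (hδ : 0 < δ) (hA : 0 < A) :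
    ∃ C : ℝ, 0 < C ∧ ∀ f : Fin N → EuclideanSpace ℂ (Fin n) → ℂ,
      (∀ j, DifferentiableOn ℂ (f j) (ball 0 1)) →
      (∀ z ∈ ball (0 : EuclideanSpace ℂ (Fin n)) 1,
        δ ≤ ∑ j, ‖f j z‖ ^ 2 ∧ ∑ j, ‖f j z‖ ^ 2 ≤ 1) →
      ∀ (V : Submodule ℂ (EuclideanSpace ℂ (Fin n))) (a : EuclideanSpace ℂ (Fin n)), ‖a‖ < 1 →
        (∀ g : Fin N → V → ℂ, (∀ j, DifferentiableOn ℂ (g j) {v | ‖a + v‖ < 1}) →
          (∀ v : V, ‖a + v‖ < 1 →
            ∑ j, f j (a + v) * g j v = 1 ∧ √(∑ j, ‖g j v‖ ^ 2) ≤ A) →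
          ∃ h : Fin N → EuclideanSpace ℂ (Fin n) → ℂ, Controlled M C f V a h ∧
            ∀ v : V, ‖a + v‖ < 1 → ∀ j, h j (a + v) = g j v) ∧
        (Module.finrank ℂ V ≤ 1 →
          ∃ h : Fin N → EuclideanSpace ℂ (Fin n) → ℂ, Controlled M C f V a h) ∧
        (V = ⊥ → ∀ z ∈ ball (0 : EuclideanSpace ℂ (Fin n)) 1,
          geodEnergy M f V z ≤ C * energy M f z) := by
  obtain ⟨m, rfl⟩ : ∃ m, n = m + 1 := ⟨n - 1, by omega⟩
  have hdim : Module.finrank ℂ (EuclideanSpace ℂ (Fin (m + 1))) = m + 1 := by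
    rw [finrank_euclideanSpace_fin]
  obtain ⟨C1, hC1, h1⟩ := extend_N (E := EuclideanSpace ℂ (Fin (m + 1))) volume (m := m)
    (by omega) hdim N hδ hA (M := M) (by omega)
  obtain ⟨A₀, hA₀, h0⟩ := small_sol (n := m + 1) (N := N) hδ
  obtain ⟨C2, hC2, h2⟩ := extend_N (E := EuclideanSpace ℂ (Fin (m + 1))) volume (m := m)
    (by omega) hdim N hδ hA₀ (M := M) (by omega)
  obtain ⟨C3, hC3, h3⟩ := controlled_of (m := m) (N := N) (by omega) (M := M) (by omega)
  obtain ⟨C4, hC4, h4⟩ := GI_zero (E := EuclideanSpace ℂ (Fin (m + 1))) (M := M) (by omega)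
  have hN1 : (0 : ℝ) ≤ (N + 1) * C1 * (1 + C3) := by positivity
  have hN2 : (0 : ℝ) ≤ (N + 1) * C2 * (1 + C3) := by positivity
  refine ⟨(N + 1) * C1 * (1 + C3) + (N + 1) * C2 * (1 + C3) + C4, by positivity,
    fun f hf hb V a ha => ?_⟩
  have hf1 : ∀ j, ∀ z ∈ ball (0 : EuclideanSpace ℂ (Fin (m + 1))) 1, ‖f j z‖ ≤ 1 := by
    intro j z hz
    have h2 := (hb z hz).2
    have h3 : ‖f j z‖ ^ 2 ≤ ∑ j, ‖f j z‖ ^ 2 :=
      Finset.single_le_sum (f := fun j => ‖f j z‖ ^ 2) (fun _ _ => sq_nonneg _)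
        (Finset.mem_univ j)
    nlinarith [norm_nonneg (f j z)]
  have hν : OnB (nuE volume m M f) := nuE_OnB volume (by omega) hf hf1
  have hP := prj_star V
  obtain ⟨a', ha'⟩ : ∃ a', a' = a - V.starProjection a := ⟨_, rfl⟩
  have ha'1 : ‖a'‖ < 1 := by
    have h5 := pyth hP a
    rw [← ha'] at h5
    nlinarith [norm_nonneg a, norm_nonneg a', sq_nonneg ‖V.starProjection a‖]
  have hPa' : V.starProjection a' = 0 := by
    rw [ha', map_sub, hP.idem, sub_self]
  have hF : ∀ j, DifferentiableOn ℂ (fun z => f j (gg a' z)) (ball 0 1) := fun j =>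
    (hf j).comp (gg_holo ha'1) (gg_maps ha'1)
  have hFb : ∀ z ∈ ball (0 : EuclideanSpace ℂ (Fin (m + 1))) 1,
      δ ≤ ∑ j, ‖f j (gg a' z)‖ ^ 2 ∧ ∑ j, ‖f j (gg a' z)‖ ^ 2 ≤ 1 := fun z hz =>
    hb _ (gg_maps ha'1 hz)
  refine ⟨fun g hg hgs => ?_, fun hV => ?_, fun hV z hz => ?_⟩
  · have hsl : ∀ z : EuclideanSpace ℂ (Fin (m + 1)), a + (((ss a' : ℂ) •
        V.orthogonalProjectionOnto z - V.orthogonalProjectionOnto a : V) :
          EuclideanSpace ℂ (Fin (m + 1))) = gg a' (V.starProjection z) := by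
      intro z
      rw [gg_perp hP hPa', Submodule.coe_sub, Submodule.coe_smul, map_smul,
        ← Submodule.starProjection_apply, ← Submodule.starProjection_apply, ha']
      abel
    have hPz : ∀ z ∈ ball (0 : EuclideanSpace ℂ (Fin (m + 1))) 1, ‖V.starProjection z‖ < 1 :=
      fun z hz => lt_of_le_of_lt (norm_P_le hP z) (mem_ball_zero_iff.1 hz)
    have hmem : ∀ z ∈ ball (0 : EuclideanSpace ℂ (Fin (m + 1))) 1,
        ((ss a' : ℂ) • V.orthogonalProjectionOnto z - V.orthogonalProjectionOnto a : V) ∈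
          {v : V | ‖a + v‖ < 1} := by
      intro z hz
      show ‖a + _‖ < 1
      rw [hsl]
      exact gg_lt ha'1 (hPz z hz)
    obtain ⟨G, hG⟩ : ∃ G : Fin N → EuclideanSpace ℂ (Fin (m + 1)) → ℂ, G = fun j z =>
        g j ((ss a' : ℂ) • V.orthogonalProjectionOnto z - V.orthogonalProjectionOnto a) :=
      ⟨_, rfl⟩
    have hGP : ∀ j z, G j (V.starProjection z) = G j z := by
      intro j z
      rw [hG]
      simp only [orth_idem]
    have b1 : ∀ j, DifferentiableOn ℂ (fun z => G j (V.starProjection z)) (ball 0 1) := by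
      intro j
      simp only [hGP]
      rw [hG]
      refine (hg j).comp (f := fun z : EuclideanSpace ℂ (Fin (m + 1)) =>
        (ss a' : ℂ) • V.orthogonalProjectionOnto z - V.orthogonalProjectionOnto a) ?_ hmem
      exact (((((ss a' : ℝ) : ℂ) • V.orthogonalProjectionOnto).differentiable).sub_const
        (V.orthogonalProjectionOnto a)).differentiableOn
    have b2 : ∀ z ∈ ball (0 : EuclideanSpace ℂ (Fin (m + 1))) 1,
        ∑ j, f j (gg a' (V.starProjection z)) * G j (V.starProjection z) = 1 ∧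
        ∑ j, ‖G j (V.starProjection z)‖ ^ 2 ≤ A ^ 2 := by
      intro z hz
      have h5 := hgs _ (hmem z hz)
      rw [hsl] at h5
      simp only [hGP]
      rw [hG]
      exact ⟨h5.1, (Real.sqrt_le_left hA.le).1 h5.2⟩
    obtain ⟨H, a1, a2⟩ := h1 _ hF hFb V.starProjection hP G b1 b2
    obtain ⟨c1, c2⟩ := h3 f hf hf1 V a a' ha' ha'1 C1 hC1.le
      ((N + 1) * C1 * (1 + C3) + (N + 1) * C2 * (1 + C3) + C4) (by linarith) H a1
      (fun z hz => ⟨(a2 z hz).1, (a2 z hz).2.2⟩)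
    refine ⟨_, c1, fun v hv j => ?_⟩
    obtain ⟨y, y1, y2, y3⟩ := c2 v hv
    rw [y2]
    have h6 := (a2 (V.starProjection y) (mem_ball_zero_iff.2 y1)).2.1 j
    rw [hP.idem, hGP, hG] at h6
    rw [h6, ← y3]
  · obtain ⟨g, g1, g2⟩ := h0 _ hF hFb V hV
    obtain ⟨H, a1, a2⟩ := h2 _ hF hFb V.starProjection hP g g1 g2
    obtain ⟨c1, -⟩ := h3 f hf hf1 V a a' ha' ha'1 C2 hC2.le
      ((N + 1) * C1 * (1 + C3) + (N + 1) * C2 * (1 + C3) + C4) (by linarith) H a1
      (fun z hz => ⟨(a2 z hz).1, (a2 z hz).2.2⟩)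
    exact ⟨_, c1⟩
  · subst hV
    have h5 := h4 _ hν z (mem_ball_zero_iff.1 hz)
    have e : ((⊥ : Submodule ℂ (EuclideanSpace ℂ (Fin (m + 1)))).starProjection) = 0 := by
      ext1 x
      simp
    rw [← e, GI_eq, PP_energy] at h5
    have hE : 0 ≤ energy M f z := by
      rw [← PP_energy]
      exact PP_nonneg _ _ _
    exact h5.trans (mul_le_mul_of_nonneg_right (by linarith) hE)

end Pool.Agent.MPca0fc2SE
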