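import Mathlib
import Pool.Agent.Lib.MP_ca0fc2_an.Mg.G122

/-!
# Definitions of campaign XC (exceptional sets), MP_ca0fc2_an

`E` is a complex inner product space of dimension `m + 1`, `ball 0 1` its unit ball.
-/

set_option autoImplicit false

open Metric Set MeasureTheory Filter Topology
open scoped InnerProductSpace ENNReal ContDiff

namespace Pool.Agent.MPca0fc2.XC

open Pool.Agent.MPca0fc2.PT
open Pool.Agent.MPca0fc2.QT
open Pool.Agent.MPca0fc2.TS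
open Pool.Agent.MPca0fc2.TE

variable {E : Type*} [NormedAddCommGroup E] [InnerProductSpace ℂ E]

/-- the union of the Koranyi regions of aperture `R` with vertex in `K` -/
def kor (K : Set E) (R : ℝ) : Set E :=
  {z | ‖z‖ < 1 ∧ ∃ ζ ∈ K, ‖1 - ⟪z, ζ⟫_ℂ‖ ≤ R * (1 - ‖z‖ ^ 2)}

/-- holomorphic solutions -/
structure Sol {N : ℕ} (f h : Fin N → E → ℂ) : Prop where
  holo : ∀ j, DifferentiableOn ℂ (h j) (ball 0 1)
  sol : ∀ z ∈ ball (0 : E) 1, ∑ j, f j z * h j z = 1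
  gr : ∃ C : ℝ, ∀ z ∈ ball (0 : E) 1, ∀ j, ‖h j z‖ ≤ C * (1 - ‖z‖ ^ 2) ^ (-(1 / 8) : ℝ)

/-- bounded on the union of the Koranyi regions of every aperture with vertex in `K` -/
def KBd {N : ℕ} (K : Set E) (h : Fin N → E → ℂ) : Prop :=
  ∀ R : ℝ, ∃ C : ℝ, ∀ z ∈ kor K R, ∀ j, ‖h j z‖ ≤ C

section meas

variable [MeasurableSpace E]

/-- the measure with density `A (1 - |x|²)^(17/4)` on `U ∩ ball 0 1` -/
noncomputable def nuX (μ : Measure E) (A : ℝ) (U : Set E) : Measure E :=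
  (μ.restrict (ball 0 1 ∩ U)).withDensity
    fun x => ENNReal.ofReal (A * ((1 - ‖x‖ ^ 2) ^ 4 * (1 - ‖x‖ ^ 2) ^ (1 / 4 : ℝ)))

end meas

end Pool.Agent.MPca0fc2.XC
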