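import Mathlib
import Pool.Agent.Lib.MP_ca0fc2_an.XC.Defs


set_option autoImplicit false
set_option linter.unusedSectionVars false

open Metric Set MeasureTheory Filter Topology
open scoped InnerProductSpace ENNReal ContDiff

namespace Pool.Agent.MPca0fc2.XC

open Pool.Agent.MPca0fc2.PT
open Pool.Agent.MPca0fc2.QT
open Pool.Agent.MPca0fc2.TS
open Pool.Agent.MPca0fc2.TE

variable {E : Type*} [NormedAddCommGroup E] [InnerProductSpace ℂ E]

private lemma X1_deriv_bound :
    ∃ M : ℝ, 0 ≤ M ∧ ∀ x : ℝ, ‖deriv Real.smoothTransition x‖ ≤ M := by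
  have hc : Continuous (deriv Real.smoothTransition) :=
    (Real.smoothTransition.contDiff (n := 1)).continuous_deriv le_rfl
  obtain ⟨M, hM⟩ := (isCompact_Icc (a := (0 : ℝ)) (b := 1)).exists_bound_of_continuousOn
    hc.continuousOn
  have hM0 : 0 ≤ M := (norm_nonneg _).trans (hM 0 ⟨le_rfl, zero_le_one⟩)
  refine ⟨M, hM0, fun x => ?_⟩
  by_cases h0 : x < 0
  · have : Real.smoothTransition =ᶠ[𝓝 x] fun _ => (0 : ℝ) := by
      filter_upwards [Iio_mem_nhds h0] with y hy
      exact Real.smoothTransition.zero_of_nonpos (le_of_lt hy)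
    rw [this.deriv_eq]
    simpa using hM0
  by_cases h1 : 1 < x
  · have : Real.smoothTransition =ᶠ[𝓝 x] fun _ => (1 : ℝ) := by
      filter_upwards [Ioi_mem_nhds h1] with y hy
      exact Real.smoothTransition.one_of_one_le (le_of_lt hy)
    rw [this.deriv_eq]
    simpa using hM0
  · exact hM x ⟨not_lt.mp h0, not_lt.mp h1⟩

/-- mollification of the distance function -/
private lemma X1_moll [FiniteDimensional ℂ E] (K : Set E) (r : ℝ) (hr : 0 < r) :
    ∃ d' : E → ℝ, ContDiff ℝ 2 d' ∧ (∀ x, |d' x - infDist x K| ≤ r / 8) ∧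
      ∀ x, ‖fderiv ℝ d' x‖ ≤ 1 := by
  let _ : MeasurableSpace E := borel E
  have _ : BorelSpace E := ⟨rfl⟩
  have _ : FiniteDimensional ℝ E := FiniteDimensional.complexToReal E
  let μ : Measure E := MeasureTheory.Measure.addHaar
  let φ : ContDiffBump (0 : E) := ⟨r / 16, r / 8, by positivity, by linarith⟩
  let d : E → ℝ := fun x => infDist x K
  have hdL : LipschitzWith 1 d := lipschitz_infDist_pt K
  have hdc : Continuous d := hdL.continuous
  have hdabs : ∀ x y, |d x - d y| ≤ dist x y := by
    intro x y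
    have := hdL.dist_le_mul x y
    simpa [Real.dist_eq] using this
  let L : ℝ →L[ℝ] ℝ →L[ℝ] ℝ := ContinuousLinearMap.lsmul ℝ ℝ
  let d' : E → ℝ := MeasureTheory.convolution (φ.normed μ) d L μ
  have hsupp : HasCompactSupport (φ.normed μ) := φ.hasCompactSupport_normed
  have hcd : ContDiff ℝ 2 (φ.normed μ) := φ.contDiff_normed
  have hint : ∀ x, Integrable (fun t => L (φ.normed μ t) (d (x - t))) μ := by
    intro x
    exact (hsupp.convolutionExists_left L hcd.continuous hdc.locallyIntegrable x)
  have h1 : ContDiff ℝ 2 d' :=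
    hsupp.contDiff_convolution_left L hcd hdc.locallyIntegrable
  have h2 : ∀ x, |d' x - d x| ≤ r / 8 := by
    intro x
    have := φ.dist_normed_convolution_le (μ := μ) (g := d) (x₀ := x) (ε := r / 8)
      hdc.aestronglyMeasurable (by
        intro y hy
        rw [Real.dist_eq]
        refine (hdabs y x).trans ?_
        exact (le_of_lt (mem_ball.mp hy)))
    rwa [Real.dist_eq] at this
  have hLip : ∀ x y, |d' x - d' y| ≤ dist x y := by
    intro x y
    have e : d' x - d' y = ∫ t, (L (φ.normed μ t) (d (x - t)) - L (φ.normed μ t) (d (y - t))) ∂μ := by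
      rw [integral_sub (hint x) (hint y)]
      rfl
    rw [e, ← Real.norm_eq_abs]
    have hi : Integrable (fun t => φ.normed μ t * dist x y) μ :=
      φ.integrable_normed.mul_const _
    calc ‖∫ t, (L (φ.normed μ t) (d (x - t)) - L (φ.normed μ t) (d (y - t))) ∂μ‖
        ≤ ∫ t, φ.normed μ t * dist x y ∂μ := by
          refine norm_integral_le_of_norm_le hi (Eventually.of_forall fun t => ?_)
          have e2 : L (φ.normed μ t) (d (x - t)) - L (φ.normed μ t) (d (y - t))
              = φ.normed μ t * (d (x - t) - d (y - t)) := by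
            simp [L, mul_sub]
          rw [e2, norm_mul, Real.norm_of_nonneg (φ.nonneg_normed t)]
          refine mul_le_mul_of_nonneg_left ?_ (φ.nonneg_normed t)
          rw [Real.norm_eq_abs]
          refine (hdabs _ _).trans ?_
          simp
      _ = dist x y := by
          rw [integral_mul_const, φ.integral_normed, one_mul]
  have h3 : ∀ x, ‖fderiv ℝ d' x‖ ≤ 1 := by
    intro x
    have hl : LipschitzWith 1 d' := LipschitzWith.of_dist_le_mul (by
      intro a b
      simpa [Real.dist_eq] using hLip a b)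
    simpa using norm_fderiv_le_of_lipschitz ℝ hl (x₀ := x)
  exact ⟨d', h1, h2, h3⟩

/-- Smooth cut-off functions with a gradient bound. The constant `C` does not depend on `K`, `r`.
Proof. `d x = infDist x K` is `1`-Lipschitz. Mollify: `φ : ContDiffBump (0 : E)` with radii `r/16`,
`r/8`, `d' = φ.normed μ ⋆ d` (convolution, `μ` = any additive Haar measure, e.g. `MeasureTheory.Measure.addHaar` on `E`
seen as a real vector space); `d'` is smooth (`HasCompactSupport.contDiff_convolution_left`),
`|d' - d| ≤ r/8` (`ContDiffBump.dist_normed_convolution_le`), and `d'` is `1`-Lipschitz (the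
convolution with a probability density of a `1`-Lipschitz function). Let
`χ x = Real.smoothTransition ((15/8 - d' x / r) * (4/3))`: it is `1` if `d' x ≤ 9 r/8` and `0` if
`15 r/8 ≤ d' x`. `Real.smoothTransition` is smooth and constant outside of `[0,1]`, so its
derivative is bounded by some constant (compactness of `[0,1]`), and the chain rule gives the gradient bound. -/
theorem cutoff [FiniteDimensional ℂ E] : ∃ C : ℝ, 0 < C ∧ ∀ K : Set E, K.Nonempty →
    ∀ r : ℝ, 0 < r → ∃ χ : E → ℝ, ContDiff ℝ 2 χ ∧ (∀ x, 0 ≤ χ x ∧ χ x ≤ 1) ∧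
      (∀ x, infDist x K ≤ r → χ x = 1) ∧ (∀ x, 2 * r ≤ infDist x K → χ x = 0) ∧
      ∀ x, ‖fderiv ℝ χ x‖ ≤ C / r := by
  obtain ⟨M, hM0, hM⟩ := X1_deriv_bound
  refine ⟨(M + 1) * (4 / 3), by positivity, ?_⟩
  intro K _ r hr
  obtain ⟨d', hd1, hd2, hd3⟩ := X1_moll K r hr
  have hgc : ContDiff ℝ 2 (fun x => (15 / 8 - d' x / r) * (4 / 3)) :=
    (contDiff_const.sub (hd1.div_const r)).mul contDiff_const
  refine ⟨fun x => Real.smoothTransition ((15 / 8 - d' x / r) * (4 / 3)), ?_, ?_, ?_, ?_, ?_⟩
  · exact (Real.smoothTransition.contDiff (n := 2)).comp hgc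
  · exact fun x => ⟨Real.smoothTransition.nonneg _, Real.smoothTransition.le_one _⟩
  · intro x hx
    apply Real.smoothTransition.one_of_one_le
    have h := (abs_le.mp (hd2 x)).2
    have h' : d' x ≤ 9 / 8 * r := by linarith
    have h'' : d' x / r ≤ 9 / 8 := by rwa [div_le_iff₀ hr]
    linarith
  · intro x hx
    apply Real.smoothTransition.zero_of_nonpos
    have h := (abs_le.mp (hd2 x)).1
    have h' : 15 / 8 * r ≤ d' x := by linarith
    have h'' : 15 / 8 ≤ d' x / r := by rwa [le_div_iff₀ hr]
    linarith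
  · intro x
    have hdd : HasFDerivAt d' (fderiv ℝ d' x) x :=
      ((hd1.differentiable (by norm_num)) x).hasFDerivAt
    have hg : HasFDerivAt (fun x => (15 / 8 - d' x / r) * (4 / 3))
        ((-(4 / 3 / r)) • fderiv ℝ d' x) x := by
      have h0 : HasFDerivAt (fun x => (-(4 / 3 / r)) • d' x)
          ((-(4 / 3 / r)) • fderiv ℝ d' x) x := hdd.const_smul (-(4 / 3 / r))
      have h1 : HasFDerivAt (fun x => (5 / 2 : ℝ) + (-(4 / 3 / r)) • d' x)
          ((-(4 / 3 / r)) • fderiv ℝ d' x) x := h0.const_add (5 / 2 : ℝ)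
      have e : (fun x => (15 / 8 - d' x / r) * (4 / 3))
          = (fun x => (5 / 2 : ℝ) + (-(4 / 3 / r)) • d' x) := by
        funext y
        simp only [smul_eq_mul]
        field_simp
        ring
      rw [e]
      exact h1
    have hs : HasDerivAt Real.smoothTransition
        (deriv Real.smoothTransition ((15 / 8 - d' x / r) * (4 / 3)))
        ((15 / 8 - d' x / r) * (4 / 3)) :=
      (((Real.smoothTransition.contDiff (n := 1)).differentiable (by norm_num)) _).hasDerivAt
    have hc := hs.comp_hasFDerivAt x hg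
    have hc' : fderiv ℝ (fun x => Real.smoothTransition ((15 / 8 - d' x / r) * (4 / 3))) x
        = (deriv Real.smoothTransition ((15 / 8 - d' x / r) * (4 / 3))) •
          ((-(4 / 3 / r)) • fderiv ℝ d' x) := hc.fderiv
    rw [hc', norm_smul, norm_smul]
    have h5 : ‖-(4 / 3 / r)‖ = 4 / 3 / r := by
      rw [norm_neg, Real.norm_of_nonneg (by positivity)]
    rw [h5]
    have hpos : 0 ≤ 4 / 3 / r := by positivity
    calc ‖deriv Real.smoothTransition ((15 / 8 - d' x / r) * (4 / 3))‖ *
          (4 / 3 / r * ‖fderiv ℝ d' x‖)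
        ≤ (M + 1) * (4 / 3 / r * 1) := by
          refine mul_le_mul ((hM _).trans (by linarith)) ?_ (by positivity) (by positivity)
          exact mul_le_mul_of_nonneg_left (hd3 x) hpos
      _ = (M + 1) * (4 / 3) / r := by ring

end Pool.Agent.MPca0fc2.XC
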