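import Mathlib
import Pool.Agent.Lib.MP_ca0fc2_an.XC.Defs
import Pool.Agent.Lib.MP_ca0fc2_an.TS.Zero
import Pool.Agent.Lib.MP_ca0fc2_an.Mg.G017
import Pool.Agent.Lib.MP_ca0fc2_an.Mg.G016

set_option autoImplicit false
set_option linter.unusedSectionVars false

open Metric Set MeasureTheory Filter Topology
open scoped InnerProductSpace ENNReal ContDiff

namespace Pool.Agent.MPca0fc2.XC

open Pool.Agent.MPca0fc2.PT
open Pool.Agent.MPca0fc2.QT
open Pool.Agent.MPca0fc2.TS
open Pool.Agent.MPca0fc2.TE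

variable {E : Type*} [NormedAddCommGroup E] [InnerProductSpace ℂ E]

variable {V : Type*} [NormedAddCommGroup V] [NormedSpace ℂ V]

/-- the real linear map from the derivative to its conjugate linear part -/
private noncomputable def X8_lam : (E →L[ℝ] V) →L[ℝ] (E →L[ℝ] V) :=
  (2⁻¹ : ℂ) • (ContinuousLinearMap.id ℝ (E →L[ℝ] V) +
    Complex.I • (ContinuousLinearMap.compL ℝ E E V).flip (jI E))

private theorem X8_lam_apply (A : E →L[ℝ] V) (v : E) :
    X8_lam A v = (2⁻¹ : ℂ) • (A v + Complex.I • A (Complex.I • v)) := rfl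

private theorem X8_D01 (N : E → V) :
    D01 N = fun w => (X8_lam (E := E) (V := V)) (fderiv ℝ N w) := by
  funext y
  ext v
  rw [D01_apply, X8_lam_apply]

/-- a linear map as a form of degree `1` -/
private noncomputable def X8_A (E : Type*) [NormedAddCommGroup E] [InnerProductSpace ℂ E]
    (V : Type*) [NormedAddCommGroup V] [NormedSpace ℂ V] :
    (E →L[ℝ] V) →L[ℝ] (E [⋀^Fin 1]→L[ℝ] V) :=
  (ContinuousAlternatingMap.alternatizeUncurryFinCLM ℝ E V).comp
    (ContinuousLinearMap.compL ℝ E V (E [⋀^Fin 0]→L[ℝ] V) (cstL E V))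

private theorem X8_A_apply (L : E →L[ℝ] V) (v : Fin 1 → E) : X8_A E V L v = L (v 0) := by
  rw [X8_A, ContinuousLinearMap.comp_apply,
    ContinuousAlternatingMap.alternatizeUncurryFinCLM_apply,
    ContinuousAlternatingMap.alternatizeUncurryFin_apply, Fin.sum_univ_one]
  have e2 : ((-1 : ℤ)) ^ (((0 : Fin (0 + 1))) : ℕ) = 1 := by simp
  rw [e2, one_smul]
  rfl

private theorem X8_eq {N : E → V} {w : E} (hN : DifferentiableAt ℝ N w) :
    db (fun w => cst E (N w)) w = X8_A E V (X8_lam (fderiv ℝ N w)) := by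
  ext v
  rw [db_cst hN, X8_A_apply, X8_D01 N]

private theorem X8_c1 {N : E → V} {U : Set E} (hU : IsOpen U) (hN : ContDiffOn ℝ 2 N U) :
    ContDiffOn ℝ 1 (db (fun w => cst E (N w))) U := by
  have h1 : ContDiffOn ℝ 1 (fun w => fderiv ℝ N w) U :=
    hN.fderiv_of_isOpen hU (by norm_num)
  have h2 : ContDiffOn ℝ 1 (fun w => X8_lam (E := E) (V := V) (fderiv ℝ N w)) U :=
    (X8_lam (E := E) (V := V)).contDiff.comp_contDiffOn h1
  have h3 : ContDiffOn ℝ 1
      (fun w => X8_A E V (X8_lam (E := E) (V := V) (fderiv ℝ N w))) U :=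
    (X8_A E V).contDiff.comp_contDiffOn h2
  refine h3.congr fun w hw => ?_
  exact X8_eq ((hN.contDiffAt (hU.mem_nhds hw)).differentiableAt (by norm_num))

private theorem X8_closed {N : E → V} {U : Set E} (hU : IsOpen U) (hN : ContDiffOn ℝ 2 N U)
    {w : E} (hw : w ∈ U) : db (db (fun w => cst E (N w))) w = 0 := by
  have hNw : ContDiffAt ℝ 2 N w := hN.contDiffAt (hU.mem_nhds hw)
  set DD : E →L[ℝ] E →L[ℝ] V := fderiv ℝ (fderiv ℝ N) w with hDD
  have hsym : ∀ x y, DD x y = DD y x := by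
    intro x y
    exact (hNw.isSymmSndFDerivAt (by simp)) x y
  have h1 : ContDiffAt ℝ 1 (fderiv ℝ N) w := hNw.fderiv_right (by norm_num)
  have h2 : HasFDerivAt (fderiv ℝ N) DD w := (h1.differentiableAt (by norm_num)).hasFDerivAt
  have h3 : HasFDerivAt (fun y => X8_A E V (X8_lam (E := E) (V := V) (fderiv ℝ N y)))
      ((X8_A E V).comp ((X8_lam (E := E) (V := V)).comp DD)) w :=
    (X8_A E V).hasFDerivAt.comp w ((X8_lam (E := E) (V := V)).hasFDerivAt.comp w h2)
  have hev : db (fun w => cst E (N w)) =ᶠ[𝓝 w]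
      fun y => X8_A E V (X8_lam (E := E) (V := V) (fderiv ℝ N y)) := by
    filter_upwards [hU.mem_nhds hw] with y hy
    exact X8_eq ((hN.contDiffAt (hU.mem_nhds hy)).differentiableAt (by norm_num))
  have h4 : fderiv ℝ (db (fun w => cst E (N w))) w =
      (X8_A E V).comp ((X8_lam (E := E) (V := V)).comp DD) := by
    rw [hev.fderiv_eq]
    exact h3.fderiv
  have hd : ∀ (v : E) (x : Fin 1 → E), d1 (db (fun w => cst E (N w))) w v x =
      (2⁻¹ : ℂ) • (2⁻¹ : ℂ) • ((DD v (x 0) + Complex.I • DD v (Complex.I • x 0)) +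
        Complex.I • (DD (Complex.I • v) (x 0) +
          Complex.I • DD (Complex.I • v) (Complex.I • x 0))) := by
    intro v x
    rw [d1_apply, h4, ContinuousLinearMap.comp_apply, ContinuousLinearMap.comp_apply,
      X8_A_apply, X8_lam_apply, ContinuousLinearMap.comp_apply, ContinuousLinearMap.comp_apply,
      X8_A_apply, X8_lam_apply, smul_comm Complex.I (2⁻¹ : ℂ), ← smul_add]
  ext x
  unfold db
  rw [ContinuousAlternatingMap.alternatizeUncurryFin_apply, Fin.sum_univ_two]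
  have e0 : ((-1 : ℤ)) ^ (((0 : Fin (1 + 1))) : ℕ) = 1 := by simp
  have e1 : ((-1 : ℤ)) ^ (((1 : Fin (1 + 1))) : ℕ) = -1 := by simp
  rw [e0, e1, one_smul, neg_one_smul]
  have k0 := hd (x 0) ((0 : Fin (1 + 1)).removeNth x)
  have k1 := hd (x 1) ((1 : Fin (1 + 1)).removeNth x)
  have r0 : (0 : Fin (1 + 1)).removeNth x 0 = x 1 := rfl
  have r1 : (1 : Fin (1 + 1)).removeNth x 0 = x 0 := rfl
  rw [r0] at k0
  rw [r1] at k1
  unfold db at k0 k1
  rw [k0, k1, hsym (x 1) (x 0), hsym (Complex.I • x 1) (x 0), hsym (x 1) (Complex.I • x 0),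
    hsym (Complex.I • x 1) (Complex.I • x 0)]
  have hz : (0 : E [⋀^Fin (0 + 1 + 1)]→L[ℝ] V) x = 0 := rfl
  rw [hz, ← sub_eq_add_neg, sub_eq_zero]
  congr 2
  simp only [smul_add]
  abel

/-- The form `∂̄ N` of a function of class `C²`: `η = db (fun w => cst E (N w))`. `db_cst` (TS/Zero.lean)
gives the value; `Anti.db` (QTAn2.lean) with `Anti.deg_zero`; closed: expand `db η w v` (two terms,
`ContinuousAlternatingMap.alternatizeUncurryFin_apply`, `d1_apply`), the derivative of `w ↦ η w (fun _ => u) = D01 N w u` and the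
symmetry of the second derivative (see the proof of `db_wd`, QTFdb.lean, and
`ContDiffAt.isSymmSndFDerivAt`). Alternative for closed: a Koszul form, `db_Pw` (QTKd.lean). -/
theorem dbar_form {N : E → V} {U : Set E} (hU : IsOpen U) (hN : ContDiffOn ℝ 2 N U) :
    ContDiffOn ℝ 1 (db (fun w => cst E (N w))) U ∧
      (∀ w ∈ U, Anti (db (fun w => cst E (N w)) w)) ∧
      (∀ w ∈ U, db (db (fun w => cst E (N w))) w = 0) ∧
      ∀ w ∈ U, ∀ v : Fin 1 → E, db (fun w => cst E (N w)) w v = D01 N w (v 0) := by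
  have hd : ∀ w ∈ U, DifferentiableAt ℝ N w := fun w hw =>
    (hN.contDiffAt (hU.mem_nhds hw)).differentiableAt (by norm_num)
  refine ⟨X8_c1 hU hN, fun w hw => ?_, fun w hw => X8_closed hU hN hw, fun w hw v => ?_⟩
  · refine Anti.db ?_ (Filter.Eventually.of_forall fun x => Anti.deg_zero _)
    exact (cstL E V).differentiableAt.comp w (hd w hw)
  · exact db_cst (hd w hw) v

end Pool.Agent.MPca0fc2.XC
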