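import Mathlib
import Pool.Agent.Lib.MP_ca0fc2_an.XC.Defs
import Pool.Agent.Lib.MP_ca0fc2_an.TS.Th

set_option autoImplicit false
set_option linter.unusedSectionVars false

open Metric Set MeasureTheory Filter Topology
open scoped InnerProductSpace ENNReal ContDiff

namespace Pool.Agent.MPca0fc2.XC

open Pool.Agent.MPca0fc2.PT
open Pool.Agent.MPca0fc2.QT
open Pool.Agent.MPca0fc2.TS
open Pool.Agent.MPca0fc2.TE

variable {E : Type*} [NormedAddCommGroup E] [InnerProductSpace ℂ E]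

/-- Ultrafilter limits of locally bounded sequences of holomorphic functions. Pattern: the proof of
`TE.limitE` (TE/L1.lean): `Ultrafilter.of atTop`, `SL.ultra_holo`. -/
theorem ultra_lim [FiniteDimensional ℂ E] {G : ℕ → E → ℂ}
    (hG : ∀ k, DifferentiableOn ℂ (G k) (ball 0 1))
    (hb : ∀ r : ℝ, r < 1 → ∃ M : ℝ, ∀ k, ∀ z : E, ‖z‖ ≤ r → ‖G k z‖ ≤ M) :
    ∃ (𝒰 : Ultrafilter ℕ) (g : E → ℂ), (𝒰 : Filter ℕ) ≤ atTop ∧
      DifferentiableOn ℂ g (ball 0 1) ∧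
      ∀ z ∈ ball (0 : E) 1, Tendsto (fun k => G k z) 𝒰 (𝓝 (g z)) := by
  obtain ⟨𝒰, h𝒰⟩ : ∃ 𝒰 : Ultrafilter ℕ, (𝒰 : Filter ℕ) ≤ atTop := ⟨Ultrafilter.of atTop, Ultrafilter.of_le atTop⟩
  have key : ∀ r : ℝ, r < 1 → ∃ g : E → ℂ, DifferentiableOn ℂ g (ball 0 r) ∧
      ∀ z ∈ ball (0 : E) r, Tendsto (fun k => G k z) 𝒰 (𝓝 (g z)) := by
    intro r hr
    obtain ⟨M, hM⟩ := hb r hr
    obtain ⟨g, h1, -, h3⟩ := SL.ultra_holo 𝒰 (G := G) (U := ball (0 : E) r) isOpen_ball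
      (le_max_right M 0) (fun k => (hG k).mono (ball_subset_ball hr.le))
      (fun k z hz => (hM k z (mem_ball_zero_iff.1 hz).le).trans (le_max_left M 0))
    exact ⟨g, h1, h3⟩
  refine ⟨𝒰, fun z => limUnder (𝒰 : Filter ℕ) (fun k => G k z), h𝒰, ?_, ?_⟩
  · intro z hz
    have hz1 := mem_ball_zero_iff.1 hz
    obtain ⟨g, h1, h2⟩ := key ((1 + ‖z‖) / 2) (by linarith)
    have hzr : z ∈ ball (0 : E) ((1 + ‖z‖) / 2) := mem_ball_zero_iff.2 (by linarith)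
    have hd : DifferentiableAt ℂ g z := (h1 z hzr).differentiableAt (isOpen_ball.mem_nhds hzr)
    have he : (fun z => limUnder (𝒰 : Filter ℕ) (fun k => G k z)) =ᶠ[𝓝 z] g := by
      filter_upwards [isOpen_ball.mem_nhds hzr] with w hw
      exact (h2 w hw).limUnder_eq
    exact (hd.congr_of_eventuallyEq he).differentiableWithinAt
  · intro z hz
    have hz1 := mem_ball_zero_iff.1 hz
    obtain ⟨g, -, h2⟩ := key ((1 + ‖z‖) / 2) (by linarith)
    have hzr : z ∈ ball (0 : E) ((1 + ‖z‖) / 2) := mem_ball_zero_iff.2 (by linarith)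
    have h3 := h2 z hzr
    show Tendsto (fun k => G k z) 𝒰 (𝓝 (limUnder (𝒰 : Filter ℕ) (fun k => G k z)))
    rw [h3.limUnder_eq]
    exact h3

end Pool.Agent.MPca0fc2.XC
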