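import Mathlib
import Pool.Agent.Lib.MP_ca0fc2_an.XC.Defs
import Pool.Agent.Lib.MP_ca0fc2_an.TE.Osc
import Pool.Agent.Lib.MP_ca0fc2_an.TE.G6
import Pool.Agent.Lib.MP_ca0fc2_an.XC.X7
import Pool.Agent.Lib.MP_ca0fc2_an.XC.X8
import Pool.Agent.Lib.MP_ca0fc2_an.XC.X8b

set_option autoImplicit false
set_option linter.unusedSectionVars false

open Metric Set MeasureTheory Filter Topology
open scoped InnerProductSpace ENNReal ContDiff

namespace Pool.Agent.MPca0fc2.XC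

open Pool.Agent.MPca0fc2.PT
open Pool.Agent.MPca0fc2.QT
open Pool.Agent.MPca0fc2.TS
open Pool.Agent.MPca0fc2.TE

section aux

variable {E : Type*} [NormedAddCommGroup E] [InnerProductSpace ℂ E]

private theorem X9_D01 (r : ℝ) {N : E → ℂ} {w : E} (hN : DifferentiableAt ℝ N ((r : ℂ) • w))
    (v : E) : D01 (fun w => N ((r : ℂ) • w)) w v = D01 N ((r : ℂ) • w) ((r : ℂ) • v) := by
  obtain ⟨L, hL⟩ : ∃ L : E →L[ℝ] E, L = ((r : ℂ) • ContinuousLinearMap.id ℂ E).restrictScalars ℝ :=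
    ⟨_, rfl⟩
  have hLa : ∀ x, L x = (r : ℂ) • x := fun x => by rw [hL]; rfl
  have h1 : HasFDerivAt (fun w => N ((r : ℂ) • w)) ((fderiv ℝ N ((r : ℂ) • w)).comp L) w := by
    have h2 : HasFDerivAt (fun w : E => (r : ℂ) • w) L w := by
      have h3 : HasFDerivAt (fun w : E => L w) L w := L.hasFDerivAt
      have e : (fun w : E => L w) = fun w : E => (r : ℂ) • w := funext hLa
      rw [e] at h3
      exact h3
    exact hN.hasFDerivAt.comp w h2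
  rw [D01_apply, h1.fderiv, D01_apply]
  simp only [ContinuousLinearMap.comp_apply, hLa]
  rw [smul_comm (r : ℂ) Complex.I v]

private theorem X9_gau {r : ℝ} (hr0 : 0 ≤ r) (hr1 : r ≤ 1) {d : ℝ} (hd : 0 < d) (w v : E) :
    gau d ((r : ℂ) • w) ((r : ℂ) • v) ≤ gau d w v := by
  unfold gau
  have e1 : ‖⟪(r : ℂ) • w, (r : ℂ) • v⟫_ℂ‖ = r ^ 2 * ‖⟪w, v⟫_ℂ‖ := by
    rw [inner_smul_left, inner_smul_right, Complex.conj_ofReal, norm_mul, norm_mul,
      Complex.norm_real, Real.norm_eq_abs, abs_of_nonneg hr0]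
    ring
  have e2 : ‖(r : ℂ) • v‖ = r * ‖v‖ := by
    rw [norm_smul, Complex.norm_real, Real.norm_eq_abs, abs_of_nonneg hr0]
  rw [e1, e2]
  have h1 : r ^ 2 * ‖⟪w, v⟫_ℂ‖ ≤ ‖⟪w, v⟫_ℂ‖ := by
    have : r ^ 2 ≤ 1 := by nlinarith
    exact mul_le_of_le_one_left (norm_nonneg _) this
  have h2 : r * ‖v‖ ≤ ‖v‖ := mul_le_of_le_one_left (norm_nonneg _) hr1
  have h3 : 0 < Real.sqrt d := Real.sqrt_pos.2 hd
  exact add_le_add (div_le_div_of_nonneg_right h1 hd.le) (div_le_div_of_nonneg_right h2 h3.le)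

end aux

variable {E : Type*} [NormedAddCommGroup E] [InnerProductSpace ℂ E]

variable [FiniteDimensional ℂ E] [MeasurableSpace E] [BorelSpace E]

/-- One level of the scalar `∂̄` problem. Pattern: `TE.levelE` (TE/B6.lean). Let
`n w = N (rt θ k • w)` on `U = ball 0 (1 + 3 θ^(k+1)/8)` (there `‖rt θ k • w‖ < 1`), `η = db (fun w => cst E (n w))`
(`dbar_form`); the chain rule and `gau (1 - ‖r w‖²) (r w) v ≤ gau (dl θ k w) w v` (`r = rt θ k ∈ [0, 1]`, `dl θ k w = 1 - r²‖w‖²`) give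
`BdG θ k (1 + θ^(k+1)/4) (fun w => B * Wk ν M θ k w) η` (`Wk_eq`); `osc0` with `c₀ = θ/4`, `V = ℂ` gives `S`;
`G w = n w - S w + S 0` is holomorphic (`D01 G = 0`, `holo_of_D01`) and `‖G w - n w‖ = ‖S w - S 0‖`, `path_osc2` with `P = 0`. -/
theorem scalar_level (μ : Measure E) [μ.IsAddHaarMeasure] {m : ℕ} (hm : 1 ≤ m)
    (hdim : Module.finrank ℂ E = m + 1) {θ : ℝ} (h0 : 0 < θ) (h1 : θ < 1) (M : ℕ) :
    ∃ C : ℝ, 0 < C ∧ ∀ ν : Measure E, OnB ν → ∀ (B : ℝ), 0 ≤ B → ∀ N : E → ℂ,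
      ContDiffOn ℝ 2 N (ball 0 1) →
      (∀ z ∈ ball (0 : E) 1, ∀ v, ‖D01 N z v‖ ≤ B * Om ν M z * gau (1 - ‖z‖ ^ 2) z v) →
      ∀ k : ℕ, 1 ≤ k → ∃ G : E → ℂ, DifferentiableOn ℂ G (ball 0 1) ∧
        ∀ z ∈ ball (0 : E) 1, ‖G z - N ((rt θ k : ℂ) • z)‖ ≤
          C * B * (Wk ν M θ k z + GI (Wk ν M θ k) 0 z) := by
  obtain ⟨C₂, hC₂, hO⟩ := osc0 (V := ℂ) μ hm hdim h0 h1 M (c₀ := θ / 4) (by positivity)
  refine ⟨C₂ * (6 * 2 ^ (M + 2)), by positivity, ?_⟩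
  intro ν hν B hB N hN hNd k hk
  have hθk : 0 < θ ^ (k + 1) := pow_pos h0 _
  have hR₁ : 1 + 3 * θ ^ (k + 1) / 8 ≤ RC θ k := by unfold RC; linarith
  have hR₂ : 1 + θ ^ (k + 1) / 4 ≤ RC θ k := by unfold RC; linarith
  have hr0 : 0 ≤ rt θ k := rt_nonneg h0 h1 k
  have hr1 : rt θ k ≤ 1 := by
    unfold rt
    have := pow_pos h0 k
    linarith
  have hmem : ∀ w ∈ ball (0 : E) (1 + 3 * θ ^ (k + 1) / 8), (rt θ k : ℂ) • w ∈ ball (0 : E) 1 :=
    fun w hw => rt_smul_mem h0 h1 (by omega) (lt_of_lt_of_le (mem_ball_zero_iff.mp hw) hR₁)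
  have hnorm : ∀ w : E, 1 - ‖(rt θ k : ℂ) • w‖ ^ 2 = dl θ k w := by
    intro w
    rw [norm_smul, Complex.norm_real, mul_pow, Real.norm_eq_abs, sq_abs]
    rfl
  have hdl : ∀ w ∈ ball (0 : E) (1 + 3 * θ ^ (k + 1) / 8), 0 < dl θ k w := by
    intro w hw
    have h2 := mem_ball_zero_iff.mp (hmem w hw)
    rw [← hnorm w]
    nlinarith [norm_nonneg ((rt θ k : ℂ) • w)]
  obtain ⟨n, hn⟩ : ∃ n : E → ℂ, n = fun w => N ((rt θ k : ℂ) • w) := ⟨_, rfl⟩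
  have hNdiff : ∀ w ∈ ball (0 : E) (1 + 3 * θ ^ (k + 1) / 8),
      DifferentiableAt ℝ N ((rt θ k : ℂ) • w) := fun w hw =>
    (hN.contDiffAt (isOpen_ball.mem_nhds (hmem w hw))).differentiableAt (by norm_num)
  have hnc : ContDiffOn ℝ 2 n (ball 0 (1 + 3 * θ ^ (k + 1) / 8)) := by
    rw [hn]
    have h2 : ContDiff ℝ 2 (fun w : E => (rt θ k : ℂ) • w) := contDiff_const.smul contDiff_id
    exact hN.comp h2.contDiffOn hmem
  obtain ⟨hηc, hηa, hηd, hηv⟩ := dbar_form (V := ℂ) isOpen_ball hnc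
  obtain ⟨η, hη⟩ : ∃ η : E → E [⋀^Fin 1]→L[ℝ] ℂ, η = db (fun w => cst E (n w)) := ⟨_, rfl⟩
  rw [← hη] at hηc hηa hηd hηv
  have hsub : ∀ w : E, ‖w‖ < 1 + θ ^ (k + 1) / 4 → w ∈ ball (0 : E) (1 + 3 * θ ^ (k + 1) / 8) :=
    fun w hw => mem_ball_zero_iff.mpr (by linarith)
  have hηb : BdG θ k (1 + θ ^ (k + 1) / 4) (fun w => B * Wk ν M θ k w) η := by
    intro w hw v
    have hw' := hsub w hw
    rw [hηv w hw' v, Fin.prod_univ_one, hn, X9_D01 (rt θ k) (hNdiff w hw') (v 0)]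
    refine (hNd _ (hmem w hw') _).trans ?_
    rw [hnorm w, ← Wk_eq]
    have hW : 0 ≤ Wk ν M θ k w := by
      rw [Wk_eq]
      exact Om_nonneg (mem_ball_zero_iff.mp (hmem w hw'))
    exact mul_le_mul_of_nonneg_left (X9_gau hr0 hr1 (hdl w hw') w (v 0)) (mul_nonneg hB hW)
  obtain ⟨S, hSc, hSd, hSo⟩ := hO ν hν k (1 + θ ^ (k + 1) / 4) B η
    (ball 0 (1 + 3 * θ ^ (k + 1) / 8)) (by rw [pow_succ]; linarith) hR₂ isOpen_ball
    (closedBall_subset_ball (by linarith)) hB hηc hηa hηd hηb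
  have hSdiff : ∀ w ∈ ball (0 : E) 1, DifferentiableAt ℝ S w := fun w hw =>
    (hSc.contDiffAt (isOpen_ball.mem_nhds (ball_subset_ball (by
      have : 0 < θ / 4 * θ ^ k := by positivity
      linarith) hw))).differentiableAt (by norm_num)
  have hball : ∀ w ∈ ball (0 : E) 1, w ∈ ball (0 : E) (1 + 3 * θ ^ (k + 1) / 8) :=
    fun w hw => ball_subset_ball (by linarith) hw
  have hndiff : ∀ w ∈ ball (0 : E) 1, DifferentiableAt ℝ n w := fun w hw =>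
    (hnc.contDiffAt (isOpen_ball.mem_nhds (hball w hw))).differentiableAt (by norm_num)
  refine ⟨fun z => n z - S z + S 0, ?_, ?_⟩
  · intro z hz
    have h2 : HasFDerivAt (fun z => n z - S z + S 0) (fderiv ℝ n z - fderiv ℝ S z) z :=
      ((hndiff z hz).hasFDerivAt.sub (hSdiff z hz).hasFDerivAt).add_const (S 0)
    refine (holo_of_D01 (σ := fun z => n z - S z + S 0) h2.differentiableAt ?_).differentiableWithinAt
    ext v
    have h3 : D01 (fun z => n z - S z + S 0) z v = D01 n z v - D01 S z v := by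
      rw [D01_apply, h2.fderiv, D01_apply, D01_apply]
      simp only [sub_apply]
      rw [← smul_sub]
      congr 1
      rw [smul_sub]
      abel
    rw [h3, hSd z hz v, hηv z (hball z hz) (fun _ => v), sub_self]
    rfl
  · intro z hz
    have hz1 : ‖z‖ < 1 := mem_ball_zero_iff.mp hz
    have hP : Prj (0 : E →L[ℂ] E) := ⟨fun x => by simp, fun x y => by simp⟩
    have h2 := path_osc2 (S := S) (L := C₂ * B) hP hν M h0 h1 k (mul_nonneg hC₂.le hB)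
      (fun y y' hy hy' hyy => hSo y y' hy hy' hyy) hz1
    rw [zero_apply] at h2
    have e1 : n z - S z + S 0 - N ((rt θ k : ℂ) • z) = -(S z - S 0) := by
      rw [hn]
      ring
    have hW : 0 ≤ Wk ν M θ k z := by
      rw [Wk_eq]
      exact Om_nonneg (mem_ball_zero_iff.mp (hmem z (hball z hz)))
    show ‖n z - S z + S 0 - N ((rt θ k : ℂ) • z)‖ ≤ _
    rw [e1, norm_neg]
    refine h2.trans ?_
    obtain ⟨W, hWW⟩ : ∃ W : ℝ, W = Wk ν M θ k z := ⟨_, rfl⟩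
    obtain ⟨X, hX⟩ : ∃ X : ℝ, X = GI (Wk ν M θ k) 0 z := ⟨_, rfl⟩
    rw [← hWW] at hW
    rw [← hWW, ← hX]
    have h3 : (0 : ℝ) < 2 ^ (M + 2) := by positivity
    have h4 : 0 ≤ C₂ * B := mul_nonneg hC₂.le hB
    have h5 : 0 ≤ C₂ * B * (5 * 2 ^ (M + 2) * W) := by positivity
    have e2 : C₂ * (6 * 2 ^ (M + 2)) * B * (W + X) =
        C₂ * B * (2 ^ (M + 2) * W + 6 * 2 ^ (M + 2) * X) + C₂ * B * (5 * 2 ^ (M + 2) * W) := by
      ring
    rw [e2]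
    linarith

end Pool.Agent.MPca0fc2.XC
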