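import Mathlib
import Pool.Agent.Lib.MP_ca0fc2_an.XC.Defs
import Pool.Agent.Lib.MP_ca0fc2_an.XC.X9

set_option autoImplicit false
set_option linter.unusedSectionVars false

open Metric Set MeasureTheory Filter Topology
open scoped InnerProductSpace ENNReal ContDiff

namespace Pool.Agent.MPca0fc2.XC

open Pool.Agent.MPca0fc2.PT
open Pool.Agent.MPca0fc2.QT
open Pool.Agent.MPca0fc2.TS
open Pool.Agent.MPca0fc2.TE

variable {E : Type*} [NormedAddCommGroup E] [InnerProductSpace ℂ E]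

variable [FiniteDimensional ℂ E] [MeasurableSpace E] [BorelSpace E]

private theorem X10_rt01 (k : ℕ) : 0 ≤ rt (1 / 2) k ∧ rt (1 / 2) k ≤ 1 := by
  have h2 : (0 : ℝ) < (1 / 2) ^ k := by positivity
  have h3 : ((1 : ℝ) / 2) ^ k ≤ 1 := pow_le_one₀ (by norm_num) (by norm_num)
  unfold rt
  constructor <;> linarith

private theorem X10_rt_le (k : ℕ) (w : E) : ‖((rt (1 / 2) k : ℝ) : ℂ) • w‖ ≤ ‖w‖ := by
  rw [norm_smul, Complex.norm_real, Real.norm_eq_abs, abs_of_nonneg (X10_rt01 k).1]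
  exact mul_le_of_le_one_left (norm_nonneg _) (X10_rt01 k).2

private theorem X10_tend (z : E) :
    Tendsto (fun k : ℕ => ((rt (1 / 2) (k + 1) : ℝ) : ℂ) • z) atTop (𝓝 z) := by
  have h2 : Tendsto (fun k : ℕ => rt (1 / 2) k) atTop (𝓝 1) := by
    have h3 := (tendsto_pow_atTop_nhds_zero_of_lt_one (r := (1 / 2 : ℝ)) (by norm_num)
      (by norm_num)).const_sub 1
    rw [sub_zero] at h3
    exact h3
  have h2' : Tendsto (fun k : ℕ => rt (1 / 2) (k + 1)) atTop (𝓝 1) :=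
    h2.comp (tendsto_add_atTop_nat 1)
  have h4 : Tendsto (fun k : ℕ => ((rt (1 / 2) (k + 1) : ℝ) : ℂ)) atTop (𝓝 ((1 : ℝ) : ℂ)) :=
    (Complex.continuous_ofReal.tendsto 1).comp h2'
  have h5 := h4.smul_const z
  rwa [Complex.ofReal_one, one_smul] at h5

/-- The scalar `∂̄` problem. Proof: `scalar_level` with `θ = 1/2`, `k + 1` for `k : ℕ`, and `ultra_lim`: local bounds from
continuity of `N` on `closedBall 0 r`, `Wk_eq`, `hb`, and `GI_loc` (TE/G6.lean); the limit of the estimate: `N` is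
continuous, `Wk ν M θ k z → Om ν M z` (`Wk_eq`, `Om_cont`), `GI_lim` (TE/G6.lean). -/
theorem scalar_sol (μ : Measure E) [μ.IsAddHaarMeasure] {m : ℕ} (hm : 1 ≤ m)
    (hdim : Module.finrank ℂ E = m + 1) (M : ℕ) :
    ∃ C : ℝ, 0 < C ∧ ∀ ν : Measure E, OnB ν → ∀ C₃ : ℝ, (∀ w ∈ ball (0 : E) 1, Om ν M w ≤ C₃) →
      ∀ (B : ℝ), 0 ≤ B → ∀ N : E → ℂ, ContDiffOn ℝ 2 N (ball 0 1) →
      (∀ z ∈ ball (0 : E) 1, ∀ v, ‖D01 N z v‖ ≤ B * Om ν M z * gau (1 - ‖z‖ ^ 2) z v) →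
      ∃ G : E → ℂ, DifferentiableOn ℂ G (ball 0 1) ∧
        ∀ z ∈ ball (0 : E) 1, ‖G z - N z‖ ≤ C * B * (Om ν M z + GI (Om ν M) 0 z) := by
  obtain ⟨C, hC, h⟩ := scalar_level μ hm hdim (θ := 1 / 2) (by norm_num) (by norm_num) M
  refine ⟨C, hC, fun ν hν C₃ hC₃ B hB N hN hD => ?_⟩
  have h1 : ∀ k : ℕ, ∃ G : E → ℂ, DifferentiableOn ℂ G (ball 0 1) ∧
      ∀ z ∈ ball (0 : E) 1, ‖G z - N ((rt (1 / 2) (k + 1) : ℂ) • z)‖ ≤
        C * B * (Wk ν M (1 / 2) (k + 1) z + GI (Wk ν M (1 / 2) (k + 1)) 0 z) :=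
    fun k => h ν hν B hB N hN hD (k + 1) (by omega)
  choose G hG hGe using h1
  have P0 : Prj (0 : E →L[ℂ] E) := ⟨fun x => by simp, fun x y => by simp⟩
  have hp := FiniteDimensional.proper ℂ E
  have hC4 : ∀ w ∈ ball (0 : E) 1, Om ν M w ≤ max C₃ 0 := fun w hw => (hC₃ w hw).trans (le_max_left _ _)
  have hmem : ∀ (k : ℕ) (z : E), z ∈ ball (0 : E) 1 →
      ((rt (1 / 2) k : ℝ) : ℂ) • z ∈ ball (0 : E) 1 := fun k z hz =>
    mem_ball_zero_iff.2 ((X10_rt_le k z).trans_lt (mem_ball_zero_iff.1 hz))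
  have hWk : ∀ (k : ℕ), ∀ w ∈ ball (0 : E) 1, Wk ν M (1 / 2) k w ≤ max C₃ 0 := by
    intro k w hw
    rw [Wk_eq]
    exact hC4 _ (hmem k w hw)
  have hloc : ∀ r : ℝ, r < 1 → ∃ M' : ℝ, ∀ k, ∀ z : E, ‖z‖ ≤ r → ‖G k z‖ ≤ M' := by
    intro r hr
    obtain ⟨b, hb⟩ := (isCompact_closedBall (0 : E) r).exists_bound_of_continuousOn
      (hN.continuousOn.mono (closedBall_subset_ball hr))
    refine ⟨b + C * B * (max C₃ 0 + max C₃ 0 / (1 - r ^ 2)), fun k z hz => ?_⟩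
    have hz1 : ‖z‖ < 1 := hz.trans_lt hr
    have hr0 : 0 ≤ r := (norm_nonneg z).trans hz
    have hzb : z ∈ ball (0 : E) 1 := mem_ball_zero_iff.2 hz1
    have e1 := hGe k z hzb
    have e2 := hb (((rt (1 / 2) (k + 1) : ℝ) : ℂ) • z)
      (mem_closedBall_zero_iff.2 ((X10_rt_le (k + 1) z).trans hz))
    have e3 := hWk (k + 1) z hzb
    have e4 := GI_loc P0 (le_max_right C₃ 0) (Wk_cont hν M (θ := 1 / 2) (by norm_num) (by norm_num)
      (k + 1)) (hWk (k + 1)) hz1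
    have e5 : max C₃ 0 / (1 - ‖z‖ ^ 2) ≤ max C₃ 0 / (1 - r ^ 2) := by
      have h0 : 0 < 1 - r ^ 2 := by nlinarith
      have h2 : ‖z‖ ^ 2 ≤ r ^ 2 := by gcongr
      exact div_le_div_of_nonneg_left (le_max_right _ _) h0 (by linarith)
    have e6 : C * B * (Wk ν M (1 / 2) (k + 1) z + GI (Wk ν M (1 / 2) (k + 1)) 0 z) ≤
        C * B * (max C₃ 0 + max C₃ 0 / (1 - r ^ 2)) := by
      have : 0 ≤ C * B := mul_nonneg hC.le hB
      gcongr
      exact e4.trans e5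
    have e7 : ‖G k z‖ ≤ ‖G k z - N (((rt (1 / 2) (k + 1) : ℝ) : ℂ) • z)‖ +
        ‖N (((rt (1 / 2) (k + 1) : ℝ) : ℂ) • z)‖ := by
      have := norm_add_le (G k z - N (((rt (1 / 2) (k + 1) : ℝ) : ℂ) • z))
        (N (((rt (1 / 2) (k + 1) : ℝ) : ℂ) • z))
      rwa [sub_add_cancel] at this
    linarith
  obtain ⟨𝒰, g, hU, hg, hlim⟩ := ultra_lim hG hloc
  refine ⟨g, hg, fun z hz => ?_⟩
  have hz1 : ‖z‖ < 1 := mem_ball_zero_iff.1 hz
  have t0 := X10_tend z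
  have t1 : Tendsto (fun k : ℕ => N (((rt (1 / 2) (k + 1) : ℝ) : ℂ) • z)) 𝒰 (𝓝 (N z)) :=
    (((hN.continuousOn.continuousAt (isOpen_ball.mem_nhds hz)).tendsto).comp t0).mono_left hU
  have t2 : Tendsto (fun k : ℕ => ‖G k z - N (((rt (1 / 2) (k + 1) : ℝ) : ℂ) • z)‖) 𝒰
      (𝓝 ‖g z - N z‖) := ((hlim z hz).sub t1).norm
  have t3 : Tendsto (fun k : ℕ => Wk ν M (1 / 2) (k + 1) z) 𝒰 (𝓝 (Om ν M z)) := by
    have := ((((Om_cont hν M).continuousAt (isOpen_ball.mem_nhds hz)).tendsto).comp t0).mono_left hU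
    refine this.congr fun k => ?_
    rw [Function.comp_apply, Wk_eq]
  have t4 : Tendsto (fun k : ℕ => GI (Wk ν M (1 / 2) (k + 1)) 0 z) 𝒰 (𝓝 (GI (Om ν M) 0 z)) :=
    ((GI_lim P0 hν M (θ := 1 / 2) (by norm_num) (by norm_num) hz1).comp
      (tendsto_add_atTop_nat 1)).mono_left hU
  exact le_of_tendsto_of_tendsto' t2 ((t3.add t4).const_mul (C * B)) fun k => hGe k z hz

end Pool.Agent.MPca0fc2.XC
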