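import Mathlib
import Pool.Agent.Lib.MP_ca0fc2_an.XC.Defs


set_option autoImplicit false
set_option linter.unusedSectionVars false

open Metric Set MeasureTheory Filter Topology
open scoped InnerProductSpace ENNReal ContDiff

namespace Pool.Agent.MPca0fc2.XC

open Pool.Agent.MPca0fc2.PT
open Pool.Agent.MPca0fc2.QT
open Pool.Agent.MPca0fc2.TS
open Pool.Agent.MPca0fc2.TE

variable {E : Type*} [NormedAddCommGroup E] [InnerProductSpace ℂ E]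

/-- `‖z - ζ‖² = ‖z‖² + 1 - 2 Re ⟪z, ζ⟫ = 2 Re (1 - ⟪z, ζ⟫) - (1 - ‖z‖²)`. -/
theorem dist_sq_le {z ζ : E} (hz : ‖z‖ ≤ 1) (hζ : ‖ζ‖ ≤ 1) :
    ‖z - ζ‖ ^ 2 ≤ 2 * ‖1 - ⟪z, ζ⟫_ℂ‖ := by
  have h1 : ‖z - ζ‖ ^ 2 = ‖z‖ ^ 2 - 2 * RCLike.re ⟪z, ζ⟫_ℂ + ‖ζ‖ ^ 2 := by
    rw [norm_sub_sq (𝕜 := ℂ)]
  have h2 : ‖z‖ ^ 2 ≤ 1 := by nlinarith [norm_nonneg z]
  have h3 : ‖ζ‖ ^ 2 ≤ 1 := by nlinarith [norm_nonneg ζ]
  have h4 : (1 - ⟪z, ζ⟫_ℂ).re ≤ ‖1 - ⟪z, ζ⟫_ℂ‖ := Complex.re_le_norm _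
  have h5 : (1 - ⟪z, ζ⟫_ℂ).re = 1 - RCLike.re ⟪z, ζ⟫_ℂ := by
    simp [Complex.sub_re]
  rw [h5] at h4
  rw [h1]
  linarith

/-- The depth and the distance: for `ζ ∈ K`, `1 - ‖x‖ ≤ ‖x - ζ‖`. -/
theorem depth_le {K : Set E} (hK : K ⊆ sphere 0 1) (hne : K.Nonempty) {x : E} (hx : ‖x‖ < 1) :
    1 - ‖x‖ ^ 2 ≤ 2 * infDist x K := by
  have h1 : 1 - ‖x‖ ≤ infDist x K := by
    rw [le_infDist hne]
    intro y hy
    have hy1 : ‖y‖ = 1 := by simpa using hK hy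
    rw [dist_comm, dist_eq_norm]
    have := norm_sub_norm_le y x
    rw [hy1] at this
    exact this
  have h2 := norm_nonneg x
  nlinarith

/-- Away from `K` the Koranyi regions are deep: `infDist z K ≤ ‖z - ζ‖`, `dist_sq_le`. -/
theorem kor_far {K : Set E} (hK : K ⊆ sphere 0 1) {R ρ : ℝ} (hρ : 0 ≤ ρ) {z : E}
    (hz : z ∈ kor K R) (h : ρ ≤ infDist z K) : ρ ^ 2 ≤ 2 * R * (1 - ‖z‖ ^ 2) := by
  obtain ⟨hz1, ζ, hζ, hR⟩ := hz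
  have hζ1 : ‖ζ‖ = 1 := by simpa using hK hζ
  have h1 : ρ ≤ ‖z - ζ‖ := by
    rw [← dist_eq_norm]
    exact h.trans (infDist_le_dist_of_mem hζ)
  have h2 := dist_sq_le hz1.le hζ1.le
  have h3 : ρ ^ 2 ≤ ‖z - ζ‖ ^ 2 := by gcongr
  nlinarith

/-- Koranyi regions over `K` do not meet a small neighbourhood of `K'`, if the distance of `K` and `K'`
is at least `d`. Proof: otherwise there is `ζ' ∈ K'` with `‖z - ζ'‖ < ε` (`infDist_lt_iff`), so `1 - ‖z‖² ≤ 2 ε` and, for `ζ ∈ K` from the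
definition of `kor`, `‖z - ζ‖² ≤ 2 R (1 - ‖z‖²) ≤ 4 R ε ≤ d²/4`, `ε ≤ d/8` (as `d ≤ 2`), so `‖ζ - ζ'‖ < d`. -/
theorem kor_sep {K K' : Set E} (hK : K ⊆ sphere 0 1) (hK' : K' ⊆ sphere 0 1) (hne : K'.Nonempty)
    {d R ε : ℝ} (hd : 0 < d) (hdd : ∀ x ∈ K, ∀ y ∈ K', d ≤ dist x y) (hR : 0 ≤ R)
    (hε : ε ≤ d ^ 2 / (16 * (R + 1))) {z : E} (hz : z ∈ kor K R) : ε ≤ infDist z K' := by
  by_contra hlt
  push Not at hlt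
  obtain ⟨ζ', hζ', hd'⟩ := (infDist_lt_iff hne).1 hlt
  obtain ⟨hz1, ζ, hζ, hRz⟩ := hz
  have hζ1 : ‖ζ‖ = 1 := by simpa using hK hζ
  have hζ'1 : ‖ζ'‖ = 1 := by simpa using hK' hζ'
  have h1 : 1 - ‖z‖ ≤ dist z ζ' := by
    rw [dist_comm, dist_eq_norm]
    have := norm_sub_norm_le ζ' z
    rw [hζ'1] at this
    exact this
  have hz0 := norm_nonneg z
  have h2 : 1 - ‖z‖ ^ 2 ≤ 2 * ε := by nlinarith
  have h3 := dist_sq_le hz1.le hζ1.le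
  have h4 : ‖z - ζ‖ ^ 2 ≤ 4 * R * ε := by nlinarith
  have h5 : ε * (16 * (R + 1)) ≤ d ^ 2 := by
    rwa [le_div_iff₀ (by positivity)] at hε
  have hε0 : 0 < ε := lt_of_le_of_lt dist_nonneg hd'
  have h6 : ‖z - ζ‖ ^ 2 ≤ (d / 2) ^ 2 := by nlinarith
  have h7 : ‖z - ζ‖ ≤ d / 2 := by
    have := abs_le_of_sq_le_sq' h6 (by positivity)
    exact this.2
  have h8 : d ≤ dist ζ ζ' := hdd ζ hζ ζ' hζ'
  have h9 : dist ζ ζ' ≤ 2 := by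
    rw [dist_eq_norm]
    have := norm_sub_le ζ ζ'
    linarith
  have h10 : ε ≤ d / 8 := by nlinarith
  have h11 : dist ζ ζ' ≤ dist z ζ + dist z ζ' := by
    rw [dist_comm z ζ]
    exact dist_triangle _ _ _
  rw [dist_eq_norm z ζ] at h11
  linarith

end Pool.Agent.MPca0fc2.XC
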