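import Mathlib
import Pool.Agent.Lib.MP_ca0fc2_an.XC.Defs
import Pool.Agent.Lib.MP_ca0fc2_an.Mg.G049
import Pool.Agent.Lib.MP_ca0fc2_an.TS.Gr

set_option autoImplicit false
set_option linter.unusedSectionVars false

open Metric Set MeasureTheory Filter Topology
open scoped InnerProductSpace ENNReal ContDiff

namespace Pool.Agent.MPca0fc2.XC

open Pool.Agent.MPca0fc2.PT
open Pool.Agent.MPca0fc2.QT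
open Pool.Agent.MPca0fc2.TS
open Pool.Agent.MPca0fc2.TE

variable {E : Type*} [NormedAddCommGroup E] [InnerProductSpace ℂ E]

/-- Hyperbolic balls. `norm_gg`: `1 - ‖gg z x‖² = (1 - ‖z‖²)(1 - ‖x‖²)/‖1 + ⟪z, x⟫‖²`; `inner_gg_self`
(see `IG_mean_ker`, `IG_mean_den`, private in TS/Gr.lean): `‖1 - ⟪gg z x, z⟫‖ = (1 - ‖z‖²)/‖1 + ⟪z, x⟫‖`,
and `1/2 ≤ ‖1 + ⟪z, x⟫‖ ≤ 3/2`. Last: `‖gg z x - z‖² = ‖gg z x‖² + ‖z‖² - 2 Re ⟪gg z x, z⟫ ≤ 2 ‖1 - ⟪gg z x, z⟫‖`. -/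
theorem hyp_ball {z x : E} (hz : ‖z‖ < 1) (hx : ‖x‖ < 1 / 2) :
    ‖gg z x‖ < 1 ∧ (1 - ‖z‖ ^ 2) / 3 ≤ 1 - ‖gg z x‖ ^ 2 ∧
      ‖1 - ⟪gg z x, z⟫_ℂ‖ ≤ 2 * (1 - ‖z‖ ^ 2) ∧ ‖gg z x - z‖ ^ 2 ≤ 4 * (1 - ‖z‖ ^ 2) := by
  have hd : 0 < 1 - ‖z‖ ^ 2 := by nlinarith [norm_nonneg z]
  have hx1 : ‖x‖ ≤ 1 := by linarith
  have hzx : ‖⟪z, x⟫_ℂ‖ ≤ 1 / 2 := by
    have h1 := norm_inner_le_norm (𝕜 := ℂ) z x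
    nlinarith [norm_nonneg z, norm_nonneg x]
  have hc1 : 1 / 2 ≤ ‖1 + ⟪z, x⟫_ℂ‖ := by
    have h1 := norm_sub_norm_le (1 : ℂ) (-⟪z, x⟫_ℂ)
    rw [norm_one, norm_neg, sub_neg_eq_add] at h1
    linarith
  have hc2 : ‖1 + ⟪z, x⟫_ℂ‖ ≤ 3 / 2 := by
    have h1 := norm_add_le (1 : ℂ) ⟪z, x⟫_ℂ
    rw [norm_one] at h1
    linarith
  have hc0 : 0 < ‖1 + ⟪z, x⟫_ℂ‖ := by linarith
  have hx2 : 3 / 4 ≤ 1 - ‖x‖ ^ 2 := by nlinarith [norm_nonneg x]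
  have h2 : (1 - ‖z‖ ^ 2) / 3 ≤ 1 - ‖gg z x‖ ^ 2 := by
    rw [norm_gg hz hx1, le_div_iff₀ (by positivity)]
    have h3 : ‖1 + ⟪z, x⟫_ℂ‖ ^ 2 ≤ 9 / 4 := by nlinarith
    have h4 : (1 - ‖z‖ ^ 2) / 3 * ‖1 + ⟪z, x⟫_ℂ‖ ^ 2 ≤ (1 - ‖z‖ ^ 2) / 3 * (9 / 4) :=
      mul_le_mul_of_nonneg_left h3 (by linarith)
    have h5 : (1 - ‖z‖ ^ 2) * (3 / 4) ≤ (1 - ‖z‖ ^ 2) * (1 - ‖x‖ ^ 2) :=
      mul_le_mul_of_nonneg_left hx2 hd.le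
    linarith
  have h1 : ‖gg z x‖ < 1 := by
    by_contra hcon
    have hcon' := not_lt.1 hcon
    nlinarith
  have h3 : ‖1 - ⟪gg z x, z⟫_ℂ‖ ≤ 2 * (1 - ‖z‖ ^ 2) := by
    have h4 : 1 - ⟪gg z x, z⟫_ℂ = (starRingEnd ℂ) (1 - ⟪z, gg z x⟫_ℂ) := by
      rw [map_sub, map_one, inner_conj_symm]
    rw [h4, RCLike.norm_conj, inner_gg_self hz hx1, norm_div, Complex.norm_real, Real.norm_eq_abs,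
      abs_of_pos hd, div_le_iff₀ hc0]
    nlinarith
  refine ⟨h1, h2, h3, ?_⟩
  have h4 : ‖gg z x - z‖ ^ 2 = ‖gg z x‖ ^ 2 - 2 * (⟪gg z x, z⟫_ℂ).re + ‖z‖ ^ 2 := by
    have := norm_sub_sq (𝕜 := ℂ) (gg z x) z
    exact this
  have h5 : (1 - ⟪gg z x, z⟫_ℂ).re ≤ ‖1 - ⟪gg z x, z⟫_ℂ‖ := Complex.re_le_norm _
  rw [Complex.sub_re, Complex.one_re] at h5
  have h6 : ‖gg z x‖ ^ 2 ≤ 1 := by nlinarith [norm_nonneg (gg z x)]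
  have h7 : ‖z‖ ^ 2 ≤ 1 := by linarith
  linarith

end Pool.Agent.MPca0fc2.XC
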