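import Mathlib
import Pool.Agent.Lib.MP_ca0fc2_an.XC.Defs
import Pool.Agent.Lib.MP_ca0fc2_an.Mg.G049
import Pool.Agent.Lib.MP_ca0fc2_an.XC.X2

set_option autoImplicit false
set_option linter.unusedSectionVars false

open Metric Set MeasureTheory Filter Topology
open scoped InnerProductSpace ENNReal ContDiff

namespace Pool.Agent.MPca0fc2.XC

open Pool.Agent.MPca0fc2.PT
open Pool.Agent.MPca0fc2.QT
open Pool.Agent.MPca0fc2.TS
open Pool.Agent.MPca0fc2.TE

variable {E : Type*} [NormedAddCommGroup E] [InnerProductSpace ℂ E]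

variable [FiniteDimensional ℂ E] [MeasurableSpace E] [BorelSpace E]

/-- `nuX` is a finite measure on the ball: the density is at most `A` on the ball (pattern: `nuE_OnB`, TS/Gr.lean). -/
theorem nuX_OnB (μ : Measure E) [μ.IsAddHaarMeasure] {A : ℝ} (hA : 0 ≤ A) {U : Set E}
    (hU : MeasurableSet U) : OnB (nuX μ A U) := by
  have hprop : ProperSpace E := FiniteDimensional.proper ℂ E
  have hms : MeasurableSet (ball (0 : E) 1 ∩ U) := measurableSet_ball.inter hU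
  refine ⟨⟨?_⟩, ?_⟩
  · unfold nuX
    rw [withDensity_apply _ MeasurableSet.univ, Measure.restrict_univ]
    have hle : ∫⁻ x in ball (0 : E) 1 ∩ U, ENNReal.ofReal
        (A * ((1 - ‖x‖ ^ 2) ^ 4 * (1 - ‖x‖ ^ 2) ^ (1 / 4 : ℝ))) ∂μ ≤
        ∫⁻ x in ball (0 : E) 1 ∩ U, ENNReal.ofReal A ∂μ := by
      refine setLIntegral_mono' hms fun x hx => ?_
      have hx1 := hx.1
      rw [mem_ball_zero_iff] at hx1
      apply ENNReal.ofReal_le_ofReal
      have h0 : 0 ≤ 1 - ‖x‖ ^ 2 := by nlinarith [norm_nonneg x]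
      have h1 : 1 - ‖x‖ ^ 2 ≤ 1 := by nlinarith [norm_nonneg x]
      have h2 : (1 - ‖x‖ ^ 2) ^ 4 ≤ 1 := pow_le_one₀ h0 h1
      have h3 : (1 - ‖x‖ ^ 2) ^ (1 / 4 : ℝ) ≤ 1 := Real.rpow_le_one h0 h1 (by norm_num)
      have h4 : 0 ≤ (1 - ‖x‖ ^ 2) ^ (1 / 4 : ℝ) := Real.rpow_nonneg h0 _
      calc A * ((1 - ‖x‖ ^ 2) ^ 4 * (1 - ‖x‖ ^ 2) ^ (1 / 4 : ℝ)) ≤ A * (1 * 1) :=
            mul_le_mul_of_nonneg_left (mul_le_mul h2 h3 h4 zero_le_one) hA
        _ = A := by ring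
    refine lt_of_le_of_lt hle ?_
    rw [lintegral_const, Measure.restrict_apply_univ]
    exact ENNReal.mul_lt_top ENNReal.ofReal_lt_top
      (lt_of_le_of_lt (measure_mono inter_subset_left) measure_ball_lt_top)
  · unfold nuX
    refine withDensity_absolutelyContinuous _ _ ?_
    rw [Measure.restrict_apply measurableSet_ball.compl, ← inter_assoc, compl_inter_self,
      empty_inter, measure_empty]

/-- `PP` as an integral over the ball (pattern: `PP_gen` in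
Pool/Agent/Results/MP_ca0fc2_an/SliceExtension.lean: `integral_withDensity_eq_integral_toReal_smul`). -/
theorem PP_nuX (μ : Measure E) [μ.IsAddHaarMeasure] {A : ℝ} (hA : 0 ≤ A) {U : Set E}
    (hU : MeasurableSet U) (p : ℝ) (z : E) :
    PP (nuX μ A U) p z = ∫ x in ball (0 : E) 1 ∩ U,
      A * ((1 - ‖x‖ ^ 2) ^ 4 * (1 - ‖x‖ ^ 2) ^ (1 / 4 : ℝ)) * ‖1 - ⟪x, z⟫_ℂ‖ ^ (-p) ∂μ := by
  have hmeas : Measurable fun x : E =>
      ENNReal.ofReal (A * ((1 - ‖x‖ ^ 2) ^ 4 * (1 - ‖x‖ ^ 2) ^ (1 / 4 : ℝ))) := by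
    apply ENNReal.measurable_ofReal.comp
    have h0 : Measurable fun x : E => 1 - ‖x‖ ^ 2 :=
      measurable_const.sub (measurable_norm.pow_const 2)
    exact measurable_const.mul ((h0.pow_const 4).mul (h0.pow_const (1 / 4 : ℝ)))
  unfold PP nuX
  rw [integral_withDensity_eq_integral_toReal_smul hmeas
    (Filter.Eventually.of_forall fun _ => ENNReal.ofReal_lt_top)]
  refine setIntegral_congr_fun (measurableSet_ball.inter hU) fun x hx => ?_
  have hx1 := hx.1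
  rw [mem_ball_zero_iff] at hx1
  have hx2 : 0 ≤ 1 - ‖x‖ ^ 2 := by nlinarith [norm_nonneg x]
  have h4 : 0 ≤ (1 - ‖x‖ ^ 2) ^ (1 / 4 : ℝ) := Real.rpow_nonneg hx2 _
  simp only [smul_eq_mul]
  rw [ENNReal.toReal_ofReal (mul_nonneg hA (mul_nonneg (pow_nonneg hx2 4) h4))]

end Pool.Agent.MPca0fc2.XC
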