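import Mathlib
import Pool.Agent.Lib.MP_ca0fc2_an.XC.Defs
import Pool.Agent.Lib.MP_ca0fc2_an.XC.X3

set_option autoImplicit false
set_option linter.unusedSectionVars false

open Metric Set MeasureTheory Filter Topology
open scoped InnerProductSpace ENNReal ContDiff

namespace Pool.Agent.MPca0fc2.XC

open Pool.Agent.MPca0fc2.PT
open Pool.Agent.MPca0fc2.QT
open Pool.Agent.MPca0fc2.TS
open Pool.Agent.MPca0fc2.TE

variable {E : Type*} [NormedAddCommGroup E] [InnerProductSpace ℂ E]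

variable [FiniteDimensional ℂ E] [MeasurableSpace E] [BorelSpace E]

omit [FiniteDimensional ℂ E] [MeasurableSpace E] [BorelSpace E] in
private theorem X4_den {y x : E} (hy : ‖y‖ < 1) (hx : ‖x‖ < 1 / 2) :
    1 / 2 ≤ ‖1 + ⟪y, x⟫_ℂ‖ ∧ ‖1 + ⟪y, x⟫_ℂ‖ ≤ 3 / 2 := by
  have h1 : ‖⟪y, x⟫_ℂ‖ ≤ 1 / 2 := by
    have h2 := norm_inner_le_norm (𝕜 := ℂ) y x
    nlinarith [norm_nonneg y, norm_nonneg x]
  have h3 := norm_sub_norm_le (1 : ℂ) (-⟪y, x⟫_ℂ)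
  rw [sub_neg_eq_add, norm_neg, norm_one] at h3
  have h4 := norm_add_le (1 : ℂ) ⟪y, x⟫_ℂ
  rw [norm_one] at h4
  exact ⟨by linarith, by linarith⟩

omit [FiniteDimensional ℂ E] [MeasurableSpace E] [BorelSpace E] in
private theorem X4_ker {y x : E} (hy : ‖y‖ < 1) (hx : ‖x‖ < 1) :
    ‖1 - ⟪gg y x, y⟫_ℂ‖ = (1 - ‖y‖ ^ 2) / ‖1 + ⟪y, x⟫_ℂ‖ := by
  have h1 := congrArg (starRingEnd ℂ) (inner_gg_self hy hx.le)
  rw [map_sub, map_one, inner_conj_symm] at h1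
  have ha : 0 ≤ 1 - ‖y‖ ^ 2 := by nlinarith [norm_nonneg y]
  rw [h1, Complex.norm_conj, norm_div, Complex.norm_real, Real.norm_of_nonneg ha]

private theorem X4_real {a D b : ℝ} (m : ℕ) (ha : 0 < a) (hD1 : 1 / 2 ≤ D) (hD2 : D ≤ 3 / 2)
    (hb : 3 / 4 ≤ b) :
    (1 / 2) ^ (m + 7) ≤ (a / D ^ 2) ^ (m + 2) * ((a * b / D ^ 2) ^ 4 * (a * b / D ^ 2) ^ (1 / 4 : ℝ)) *
      (a / D) ^ (-(((m + 6 : ℕ) : ℝ) + 1 / 4)) := by
  have hD0 : 0 < D := by linarith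
  have hb0 : 0 < b := by linarith
  have haD : 0 < a / D := by positivity
  have h1 : (a / D) ^ (-(((m + 6 : ℕ) : ℝ) + 1 / 4)) =
      ((a / D) ^ (m + 6))⁻¹ * ((a / D) ^ (1 / 4 : ℝ))⁻¹ := by
    rw [neg_add, Real.rpow_add haD, Real.rpow_neg haD.le, Real.rpow_natCast, Real.rpow_neg haD.le]
  have h2 : a * b / D ^ 2 = (a / D) * (b / D) := by field_simp
  have h3 : a / D ^ 2 = (a / D) * (1 / D) := by field_simp
  have hbD : 1 / 2 ≤ b / D := by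
    rw [le_div_iff₀ hD0]; linarith
  have h1D : 1 / 2 ≤ 1 / D := by
    rw [div_le_div_iff₀ (by norm_num) hD0]; linarith
  have h4 : (a * b / D ^ 2) ^ (1 / 4 : ℝ) = (a / D) ^ (1 / 4 : ℝ) * (b / D) ^ (1 / 4 : ℝ) := by
    rw [h2, Real.mul_rpow haD.le (by positivity)]
  have h5 : 0 < (a / D) ^ (1 / 4 : ℝ) := Real.rpow_pos_of_pos haD _
  have h6 : (1 / 2 : ℝ) ≤ (b / D) ^ (1 / 4 : ℝ) := by
    have h7 : (1 / 2 : ℝ) ^ (1 / 4 : ℝ) ≤ (b / D) ^ (1 / 4 : ℝ) :=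
      Real.rpow_le_rpow (by norm_num) hbD (by norm_num)
    have h8 : (1 / 2 : ℝ) ^ (1 : ℝ) ≤ (1 / 2 : ℝ) ^ (1 / 4 : ℝ) :=
      Real.rpow_le_rpow_of_exponent_ge (by norm_num) (by norm_num) (by norm_num)
    rw [Real.rpow_one] at h8
    linarith
  rw [h4, h1, h2, h3]
  generalize (a / D) ^ (1 / 4 : ℝ) = q at *
  generalize (b / D) ^ (1 / 4 : ℝ) = s at *
  generalize a / D = t at *
  generalize b / D = r at *
  generalize 1 / D = e at *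
  have e1 : (t * e) ^ (m + 2) * ((t * r) ^ 4 * (q * s)) * ((t ^ (m + 6))⁻¹ * q⁻¹) =
      e ^ (m + 2) * r ^ 4 * s := by
    have : t ^ (m + 6) = t ^ (m + 2) * t ^ 4 := by ring
    rw [this, mul_pow, mul_pow]
    field_simp
  rw [e1]
  have e2 : (1 / 2 : ℝ) ^ (m + 7) = (1 / 2) ^ (m + 2) * (1 / 2) ^ 4 * (1 / 2) := by ring
  rw [e2]
  have h9 : 0 ≤ r := by linarith
  gcongr

private theorem X4_int {ν : Measure E} (hν : OnB ν) {p : ℝ} (hp : 0 ≤ p) {y : E}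
    (hy : ‖y‖ < 1) : Integrable (fun x => ‖1 - ⟪x, y⟫_ℂ‖ ^ (-p)) ν := by
  have := hν.fin
  have hcont : Continuous fun x : E => ‖1 - ⟪x, y⟫_ℂ‖ := by fun_prop
  have hmeas : Measurable fun x : E => ‖1 - ⟪x, y⟫_ℂ‖ ^ (-p) := hcont.measurable.pow_const _
  refine Integrable.mono' (integrable_const ((1 - ‖y‖) ^ (-p))) hmeas.aestronglyMeasurable ?_
  have hae : ∀ᵐ x ∂ν, x ∈ ball (0 : E) 1 := by
    rw [ae_iff]
    exact hν.supp
  filter_upwards [hae] with x hx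
  rw [mem_ball_zero_iff] at hx
  rw [Real.norm_of_nonneg (Real.rpow_nonneg (norm_nonneg _) _)]
  apply Real.rpow_le_rpow_of_nonpos (by linarith) _ (by linarith)
  have h1 := norm_inner_le_norm (𝕜 := ℂ) x y
  have h2 := norm_sub_norm_le (1 : ℂ) ⟪x, y⟫_ℂ
  rw [norm_one] at h2
  nlinarith [norm_nonneg y, norm_nonneg x]

/-- The lower bound of the weight on the set of the points whose hyperbolic ball is in `U`.
Proof (pattern: `IG_mean`, TS/Gr.lean): `PP_nuX` (or directly with `lintegral`), the integral over `ball 0 1 ∩ U` is at least the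
integral over `gg z '' ball 0 (1/2)`; change of variables `lintegral_gg` (PTMeas.lean) `w = gg z x`:
the integrand on `‖x‖ < 1/2` is at least `A` times
`((1 - ‖z‖²)/‖1 + ⟪z, x⟫‖²)^(m+2) * ((1 - ‖z‖²)/3)^4 * ((1 - ‖z‖²)/3)^(1/4) * (2 (1 - ‖z‖²))^(-(m + 6 + 1/4))`
(`hyp_ball`), so `Om ν (m + 6) z ≥ c A (1 - ‖z‖²)^(1/4 + (m+2) + 4 + 1/4 - (m+6) - 1/4) = c A (1 - ‖z‖²)^(1/4)`. -/
theorem Om_low (μ : Measure E) [μ.IsAddHaarMeasure] {m : ℕ}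
    (hdim : Module.finrank ℂ E = m + 1) : ∃ c : ℝ, 0 < c ∧ ∀ A : ℝ, 0 ≤ A → ∀ U : Set E,
      MeasurableSet U → ∀ z : E, ‖z‖ < 1 → (∀ x : E, ‖x‖ < 1 / 2 → gg z x ∈ U) →
      c * A * (1 - ‖z‖ ^ 2) ^ (1 / 4 : ℝ) ≤ Om (nuX μ A U) (m + 6) z := by
  have hprop : ProperSpace E := FiniteDimensional.proper ℂ E
  set V : ℝ := μ.real (ball (0 : E) (1 / 2)) with hV
  have hV0 : 0 < V :=
    ENNReal.toReal_pos (measure_ball_pos μ 0 (by norm_num)).ne' measure_ball_lt_top.ne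
  have hVV : μ (ball (0 : E) (1 / 2)) = ENNReal.ofReal V := by
    rw [hV, ofReal_measureReal]
  refine ⟨(1 / 2) ^ (m + 7) * V, by positivity, ?_⟩
  intro A hA U hU z hz hzU
  have ha : 0 < 1 - ‖z‖ ^ 2 := by nlinarith [norm_nonneg z]
  have hB : OnB (nuX μ A U) := nuX_OnB μ hA hU
  obtain ⟨P, hP⟩ : ∃ P, P = PP (nuX μ A U) (((m + 6 : ℕ) : ℝ) + 1 / 4) z := ⟨_, rfl⟩
  have hP0 : 0 ≤ P := by
    rw [hP]
    exact integral_nonneg fun x => Real.rpow_nonneg (norm_nonneg _) _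
  have hdm : Measurable fun x : E => ENNReal.ofReal (A * ((1 - ‖x‖ ^ 2) ^ 4 * (1 - ‖x‖ ^ 2) ^ (1 / 4 : ℝ))) := by
    apply ENNReal.measurable_ofReal.comp
    have h5 : Measurable fun x : E => 1 - ‖x‖ ^ 2 := measurable_const.sub (measurable_norm.pow_const 2)
    exact ((h5.pow_const 4).mul (h5.pow_const (1 / 4 : ℝ))).const_mul A
  have hkm : Measurable fun x : E => ENNReal.ofReal (‖1 - ⟪x, z⟫_ℂ‖ ^ (-(((m + 6 : ℕ) : ℝ) + 1 / 4))) := by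
    have hcont : Continuous fun x : E => ‖1 - ⟪x, z⟫_ℂ‖ := by fun_prop
    exact ENNReal.measurable_ofReal.comp (hcont.measurable.pow_const _)
  obtain ⟨F, hF⟩ : ∃ F : E → ℝ≥0∞, F = (fun x : E => ENNReal.ofReal (A * ((1 - ‖x‖ ^ 2) ^ 4 * (1 - ‖x‖ ^ 2) ^ (1 / 4 : ℝ)))) *
      (fun x : E => ENNReal.ofReal (‖1 - ⟪x, z⟫_ℂ‖ ^ (-(((m + 6 : ℕ) : ℝ) + 1 / 4)))) := ⟨_, rfl⟩
  have h2 : ENNReal.ofReal P = ∫⁻ x in ball (0 : E) 1,
      ENNReal.ofReal (((1 - ‖z‖ ^ 2) / ‖1 + ⟪z, x⟫_ℂ‖ ^ 2) ^ (m + 2)) * U.indicator F (gg z x) ∂μ := by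
    rw [← lintegral_gg μ hdim hz, setLIntegral_indicator hU, inter_comm U, hF,
      hP, PP, ofReal_integral_eq_lintegral_ofReal (X4_int hB (by positivity) hz)
      (ae_of_all _ fun _ => Real.rpow_nonneg (norm_nonneg _) _), nuX,
      lintegral_withDensity_eq_lintegral_mul _ hdm hkm]
  have h3 : ENNReal.ofReal ((1 / 2) ^ (m + 7) * A) * μ (ball (0 : E) (1 / 2)) ≤ ENNReal.ofReal P := by
    rw [h2, ← setLIntegral_const]
    refine le_trans ?_ (lintegral_mono_set (ball_subset_ball (by norm_num : (1 : ℝ) / 2 ≤ 1)))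
    apply setLIntegral_mono' measurableSet_ball
    intro x hx
    rw [mem_ball_zero_iff] at hx
    have hx1 : ‖x‖ < 1 := by linarith
    rw [indicator_of_mem (hzU x hx), hF, Pi.mul_apply]
    obtain ⟨hD1, hD2⟩ := X4_den hz hx
    have hb : 3 / 4 ≤ 1 - ‖x‖ ^ 2 := by nlinarith [norm_nonneg x]
    have hk := X4_real m ha hD1 hD2 hb
    have hgx := gg_lt hz hx1
    have hw : 0 < 1 - ‖gg z x‖ ^ 2 := by nlinarith [norm_nonneg (gg z x)]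
    have hw4 : 0 ≤ (1 - ‖gg z x‖ ^ 2) ^ (1 / 4 : ℝ) := Real.rpow_nonneg hw.le _
    have hpos3 : 0 < ‖1 + ⟪z, x⟫_ℂ‖ := by linarith
    rw [← ENNReal.ofReal_mul (mul_nonneg hA (by positivity)), ← ENNReal.ofReal_mul (by positivity)]
    apply ENNReal.ofReal_le_ofReal
    rw [X4_ker hz hx1, norm_gg hz hx1.le]
    have h7 := mul_le_mul_of_nonneg_left hk hA
    linarith
  rw [hVV, ← ENNReal.ofReal_mul (by positivity), ENNReal.ofReal_le_ofReal_iff hP0] at h3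
  have h4 : 0 ≤ (1 - ‖z‖ ^ 2) ^ (1 / 4 : ℝ) := Real.rpow_nonneg ha.le _
  unfold Om
  rw [← hP]
  have h5 := mul_le_mul_of_nonneg_left h3 h4
  linarith

end Pool.Agent.MPca0fc2.XC
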