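import Mathlib
import Pool.Agent.Lib.MP_ca0fc2_an.XC.Defs
import Pool.Agent.Lib.MP_ca0fc2_an.Mg.G073
import Pool.Agent.Lib.MP_ca0fc2_an.XC.X3

set_option autoImplicit false
set_option linter.unusedSectionVars false

open Metric Set MeasureTheory Filter Topology
open scoped InnerProductSpace ENNReal ContDiff

namespace Pool.Agent.MPca0fc2.XC

open Pool.Agent.MPca0fc2.PT
open Pool.Agent.MPca0fc2.QT
open Pool.Agent.MPca0fc2.TS
open Pool.Agent.MPca0fc2.TE

variable {E : Type*} [NormedAddCommGroup E] [InnerProductSpace ℂ E]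

variable [FiniteDimensional ℂ E] [MeasurableSpace E] [BorelSpace E]

theorem fr_int (μ : Measure E) [μ.IsAddHaarMeasure] {m : ℕ} (hm : 1 ≤ m)
    (hdim : Module.finrank ℂ E = m + 1) : ∃ C : ℝ, 0 < C ∧ ∀ z : E, ‖z‖ < 1 →
      ∫⁻ x in ball (0 : E) 1, ENNReal.ofReal (‖1 - ⟪x, z⟫_ℂ‖ ^ (-((m : ℝ) + 7 / 4))) ∂μ ≤
        ENNReal.ofReal C := by
  have hprop : ProperSpace E := FiniteDimensional.proper ℂ E
  have hfin : IsFiniteMeasure (μ.restrict (ball (0 : E) 1)) :=
    ⟨by rw [Measure.restrict_apply_univ]; exact measure_ball_lt_top⟩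
  set D : ℝ := 4 ^ (m + 2) * μ.real (ball 0 1) with hD
  set V : ℝ := μ.real (ball (0 : E) 1) with hV
  have hV0 : 0 ≤ V := measureReal_nonneg
  have hD0 : 0 ≤ D := by rw [hD]; positivity
  set p : ℝ := (m : ℝ) + 7 / 4 with hp
  have hp0 : 0 < p := by rw [hp]; positivity
  refine ⟨p * (V + 4 * D) + 1, by positivity, fun z hz => ?_⟩
  have hQ : ∀ w ∈ ball (0 : E) 1, 0 < ‖1 - ⟪w, z⟫_ℂ‖ := by
    intro w hw
    rw [mem_ball_zero_iff] at hw
    have h1 : ‖⟪w, z⟫_ℂ‖ ≤ ‖w‖ * ‖z‖ := norm_inner_le_norm w z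
    have h2 := norm_sub_norm_le (1 : ℂ) ⟪w, z⟫_ℂ
    rw [norm_one] at h2
    nlinarith [norm_nonneg w, norm_nonneg z]
  have hcont : Continuous (fun w : E => ‖1 - ⟪w, z⟫_ℂ‖) := by fun_prop
  have hmeas : Measurable (fun w : E => 1 / ‖1 - ⟪w, z⟫_ℂ‖) :=
    measurable_const.div hcont.measurable
  have e0 : ∫⁻ x in ball (0 : E) 1, ENNReal.ofReal (‖1 - ⟪x, z⟫_ℂ‖ ^ (-p)) ∂μ =
      ∫⁻ x in ball (0 : E) 1, ENNReal.ofReal ((1 / ‖1 - ⟪x, z⟫_ℂ‖) ^ p) ∂μ := by
    refine setLIntegral_congr_fun measurableSet_ball fun x hx => ?_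
    have := hQ x hx
    show ENNReal.ofReal (‖1 - ⟪x, z⟫_ℂ‖ ^ (-p)) = ENNReal.ofReal ((1 / ‖1 - ⟪x, z⟫_ℂ‖) ^ p)
    rw [Real.rpow_neg this.le, one_div, Real.inv_rpow this.le]
  rw [e0, lintegral_rpow_eq_lintegral_meas_lt_mul (μ.restrict (ball (0 : E) 1))
    (Eventually.of_forall fun w => by positivity) hmeas.aemeasurable hp0]
  have hb : ∀ s ∈ Ioi (0 : ℝ), (μ.restrict (ball (0 : E) 1))
      {w | s < 1 / ‖1 - ⟪w, z⟫_ℂ‖} * ENNReal.ofReal (s ^ (p - 1)) ≤
      (Ioc 0 1).indicator (fun _ => ENNReal.ofReal V) s +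
      (Ioi 1).indicator (fun s => ENNReal.ofReal (D * s ^ (-(5 / 4) : ℝ))) s := by
    intro s hs
    have hs0 : (0 : ℝ) < s := hs
    by_cases hst : s ≤ 1
    · rw [indicator_of_mem (show s ∈ Ioc (0 : ℝ) 1 from ⟨hs0, hst⟩)]
      refine le_trans ?_ (le_add_of_nonneg_right zero_le)
      have h1 : (μ.restrict (ball (0 : E) 1)) {w | s < 1 / ‖1 - ⟪w, z⟫_ℂ‖} ≤
          ENNReal.ofReal V := by
        rw [hV, measureReal_def, ENNReal.ofReal_toReal measure_ball_lt_top.ne]
        refine (measure_mono (subset_univ _)).trans ?_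
        rw [Measure.restrict_apply_univ]
      have h2 : ENNReal.ofReal (s ^ (p - 1)) ≤ 1 := by
        rw [← ENNReal.ofReal_one]
        apply ENNReal.ofReal_le_ofReal
        apply Real.rpow_le_one hs0.le hst
        rw [hp]
        have : (0 : ℝ) ≤ m := Nat.cast_nonneg m
        linarith
      calc _ ≤ ENNReal.ofReal V * 1 := mul_le_mul' h1 h2
        _ = _ := mul_one _
    · push Not at hst
      rw [indicator_of_mem (show s ∈ Ioi (1 : ℝ) from hst)]
      refine le_trans ?_ (le_add_of_nonneg_left zero_le)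
      have h1 : (μ.restrict (ball (0 : E) 1)) {w | s < 1 / ‖1 - ⟪w, z⟫_ℂ‖} ≤
          ENNReal.ofReal (D * (1 / s) ^ (m + 2)) := by
        calc (μ.restrict (ball (0 : E) 1)) {w | s < 1 / ‖1 - ⟪w, z⟫_ℂ‖}
            ≤ (μ.restrict (ball (0 : E) 1)) {w | ‖1 - ⟪w, z⟫_ℂ‖ < 1 / s} := by
              apply measure_mono
              intro w (hw : s < 1 / ‖1 - ⟪w, z⟫_ℂ‖)
              show ‖1 - ⟪w, z⟫_ℂ‖ < 1 / s
              have hw0 : 0 < ‖1 - ⟪w, z⟫_ℂ‖ := by
                by_contra hcon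
                have h0 : ‖1 - ⟪w, z⟫_ℂ‖ = 0 := le_antisymm (not_lt.1 hcon) (norm_nonneg _)
                rw [h0, div_zero] at hw
                linarith
              rw [lt_div_iff₀ hw0] at hw
              rw [lt_div_iff₀ hs0]
              linarith
          _ = ENNReal.ofReal ((μ.restrict (ball (0 : E) 1)).real
              {w | ‖1 - ⟪w, z⟫_ℂ‖ < 1 / s}) := by
              rw [measureReal_def, ENNReal.ofReal_toReal (measure_ne_top _ _)]
          _ ≤ _ := ENNReal.ofReal_le_ofReal (SD.vol_est μ m hm hdim hz.le (by positivity))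
      calc _ ≤ ENNReal.ofReal (D * (1 / s) ^ (m + 2)) * ENNReal.ofReal (s ^ (p - 1)) := by
            gcongr
        _ = ENNReal.ofReal (D * s ^ (-(5 / 4) : ℝ)) := by
            rw [← ENNReal.ofReal_mul (by positivity)]
            congr 1
            rw [mul_assoc]
            congr 1
            have e1 : (1 / s) ^ (m + 2) = s ^ (-(m + 2 : ℝ)) := by
              rw [Real.rpow_neg hs0.le, one_div, inv_pow]
              congr 1
              exact_mod_cast (Real.rpow_natCast s (m + 2)).symm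
            rw [e1, ← Real.rpow_add hs0]
            congr 1
            rw [hp]; ring
  have hI : ∫⁻ s in Ioi (0 : ℝ), ((Ioc 0 1).indicator (fun _ => ENNReal.ofReal V) s +
      (Ioi 1).indicator (fun s => ENNReal.ofReal (D * s ^ (-(5 / 4) : ℝ))) s) ≤
      ENNReal.ofReal (V + 4 * D) := by
    rw [lintegral_add_left (measurable_const.indicator measurableSet_Ioc)]
    rw [ENNReal.ofReal_add hV0 (by positivity)]
    apply add_le_add
    · rw [lintegral_indicator measurableSet_Ioc, Measure.restrict_restrict measurableSet_Ioc,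
        lintegral_const, Measure.restrict_apply_univ]
      calc ENNReal.ofReal V * volume (Ioc (0 : ℝ) 1 ∩ Ioi 0) ≤
            ENNReal.ofReal V * volume (Ioc (0 : ℝ) 1) := by
            gcongr
            exact inter_subset_left
        _ = ENNReal.ofReal V := by simp
    · rw [lintegral_indicator measurableSet_Ioi, Measure.restrict_restrict measurableSet_Ioi]
      have e1 : Ioi (1 : ℝ) ∩ Ioi 0 = Ioi 1 := by
        rw [inter_eq_left]
        exact Ioi_subset_Ioi zero_le_one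
      rw [e1, ← ofReal_integral_eq_lintegral_ofReal]
      · apply ENNReal.ofReal_le_ofReal
        rw [integral_const_mul, integral_Ioi_rpow_of_lt (by norm_num) one_pos]
        norm_num
        linarith
      · exact (integrableOn_Ioi_rpow_of_lt (by norm_num) one_pos).const_mul D
      · refine (ae_restrict_iff' measurableSet_Ioi).mpr (Eventually.of_forall fun s hs => ?_)
        have : (0 : ℝ) < s := lt_trans one_pos hs
        positivity
  calc ENNReal.ofReal p * ∫⁻ s in Ioi (0 : ℝ), ((μ.restrict (ball (0 : E) 1))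
        {w | s < 1 / ‖1 - ⟪w, z⟫_ℂ‖} * ENNReal.ofReal (s ^ (p - 1)))
      ≤ ENNReal.ofReal p * ENNReal.ofReal (V + 4 * D) :=
        mul_le_mul_right ((setLIntegral_mono' measurableSet_Ioi hb).trans hI) _
    _ = ENNReal.ofReal (p * (V + 4 * D)) := by rw [← ENNReal.ofReal_mul hp0.le]
    _ ≤ _ := ENNReal.ofReal_le_ofReal (by linarith)

end Pool.Agent.MPca0fc2.XC
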