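import Mathlib
import Pool.Agent.Lib.MP_ca0fc2_an.XC.Defs
import Pool.Agent.Lib.MP_ca0fc2_an.XC.X5

set_option autoImplicit false
set_option linter.unusedSectionVars false

open Metric Set MeasureTheory Filter Topology
open scoped InnerProductSpace ENNReal ContDiff

namespace Pool.Agent.MPca0fc2.XC

open Pool.Agent.MPca0fc2.PT
open Pool.Agent.MPca0fc2.QT
open Pool.Agent.MPca0fc2.TS
open Pool.Agent.MPca0fc2.TE

variable {E : Type*} [NormedAddCommGroup E] [InnerProductSpace ℂ E]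

variable [FiniteDimensional ℂ E] [MeasurableSpace E] [BorelSpace E]

/-- The potential is bounded. Proof: `PP_nuX`, `1 - ‖x‖² ≤ 2 ‖1 - ⟪x, z⟫‖` (as
`‖1 - ⟪x, z⟫‖ ≥ 1 - ‖x‖`), so `(1 - ‖x‖²)^4 (1 - ‖x‖²)^(1/4) ‖1 - ⟪x, z⟫‖^(-(m+6)) ≤ 32 ‖1 - ⟪x, z⟫‖^(-(m + 7/4))`,
and `fr_int`. -/
theorem PP_bd (μ : Measure E) [μ.IsAddHaarMeasure] {m : ℕ} (hm : 1 ≤ m)
    (hdim : Module.finrank ℂ E = m + 1) : ∃ C : ℝ, 0 < C ∧ ∀ A : ℝ, 0 ≤ A → ∀ U : Set E,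
      MeasurableSet U → ∀ z : E, ‖z‖ < 1 → PP (nuX μ A U) ((m + 6 : ℕ) : ℝ) z ≤ C * A := by
  obtain ⟨C, hC, hb⟩ := fr_int μ hm hdim
  refine ⟨32 * C, by positivity, fun A hA U hU z hz => ?_⟩
  rw [PP_nuX μ hA hU]
  obtain ⟨f, hf⟩ : ∃ f : E → ℝ, f = fun x => A * ((1 - ‖x‖ ^ 2) ^ 4 * (1 - ‖x‖ ^ 2) ^ (1 / 4 : ℝ)) *
    ‖1 - ⟪x, z⟫_ℂ‖ ^ (-((m + 6 : ℕ) : ℝ)) := ⟨_, rfl⟩
  have hpt : ∀ x ∈ ball (0 : E) 1 ∩ U, ENNReal.ofReal ‖f x‖ ≤ ENNReal.ofReal (32 * A) *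
      ENNReal.ofReal (‖1 - ⟪x, z⟫_ℂ‖ ^ (-((m : ℝ) + 7 / 4))) := by
    intro x hx
    have hx1 : ‖x‖ < 1 := by simpa using hx.1
    have hx0 : 0 ≤ ‖x‖ := norm_nonneg x
    have hin : ‖⟪x, z⟫_ℂ‖ ≤ ‖x‖ := by
      have h1 := norm_inner_le_norm (𝕜 := ℂ) x z
      nlinarith [norm_nonneg z]
    have ht1 : 1 - ‖x‖ ≤ ‖1 - ⟪x, z⟫_ℂ‖ := by
      have h1 := norm_sub_norm_le (1 : ℂ) ⟪x, z⟫_ℂ
      rw [norm_one] at h1
      linarith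
    obtain ⟨t, ht⟩ : ∃ t : ℝ, t = ‖1 - ⟪x, z⟫_ℂ‖ := ⟨_, rfl⟩
    obtain ⟨y, hy⟩ : ∃ y : ℝ, y = 1 - ‖x‖ ^ 2 := ⟨_, rfl⟩
    have ht0 : 0 < t := by
      rw [ht]
      linarith
    have hy0 : 0 < y := by
      rw [hy]
      nlinarith
    have hyt : y ≤ 2 * t := by
      rw [hy, ht]
      nlinarith
    rw [hf]
    simp only
    rw [← ht, ← hy, ← ENNReal.ofReal_mul (by positivity), Real.norm_of_nonneg (by positivity)]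
    refine ENNReal.ofReal_le_ofReal ?_
    have e1 : y ^ 4 * y ^ (1 / 4 : ℝ) ≤ 32 * t ^ (17 / 4 : ℝ) := by
      have a1 : y ^ 4 * y ^ (1 / 4 : ℝ) = y ^ (17 / 4 : ℝ) := by
        rw [← Real.rpow_natCast, ← Real.rpow_add hy0]
        norm_num
      rw [a1]
      have a2 : y ^ (17 / 4 : ℝ) ≤ (2 * t) ^ (17 / 4 : ℝ) := Real.rpow_le_rpow hy0.le hyt (by norm_num)
      have a3 : (2 * t) ^ (17 / 4 : ℝ) = 2 ^ (17 / 4 : ℝ) * t ^ (17 / 4 : ℝ) :=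
        Real.mul_rpow (by norm_num) ht0.le
      have a4 : (2 : ℝ) ^ (17 / 4 : ℝ) ≤ 32 := by
        have b1 : (2 : ℝ) ^ (17 / 4 : ℝ) ≤ (2 : ℝ) ^ (5 : ℝ) :=
          Real.rpow_le_rpow_of_exponent_le (by norm_num) (by norm_num)
        have b2 : (2 : ℝ) ^ (5 : ℝ) = 32 := by
          rw [show (5 : ℝ) = ((5 : ℕ) : ℝ) by norm_num, Real.rpow_natCast]
          norm_num
        linarith
      have a5 : 0 ≤ t ^ (17 / 4 : ℝ) := by positivity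
      nlinarith
    have e2 : t ^ (17 / 4 : ℝ) * t ^ (-((m + 6 : ℕ) : ℝ)) = t ^ (-((m : ℝ) + 7 / 4)) := by
      rw [← Real.rpow_add ht0]
      congr 1
      push_cast
      ring
    have e3 : 0 ≤ t ^ (-((m + 6 : ℕ) : ℝ)) := by positivity
    calc A * (y ^ 4 * y ^ (1 / 4 : ℝ)) * t ^ (-((m + 6 : ℕ) : ℝ))
        ≤ A * (32 * t ^ (17 / 4 : ℝ)) * t ^ (-((m + 6 : ℕ) : ℝ)) := by gcongr
      _ = 32 * A * (t ^ (17 / 4 : ℝ) * t ^ (-((m + 6 : ℕ) : ℝ))) := by ring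
      _ = 32 * A * t ^ (-((m : ℝ) + 7 / 4)) := by rw [e2]
  have hl : ∫⁻ x in ball (0 : E) 1 ∩ U, ENNReal.ofReal ‖f x‖ ∂μ ≤ ENNReal.ofReal (32 * A * C) := by
    calc ∫⁻ x in ball (0 : E) 1 ∩ U, ENNReal.ofReal ‖f x‖ ∂μ
        ≤ ∫⁻ x in ball (0 : E) 1 ∩ U, ENNReal.ofReal (32 * A) *
          ENNReal.ofReal (‖1 - ⟪x, z⟫_ℂ‖ ^ (-((m : ℝ) + 7 / 4))) ∂μ :=
          setLIntegral_mono' (measurableSet_ball.inter hU) hpt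
      _ ≤ ∫⁻ x in ball (0 : E) 1, ENNReal.ofReal (32 * A) *
          ENNReal.ofReal (‖1 - ⟪x, z⟫_ℂ‖ ^ (-((m : ℝ) + 7 / 4))) ∂μ :=
          lintegral_mono_set inter_subset_left
      _ = ENNReal.ofReal (32 * A) * ∫⁻ x in ball (0 : E) 1,
          ENNReal.ofReal (‖1 - ⟪x, z⟫_ℂ‖ ^ (-((m : ℝ) + 7 / 4))) ∂μ :=
          lintegral_const_mul' _ _ ENNReal.ofReal_ne_top
      _ ≤ ENNReal.ofReal (32 * A) * ENNReal.ofReal C := by gcongr; exact hb z hz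
      _ = ENNReal.ofReal (32 * A * C) := (ENNReal.ofReal_mul (by positivity)).symm
  have h1 : ∫ x in ball (0 : E) 1 ∩ U, f x ∂μ ≤ 32 * A * C := by
    refine (le_abs_self _).trans ?_
    rw [← Real.norm_eq_abs]
    refine (norm_integral_le_lintegral_norm f).trans ?_
    exact ENNReal.toReal_le_of_le_ofReal (by positivity) hl
  rw [hf] at h1
  calc _ ≤ 32 * A * C := h1
    _ = 32 * C * A := by ring

end Pool.Agent.MPca0fc2.XC
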