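import Mathlib
import Pool.Agent.Lib.MP_ca0fc2_an.XC.Defs
import Pool.Agent.Lib.MP_ca0fc2_an.XC.X3
import Pool.Agent.Lib.MP_ca0fc2_an.TS.PoA

set_option autoImplicit false
set_option linter.unusedSectionVars false

open Metric Set MeasureTheory Filter Topology
open scoped InnerProductSpace ENNReal ContDiff

namespace Pool.Agent.MPca0fc2.XC

open Pool.Agent.MPca0fc2.PT
open Pool.Agent.MPca0fc2.QT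
open Pool.Agent.MPca0fc2.TS
open Pool.Agent.MPca0fc2.TE

variable {E : Type*} [NormedAddCommGroup E] [InnerProductSpace ℂ E]

variable [FiniteDimensional ℂ E] [MeasurableSpace E] [BorelSpace E]

/-- The potential is small away from a flat set: the integrand of `PP_nuX` is at most `A r^4 κ^(-(m+6))`
(for `x` in the ball `0 < 1 - ‖x‖² ≤ 1`, so `(1 - ‖x‖²)^(1/4) ≤ 1`). -/
theorem PP_small (μ : Measure E) [μ.IsAddHaarMeasure] {m : ℕ} : ∃ C : ℝ, 0 < C ∧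
    ∀ A : ℝ, 0 ≤ A → ∀ U : Set E, MeasurableSet U → ∀ r κ : ℝ, 0 < κ →
      (∀ x ∈ ball (0 : E) 1 ∩ U, 1 - ‖x‖ ^ 2 ≤ r) → ∀ z : E, ‖z‖ < 1 →
      (∀ x ∈ ball (0 : E) 1 ∩ U, κ ≤ ‖1 - ⟪x, z⟫_ℂ‖) →
      PP (nuX μ A U) ((m + 6 : ℕ) : ℝ) z ≤ C * A * r ^ 4 / κ ^ (m + 6) := by
  refine ⟨μ.real (ball (0 : E) 1) + 1, by positivity, ?_⟩
  intro A hA U hU r κ hκ hr z hz hκx
  rw [PP_nuX μ hA hU]
  have hfin : μ (ball (0 : E) 1) < ⊤ := measure_ball_lt_top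
  have hfin2 : μ (ball (0 : E) 1 ∩ U) < ⊤ := (measure_mono inter_subset_left).trans_lt hfin
  have hb : ∀ x ∈ ball (0 : E) 1 ∩ U,
      ‖A * ((1 - ‖x‖ ^ 2) ^ 4 * (1 - ‖x‖ ^ 2) ^ (1 / 4 : ℝ)) *
        ‖1 - ⟪x, z⟫_ℂ‖ ^ (-((m + 6 : ℕ) : ℝ))‖ ≤ A * r ^ 4 / κ ^ (m + 6) := by
    intro x hx
    have hx1 : ‖x‖ < 1 := by simpa using hx.1
    have h0 : 0 ≤ 1 - ‖x‖ ^ 2 := by nlinarith [norm_nonneg x]
    have h1 : 1 - ‖x‖ ^ 2 ≤ 1 := by nlinarith [norm_nonneg x]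
    have h2 : (1 - ‖x‖ ^ 2) ^ 4 ≤ r ^ 4 := pow_le_pow_left₀ h0 (hr x hx) 4
    have h3 : (1 - ‖x‖ ^ 2) ^ (1 / 4 : ℝ) ≤ 1 := Real.rpow_le_one h0 h1 (by norm_num)
    have h30 : 0 ≤ (1 - ‖x‖ ^ 2) ^ (1 / 4 : ℝ) := Real.rpow_nonneg h0 _
    have hk := hκx x hx
    have h4 : ‖1 - ⟪x, z⟫_ℂ‖ ^ (-((m + 6 : ℕ) : ℝ)) ≤ (κ ^ (m + 6))⁻¹ := by
      rw [Real.rpow_neg (norm_nonneg _), Real.rpow_natCast]
      exact inv_anti₀ (by positivity) (pow_le_pow_left₀ hκ.le hk _)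
    have h40 : 0 ≤ ‖1 - ⟪x, z⟫_ℂ‖ ^ (-((m + 6 : ℕ) : ℝ)) := Real.rpow_nonneg (norm_nonneg _) _
    have h5 : (1 - ‖x‖ ^ 2) ^ 4 * (1 - ‖x‖ ^ 2) ^ (1 / 4 : ℝ) ≤ r ^ 4 * 1 :=
      mul_le_mul h2 h3 h30 (by positivity)
    have h50 : 0 ≤ (1 - ‖x‖ ^ 2) ^ 4 * (1 - ‖x‖ ^ 2) ^ (1 / 4 : ℝ) := by positivity
    rw [Real.norm_of_nonneg (mul_nonneg (mul_nonneg hA h50) h40)]
    calc A * ((1 - ‖x‖ ^ 2) ^ 4 * (1 - ‖x‖ ^ 2) ^ (1 / 4 : ℝ)) *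
        ‖1 - ⟪x, z⟫_ℂ‖ ^ (-((m + 6 : ℕ) : ℝ))
        ≤ A * (r ^ 4 * 1) * (κ ^ (m + 6))⁻¹ :=
          mul_le_mul (mul_le_mul_of_nonneg_left h5 hA) h4 h40 (by positivity)
      _ = A * r ^ 4 / κ ^ (m + 6) := by rw [mul_one, div_eq_mul_inv]
  have h6 := norm_setIntegral_le_of_norm_le_const hfin2 hb
  have h7 : μ.real (ball (0 : E) 1 ∩ U) ≤ μ.real (ball (0 : E) 1) + 1 := by
    have := measureReal_mono (μ := μ) (inter_subset_left : ball (0 : E) 1 ∩ U ⊆ ball 0 1)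
      hfin.ne
    linarith
  have h80 : 0 ≤ A * r ^ 4 / κ ^ (m + 6) := by positivity
  calc _ ≤ _ := le_trans (le_abs_self _) h6
    _ ≤ A * r ^ 4 / κ ^ (m + 6) * (μ.real (ball (0 : E) 1) + 1) :=
        mul_le_mul_of_nonneg_left h7 h80
    _ = _ := by ring

/-- The weight and the potential: `(1 - ‖y‖²)^(1/4) ≤ (2 ‖1 - ⟪x, y⟫‖)^(1/4)` for `x` in the ball. -/
theorem Om_le_PP {ν : Measure E} (hν : OnB ν) (M : ℕ) {y : E} (hy : ‖y‖ < 1) :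
    Om ν M y ≤ 2 * PP ν M y := by
  have hy0 : 0 ≤ 1 - ‖y‖ ^ 2 := by nlinarith [norm_nonneg y]
  have i1 : Integrable (fun x => ‖1 - ⟪x, y⟫_ℂ‖ ^ (-((M : ℝ) + 1 / 4))) ν :=
    PP_int hν (by positivity) hy
  have i2 : Integrable (fun x => ‖1 - ⟪x, y⟫_ℂ‖ ^ (-(M : ℝ))) ν :=
    PP_int hν (by positivity) hy
  unfold Om PP
  rw [← integral_const_mul, ← integral_const_mul]
  refine integral_mono_ae (i1.const_mul _) (i2.const_mul _) ?_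
  have hae : ∀ᵐ x ∂ν, x ∈ ball (0 : E) 1 := by
    rw [ae_iff]
    exact hν.supp
  filter_upwards [hae] with x hx
  have hx1 : ‖x‖ < 1 := by simpa using hx
  have h1 : ‖⟪x, y⟫_ℂ‖ ≤ ‖y‖ := by
    refine (norm_inner_le_norm x y).trans ?_
    nlinarith [norm_nonneg x, norm_nonneg y]
  have h2 : 1 - ‖y‖ ≤ ‖1 - ⟪x, y⟫_ℂ‖ := by
    have := norm_sub_norm_le (1 : ℂ) ⟪x, y⟫_ℂ
    rw [norm_one] at this
    linarith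
  have h0 : 0 < ‖1 - ⟪x, y⟫_ℂ‖ := by linarith
  have h3 : 1 - ‖y‖ ^ 2 ≤ 2 * ‖1 - ⟪x, y⟫_ℂ‖ := by nlinarith [norm_nonneg y]
  have h4 : (1 - ‖y‖ ^ 2) ^ (1 / 4 : ℝ) ≤ 2 * ‖1 - ⟪x, y⟫_ℂ‖ ^ (1 / 4 : ℝ) := by
    refine (Real.rpow_le_rpow hy0 h3 (by norm_num)).trans ?_
    rw [Real.mul_rpow (by norm_num) h0.le]
    refine mul_le_mul_of_nonneg_right ?_ (Real.rpow_nonneg h0.le _)
    calc (2 : ℝ) ^ (1 / 4 : ℝ) ≤ 2 ^ (1 : ℝ) :=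
          Real.rpow_le_rpow_of_exponent_le (by norm_num) (by norm_num)
      _ = 2 := Real.rpow_one _
  have h5 : ‖1 - ⟪x, y⟫_ℂ‖ ^ (1 / 4 : ℝ) * ‖1 - ⟪x, y⟫_ℂ‖ ^ (-((M : ℝ) + 1 / 4)) =
      ‖1 - ⟪x, y⟫_ℂ‖ ^ (-(M : ℝ)) := by
    rw [← Real.rpow_add h0]
    congr 1
    ring
  calc (1 - ‖y‖ ^ 2) ^ (1 / 4 : ℝ) * ‖1 - ⟪x, y⟫_ℂ‖ ^ (-((M : ℝ) + 1 / 4))
      ≤ 2 * ‖1 - ⟪x, y⟫_ℂ‖ ^ (1 / 4 : ℝ) * ‖1 - ⟪x, y⟫_ℂ‖ ^ (-((M : ℝ) + 1 / 4)) :=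
        mul_le_mul_of_nonneg_right h4 (Real.rpow_nonneg h0.le _)
    _ = 2 * ‖1 - ⟪x, y⟫_ℂ‖ ^ (-(M : ℝ)) := by rw [mul_assoc, h5]

end Pool.Agent.MPca0fc2.XC
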