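import Mathlib
import Pool.Agent.Lib.MP_ca0fc2_an.XC.Defs
import Pool.Agent.Lib.MP_ca0fc2_an.TE.V0
import Pool.Agent.Lib.MP_ca0fc2_an.XC.X1
import Pool.Agent.Lib.MP_ca0fc2_an.XC.X4
import Pool.Agent.Lib.MP_ca0fc2_an.XC.X6
import Pool.Agent.Lib.MP_ca0fc2_an.XC.X6b
import Pool.Agent.Lib.MP_ca0fc2_an.XC.X10
import Pool.Agent.Lib.MP_ca0fc2_an.XC.X11

set_option autoImplicit false
set_option linter.unusedSectionVars false

open Metric Set MeasureTheory Filter Topology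
open scoped InnerProductSpace ENNReal ContDiff

namespace Pool.Agent.MPca0fc2.XC

open Pool.Agent.MPca0fc2.PT
open Pool.Agent.MPca0fc2.QT
open Pool.Agent.MPca0fc2.TS
open Pool.Agent.MPca0fc2.TE

variable {E : Type*} [NormedAddCommGroup E] [InnerProductSpace ℂ E]

/-- The derivative of a product of a cut-off function and a holomorphic function. `χ ≥ 0` is minimal
(`= 0`) where `2 r ≤ infDist z K`, so its derivative vanishes there (`IsLocalMin.fderiv_eq_zero`);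
`‖v‖ ≤ √(1 - ‖z‖²) gau (1 - ‖z‖²) z v`. -/
theorem D01_cut {K : Set E} {χ : E → ℝ} {r C Cu : ℝ} (hr : 0 < r) (hC : 0 ≤ C) (hCu : 0 ≤ Cu)
    (h1 : ContDiff ℝ 2 χ) (h2 : ∀ x, 0 ≤ χ x ∧ χ x ≤ 1)
    (h3 : ∀ x, 2 * r ≤ infDist x K → χ x = 0) (h4 : ∀ x, ‖fderiv ℝ χ x‖ ≤ C / r) {u : E → ℂ}
    (hu : DifferentiableOn ℂ u (ball 0 1))
    (hub : ∀ z ∈ ball (0 : E) 1, ‖u z‖ ≤ Cu * (1 - ‖z‖ ^ 2) ^ (-(1 / 4) : ℝ)) {z : E}
    (hz : ‖z‖ < 1) (v : E) :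
    (2 * r ≤ infDist z K → D01 (fun z => ((χ z : ℝ) : ℂ) * u z) z v = 0) ∧
      ‖D01 (fun z => ((χ z : ℝ) : ℂ) * u z) z v‖ ≤
        C * Cu / r * (1 - ‖z‖ ^ 2) ^ (1 / 4 : ℝ) * gau (1 - ‖z‖ ^ 2) z v := by
  have hd : 0 < 1 - ‖z‖ ^ 2 := by
    have := norm_nonneg z
    nlinarith
  have hχ : DifferentiableAt ℝ χ z := (h1.differentiable (by norm_num)) z
  have huz : DifferentiableAt ℂ u z :=
    (hu z (by simpa using hz)).differentiableAt (isOpen_ball.mem_nhds (by simpa using hz))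
  have hq : HasFDerivAt (fun w => ((χ w : ℝ) : ℂ))
      (Complex.ofRealCLM.comp (fderiv ℝ χ z)) z :=
    Complex.ofRealCLM.hasFDerivAt.comp z hχ.hasFDerivAt
  have hmain : D01 (fun z => ((χ z : ℝ) : ℂ) * u z) z v =
      D01 (fun w => ((χ w : ℝ) : ℂ)) z v * u z := by
    have e := D01_smul (q := fun w => ((χ w : ℝ) : ℂ)) (σ := u) (w := z)
      hq.differentiableAt (huz.restrictScalars ℝ) v
    rw [D01_holo huz] at e
    simpa [smul_eq_mul] using e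
  have hD : D01 (fun w => ((χ w : ℝ) : ℂ)) z v =
      (2⁻¹ : ℂ) * (((fderiv ℝ χ z v : ℝ) : ℂ) +
        Complex.I * ((fderiv ℝ χ z (Complex.I • v) : ℝ) : ℂ)) := by
    rw [D01_apply, hq.fderiv]
    simp [smul_eq_mul]
  constructor
  · intro h
    have h0 : fderiv ℝ χ z = 0 := by
      apply IsLocalMin.fderiv_eq_zero
      refine Filter.Eventually.of_forall fun x => ?_
      rw [h3 z h]
      exact (h2 x).1
    rw [hmain, hD, h0]
    simp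
  · have hv : ‖D01 (fun w => ((χ w : ℝ) : ℂ)) z v‖ ≤ C / r * ‖v‖ := by
      rw [hD, norm_mul]
      have a1 : ‖((fderiv ℝ χ z v : ℝ) : ℂ)‖ ≤ C / r * ‖v‖ := by
        rw [Complex.norm_real]
        exact ((fderiv ℝ χ z).le_opNorm v).trans
          (mul_le_mul_of_nonneg_right (h4 z) (norm_nonneg v))
      have a2 : ‖Complex.I * ((fderiv ℝ χ z (Complex.I • v) : ℝ) : ℂ)‖ ≤ C / r * ‖v‖ := by
        rw [norm_mul, Complex.norm_I, one_mul, Complex.norm_real]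
        have := (fderiv ℝ χ z).le_opNorm (Complex.I • v)
        rw [norm_smul, Complex.norm_I, one_mul] at this
        exact this.trans (mul_le_mul_of_nonneg_right (h4 z) (norm_nonneg v))
      have a3 := norm_add_le ((fderiv ℝ χ z v : ℝ) : ℂ)
        (Complex.I * ((fderiv ℝ χ z (Complex.I • v) : ℝ) : ℂ))
      have a4 : ‖(2⁻¹ : ℂ)‖ = 2⁻¹ := by simp
      rw [a4]
      linarith
    have hg : ‖v‖ ≤ Real.sqrt (1 - ‖z‖ ^ 2) * gau (1 - ‖z‖ ^ 2) z v := by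
      have hs : 0 < Real.sqrt (1 - ‖z‖ ^ 2) := Real.sqrt_pos.2 hd
      unfold gau
      rw [mul_add]
      have b1 : 0 ≤ Real.sqrt (1 - ‖z‖ ^ 2) * (‖⟪z, v⟫_ℂ‖ / (1 - ‖z‖ ^ 2)) := by positivity
      have b2 : Real.sqrt (1 - ‖z‖ ^ 2) * (‖v‖ / Real.sqrt (1 - ‖z‖ ^ 2)) = ‖v‖ := by
        field_simp
      linarith
    rw [hmain, norm_mul]
    have c1 := hub z (by simpa using hz)
    have c2 : (1 - ‖z‖ ^ 2) ^ (-(1 / 4) : ℝ) * Real.sqrt (1 - ‖z‖ ^ 2) =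
        (1 - ‖z‖ ^ 2) ^ (1 / 4 : ℝ) := by
      rw [Real.sqrt_eq_rpow, ← Real.rpow_add hd]
      norm_num
    have c3 : 0 ≤ (1 - ‖z‖ ^ 2) ^ (-(1 / 4) : ℝ) := by positivity
    have c0 : 0 ≤ C / r := by positivity
    calc ‖D01 (fun w => ((χ w : ℝ) : ℂ)) z v‖ * ‖u z‖
        ≤ (C / r * ‖v‖) * (Cu * (1 - ‖z‖ ^ 2) ^ (-(1 / 4) : ℝ)) :=
          mul_le_mul hv c1 (norm_nonneg _) (by positivity)
      _ ≤ (C / r * (Real.sqrt (1 - ‖z‖ ^ 2) * gau (1 - ‖z‖ ^ 2) z v)) *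
            (Cu * (1 - ‖z‖ ^ 2) ^ (-(1 / 4) : ℝ)) :=
          mul_le_mul_of_nonneg_right (mul_le_mul_of_nonneg_left hg c0) (by positivity)
      _ = C * Cu / r * ((1 - ‖z‖ ^ 2) ^ (-(1 / 4) : ℝ) * Real.sqrt (1 - ‖z‖ ^ 2)) *
            gau (1 - ‖z‖ ^ 2) z v := by ring
      _ = _ := by rw [c2]

end Pool.Agent.MPca0fc2.XC
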