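import Mathlib
import Pool.Agent.Lib.MP_ca0fc2_an.XC.Defs
import Pool.Agent.Lib.MP_ca0fc2_an.XC.X12
import Pool.Agent.Lib.MP_ca0fc2_an.Mg.G051

set_option autoImplicit false
set_option linter.unusedSectionVars false

open Metric Set MeasureTheory Filter Topology
open scoped InnerProductSpace ENNReal ContDiff

namespace Pool.Agent.MPca0fc2.XC

open Pool.Agent.MPca0fc2.PT
open Pool.Agent.MPca0fc2.QT
open Pool.Agent.MPca0fc2.TS
open Pool.Agent.MPca0fc2.TE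

variable {E : Type*} [NormedAddCommGroup E] [InnerProductSpace ℂ E]

variable [FiniteDimensional ℂ E] [MeasurableSpace E] [BorelSpace E]

/-- Holomorphic approximation of `χ u`, `χ` a cut-off function near the compact set `K` of the sphere. The
constants, `r` and `χ` do not depend on `u`.
Proof. Constants: `Cχ` (`cutoff`), `c` (`Om_low`), `C₁` (`PP_bd`), `C₂` (`PP_small`), `C₃` (`scalar_sol` with `M = m + 6`),
`C₄` (`GI_zero`, TE/V0.lean, with `M = m + 6`). For `0 < r ≤ 1` with `6 √r ≤ ε/2` and `2 r ≤ ε`: `χ` from `cutoff` for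
`K`, `r`; `U = {x | infDist x K < 6 √r}` (open), `A = Cχ Cu/(c r)`, `ν = nuX μ A U` (`nuX_OnB`), `N z = χ z * u z` (of class `C²` on the ball:
`χ` is, and holomorphic functions are smooth: `DifferentiableOn.contDiffOn` on the open ball with `restrictScalars`, see how TE/B7.lean or
TS/ do it, e.g. `holo_c2`). Estimate of `D01 N`: it is `0` if `2 r ≤ infDist z K`. If `infDist z K < 2 r`: `1 - ‖z‖² ≤ 4 r` (`depth_le`), so by `hyp_ball`
for `‖x‖ < 1/2`: `‖gg z x - z‖ ≤ 4 √r`, `infDist (gg z x) K < 2 r + 4 √r ≤ 6 √r`, `gg z x ∈ U`, and `Om_low` gives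
`c A (1 - ‖z‖²)^(1/4) ≤ Om ν (m + 6) z`; with `D01_cut`: `‖D01 N z v‖ ≤ 1 * Om ν (m + 6) z * gau (1 - ‖z‖²) z v`. `scalar_sol` with `B = 1`
gives `G`, `‖G z - N z‖ ≤ C₃ (Om + GI (Om) 0) ≤ C₃ (2 + C₄) PP ν (m + 6) z` (`Om_le_PP`, `GI_zero`) `≤ C₃ (2 + C₄) C₁ A` (`PP_bd`). If
`ε ≤ infDist z K`: `N z = 0`, for `x ∈ U` in the ball: `1 - ‖x‖² ≤ 12 √r` (`depth_le`), `‖x - z‖ ≥ ε/2`, so
`‖1 - ⟪x, z⟫‖ ≥ ε²/8` (`dist_sq_le`), and `PP_small` gives `‖G z‖ ≤ C₃ (2 + C₄) C₂ A (12 √r)^4/(ε²/8)^(m+6) = const * r`, which is `≤ ε` if `r` is small. -/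
theorem cut_sol (μ : Measure E) [μ.IsAddHaarMeasure] {m : ℕ} (hm : 1 ≤ m)
    (hdim : Module.finrank ℂ E = m + 1) {K : Set E} (hK : K ⊆ sphere 0 1) (hne : K.Nonempty)
    {Cu ε : ℝ} (hCu : 0 ≤ Cu) (hε : 0 < ε) :
    ∃ (r C : ℝ) (χ : E → ℝ), 0 < r ∧ 0 ≤ C ∧ (∀ x, 0 ≤ χ x ∧ χ x ≤ 1) ∧
      (∀ x, infDist x K ≤ r → χ x = 1) ∧ (∀ x, ε ≤ infDist x K → χ x = 0) ∧
      ∀ u : E → ℂ, DifferentiableOn ℂ u (ball 0 1) →
        (∀ z ∈ ball (0 : E) 1, ‖u z‖ ≤ Cu * (1 - ‖z‖ ^ 2) ^ (-(1 / 4) : ℝ)) →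
        ∃ G : E → ℂ, DifferentiableOn ℂ G (ball 0 1) ∧ ∀ z ∈ ball (0 : E) 1,
          ‖G z - (χ z : ℂ) * u z‖ ≤ C ∧ (ε ≤ infDist z K → ‖G z‖ ≤ ε) := by
  obtain ⟨Cχ, hCχ, hcut⟩ := cutoff (E := E)
  obtain ⟨c, hc, hlow⟩ := Om_low μ hdim
  obtain ⟨C₁, hC₁, hbd⟩ := PP_bd μ hm hdim
  obtain ⟨C₂, hC₂, hsm⟩ := PP_small (m := m) μ
  obtain ⟨C₃, hC₃, hsol⟩ := scalar_sol μ hm hdim (m + 6)
  obtain ⟨C₄, hC₄, hGI⟩ := GI_zero (E := E) (M := m + 6) (by omega)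
  obtain ⟨κ₀, hκ₀d⟩ : ∃ κ₀ : ℝ, κ₀ = C₃ * (2 + C₄) *
      (C₂ * (Cχ * Cu / c) * 12 ^ 4 / (ε ^ 2 / 8) ^ (m + 6)) := ⟨_, rfl⟩
  have hκ₀ : 0 ≤ κ₀ := by rw [hκ₀d]; positivity
  obtain ⟨r, hrd⟩ : ∃ r : ℝ, r = min (min 1 ((ε / 12) ^ 2)) (min (ε / 2) (ε / (κ₀ + 1))) :=
    ⟨_, rfl⟩
  have hr : 0 < r := by
    rw [hrd]
    exact lt_min (lt_min one_pos (by positivity)) (lt_min (by positivity) (by positivity))
  have hr1 : r ≤ 1 := by rw [hrd]; exact (min_le_left _ _).trans (min_le_left _ _)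
  have hr2 : r ≤ (ε / 12) ^ 2 := by rw [hrd]; exact (min_le_left _ _).trans (min_le_right _ _)
  have hr3 : r ≤ ε / 2 := by rw [hrd]; exact (min_le_right _ _).trans (min_le_left _ _)
  have hr4 : r ≤ ε / (κ₀ + 1) := by rw [hrd]; exact (min_le_right _ _).trans (min_le_right _ _)
  have hκr : κ₀ * r ≤ ε := by
    have h1 : r * (κ₀ + 1) ≤ ε := by
      rwa [le_div_iff₀ (by positivity)] at hr4
    nlinarith
  obtain ⟨s, hsd⟩ : ∃ s : ℝ, s = Real.sqrt r := ⟨_, rfl⟩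
  have hs0 : 0 ≤ s := by rw [hsd]; exact Real.sqrt_nonneg _
  have hss : s ^ 2 = r := by rw [hsd]; exact Real.sq_sqrt hr.le
  have hs1 : s ≤ 1 := by
    by_contra h
    push Not at h
    nlinarith
  have hrs : r ≤ s := by nlinarith
  have hs2 : s ≤ ε / 12 := by
    rw [hsd]
    exact (Real.sqrt_le_sqrt hr2).trans (le_of_eq (Real.sqrt_sq (by positivity)))
  obtain ⟨χ, hχ1, hχ2, hχ3, hχ4, hχ5⟩ := hcut K hne r hr
  obtain ⟨A, hAd⟩ : ∃ A : ℝ, A = Cχ * Cu / (c * r) := ⟨_, rfl⟩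
  have hA : 0 ≤ A := by rw [hAd]; positivity
  have hcA : c * A = Cχ * Cu / r := by
    rw [hAd]
    field_simp
  obtain ⟨U, hUd⟩ : ∃ U : Set E, U = {x | infDist x K < 6 * s} := ⟨_, rfl⟩
  have hUo : IsOpen U := by
    rw [hUd]
    exact isOpen_lt (continuous_infDist_pt K) continuous_const
  have hUm : MeasurableSet U := hUo.measurableSet
  obtain ⟨ν, hνd⟩ : ∃ ν : Measure E, ν = nuX μ A U := ⟨_, rfl⟩
  have hν : OnB ν := by rw [hνd]; exact nuX_OnB μ hA hUm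
  have hPP0 : ∀ (p : ℝ) (z : E), 0 ≤ PP ν p z := fun p z =>
    integral_nonneg fun x => Real.rpow_nonneg (norm_nonneg _) _
  have hOm0 : ∀ z : E, ‖z‖ < 1 → 0 ≤ Om ν (m + 6) z := fun z hz =>
    mul_nonneg (Real.rpow_nonneg (by nlinarith [norm_nonneg z]) _) (hPP0 _ _)
  have hsum : ∀ z : E, ‖z‖ < 1 → Om ν (m + 6) z + GI (Om ν (m + 6)) (0 : E →L[ℂ] E) z ≤
      (2 + C₄) * PP ν ((m + 6 : ℕ) : ℝ) z := by
    intro z hz
    have h1 := Om_le_PP hν (m + 6) hz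
    have h2 := hGI ν hν z hz
    linarith
  refine ⟨r, C₃ * (2 + C₄) * (C₁ * A), χ, hr, by positivity, hχ2, hχ3,
    fun x hx => hχ4 x (by linarith), fun u hu hub => ?_⟩
  have hD : ∀ z ∈ ball (0 : E) 1, ∀ v, ‖D01 (fun z => ((χ z : ℝ) : ℂ) * u z) z v‖ ≤
      1 * Om ν (m + 6) z * gau (1 - ‖z‖ ^ 2) z v := by
    intro z hz v
    have hz1 : ‖z‖ < 1 := by rwa [mem_ball_zero_iff] at hz
    have hd0 : 0 ≤ 1 - ‖z‖ ^ 2 := by nlinarith [norm_nonneg z]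
    have hg0 : 0 ≤ gau (1 - ‖z‖ ^ 2) z v := by
      unfold gau
      positivity
    have h1 := D01_cut hr hCχ.le hCu hχ1 hχ2 hχ4 hχ5 hu hub hz1 v
    rcases le_or_gt (2 * r) (infDist z K) with h2 | h2
    · rw [h1.1 h2, norm_zero]
      have := hOm0 z hz1
      positivity
    · have hdep : 1 - ‖z‖ ^ 2 ≤ 4 * r := by
        have := depth_le hK hne hz1
        linarith
      have hin : ∀ x : E, ‖x‖ < 1 / 2 → gg z x ∈ U := by
        intro x hx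
        obtain ⟨-, -, -, h3⟩ := hyp_ball hz1 hx
        have h4 : ‖gg z x - z‖ ≤ 4 * s := by
          apply abs_le_of_sq_le_sq' _ (by positivity) |>.2
          calc ‖gg z x - z‖ ^ 2 ≤ 4 * (1 - ‖z‖ ^ 2) := h3
            _ ≤ (4 * s) ^ 2 := by rw [mul_pow, hss]; linarith
        rw [hUd, mem_setOf_eq]
        have h5 : infDist (gg z x) K ≤ infDist z K + dist (gg z x) z :=
          infDist_le_infDist_add_dist
        rw [dist_eq_norm] at h5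
        linarith
      have h6 := hlow A hA U hUm z hz1 hin
      rw [← hνd, hcA] at h6
      calc ‖D01 (fun z => ((χ z : ℝ) : ℂ) * u z) z v‖
          ≤ Cχ * Cu / r * (1 - ‖z‖ ^ 2) ^ (1 / 4 : ℝ) * gau (1 - ‖z‖ ^ 2) z v := h1.2
        _ ≤ 1 * Om ν (m + 6) z * gau (1 - ‖z‖ ^ 2) z v := by
            rw [one_mul]
            exact mul_le_mul_of_nonneg_right h6 hg0
  have hN : ContDiffOn ℝ 2 (fun z => ((χ z : ℝ) : ℂ) * u z) (ball (0 : E) 1) :=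
    (Complex.ofRealCLM.contDiff.comp hχ1).contDiffOn.mul (age_hol_c2 isOpen_ball hu)
  have hb3 : ∀ w ∈ ball (0 : E) 1, Om ν (m + 6) w ≤ 2 * (C₁ * A) := by
    intro w hw
    have hw1 : ‖w‖ < 1 := by rwa [mem_ball_zero_iff] at hw
    have h1 := Om_le_PP hν (m + 6) hw1
    have h2 := hbd A hA U hUm w hw1
    rw [← hνd] at h2
    linarith
  obtain ⟨G, hG, hGN⟩ := hsol ν hν _ hb3 1 zero_le_one _ hN hD
  refine ⟨G, hG, fun z hz => ?_⟩
  have hz1 : ‖z‖ < 1 := by rwa [mem_ball_zero_iff] at hz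
  have h0 : ‖G z - (χ z : ℂ) * u z‖ ≤ C₃ * (2 + C₄) * PP ν ((m + 6 : ℕ) : ℝ) z := by
    refine (hGN z hz).trans ?_
    rw [mul_one, mul_assoc]
    exact mul_le_mul_of_nonneg_left (hsum z hz1) hC₃.le
  refine ⟨?_, fun hzε => ?_⟩
  · have h2 := hbd A hA U hUm z hz1
    rw [← hνd] at h2
    exact h0.trans (mul_le_mul_of_nonneg_left h2 (by positivity))
  · have hχz : χ z = 0 := hχ4 z (by linarith)
    rw [hχz] at h0
    simp only [Complex.ofReal_zero, zero_mul, sub_zero] at h0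
    have h3 : ∀ x ∈ ball (0 : E) 1 ∩ U, 1 - ‖x‖ ^ 2 ≤ 12 * s := by
      intro x hx
      have hx1 : ‖x‖ < 1 := by
        have := hx.1
        rwa [mem_ball_zero_iff] at this
      have hx2 := hx.2
      rw [hUd, mem_setOf_eq] at hx2
      have := depth_le hK hne hx1
      linarith
    have h4 : ∀ x ∈ ball (0 : E) 1 ∩ U, ε ^ 2 / 8 ≤ ‖1 - ⟪x, z⟫_ℂ‖ := by
      intro x hx
      have hx1 : ‖x‖ < 1 := by
        have := hx.1
        rwa [mem_ball_zero_iff] at this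
      have hx2 := hx.2
      rw [hUd, mem_setOf_eq] at hx2
      have h5 : infDist z K ≤ infDist x K + dist z x := infDist_le_infDist_add_dist
      rw [dist_comm, dist_eq_norm] at h5
      have h6 : ε / 2 ≤ ‖x - z‖ := by linarith
      have h7 := dist_sq_le hx1.le hz1.le
      nlinarith
    have h8 := hsm A hA U hUm (12 * s) (ε ^ 2 / 8) (by positivity) h3 z hz1 h4
    rw [← hνd] at h8
    calc ‖G z‖ ≤ C₃ * (2 + C₄) * PP ν ((m + 6 : ℕ) : ℝ) z := h0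
      _ ≤ C₃ * (2 + C₄) * (C₂ * A * (12 * s) ^ 4 / (ε ^ 2 / 8) ^ (m + 6)) :=
          mul_le_mul_of_nonneg_left h8 (by positivity)
      _ = κ₀ * r := by
          have e1 : (12 * s) ^ 4 = 12 ^ 4 * r ^ 2 := by rw [← hss]; ring
          rw [hκ₀d, hAd, e1]
          have hcne : c ≠ 0 := hc.ne'
          have hrne : r ≠ 0 := hr.ne'
          have hεne : (ε ^ 2 / 8) ^ (m + 6) ≠ 0 := by positivity
          field_simp
      _ ≤ ε := hκr

end Pool.Agent.MPca0fc2.XC
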