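import Mathlib
import Pool.Agent.Lib.MP_ca0fc2_an.XC.Defs
import Pool.Agent.Lib.MP_ca0fc2_an.XC.X13

set_option autoImplicit false
set_option linter.unusedSectionVars false

open Metric Set MeasureTheory Filter Topology
open scoped InnerProductSpace ENNReal ContDiff

namespace Pool.Agent.MPca0fc2.XC

open Pool.Agent.MPca0fc2.PT
open Pool.Agent.MPca0fc2.QT
open Pool.Agent.MPca0fc2.TS
open Pool.Agent.MPca0fc2.TE

variable {E : Type*} [NormedAddCommGroup E] [InnerProductSpace ℂ E]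

variable [FiniteDimensional ℂ E] [MeasurableSpace E] [BorelSpace E]

private lemma X14_double {N : ℕ} (a : Fin N → ℂ) (G : Fin N → Fin N → ℂ) (hG : ∀ i l, G i l = -G l i) :
    ∑ l, a l * ∑ i, a i * G i l = 0 := by
  have h1 : ∑ l, a l * ∑ i, a i * G i l = ∑ l, ∑ i, a l * (a i * G i l) := by
    refine Finset.sum_congr rfl fun l _ => ?_
    rw [Finset.mul_sum]
  have h2 : ∑ l, ∑ i, a l * (a i * G i l) = ∑ l, ∑ i, -(a l * (a i * G i l)) := by
    rw [Finset.sum_comm]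
    refine Finset.sum_congr rfl fun i _ => Finset.sum_congr rfl fun l _ => ?_
    rw [hG i l]
    ring
  rw [h1]
  have h3 : ∑ l, ∑ i, -(a l * (a i * G i l)) = -∑ l, ∑ i, a l * (a i * G i l) := by
    simp only [Finset.sum_neg_distrib]
  rw [h3] at h2
  have h4 : (2 : ℂ) * ∑ l, ∑ i, a l * (a i * G i l) = 0 := by
    linear_combination h2
  exact (mul_eq_zero.1 h4).resolve_left two_ne_zero

private lemma X14_sum_le {N : ℕ} (a : Fin N → ℂ) (b : Fin N → ℂ) (ha : ∀ i, ‖a i‖ ≤ 1) {c : ℝ} (hb : ∀ i, ‖b i‖ ≤ c) :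
    ‖∑ i, a i * b i‖ ≤ N * c := by
  calc ‖∑ i, a i * b i‖ ≤ ∑ i : Fin N, ‖a i * b i‖ := norm_sum_le _ _
    _ ≤ ∑ _i : Fin N, c := by
        refine Finset.sum_le_sum fun i _ => ?_
        rw [norm_mul]
        calc ‖a i‖ * ‖b i‖ ≤ 1 * ‖b i‖ := mul_le_mul_of_nonneg_right (ha i) (norm_nonneg _)
          _ = ‖b i‖ := one_mul _
          _ ≤ c := hb i
    _ = N * c := by
        rw [Finset.sum_const, Finset.card_univ, Fintype.card_fin, nsmul_eq_mul]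

private lemma X14_pow {x : ℝ} (h0 : 0 ≤ x) (h1 : x < 1) : 1 ≤ (1 - x ^ 2) ^ (-(1 / 8) : ℝ) := by
  have h2 : 0 < 1 - x ^ 2 := by nlinarith
  have h3 : 1 - x ^ 2 ≤ 1 := by nlinarith
  exact Real.one_le_rpow_of_pos_of_le_one_of_nonpos h2 h3 (by norm_num)

/-- The modification of a solution `h` near `K`.
Proof. If `K = ∅` take `h' = h` (`kor ∅ R = ∅`). Let `C_h, C_g ≥ 0` be growth constants of `h`, `g`, `Cu = 2 C_h C_g`,
`u i l = h i * g l - g i * h l` (bound `Cu (1 - ‖z‖²)^(-1/4)`), `ε' = min ε (ε/(N + 1))`; `cut_sol` with `ε'` gives `r, C, χ` and `G i l`; let `G' i l = (G i l - G l i)/2` (antisymmetric; `u` is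
antisymmetric, so `‖G' i l - χ u i l‖ ≤ C`, and `‖G' i l‖ ≤ ε'` where `ε' ≤ infDist z K`), and `h' l = h l + ∑ i, f i * G' i l`. Then
`∑ l, f l * h' l = 1` (the double sum is `0`), `‖h' l - h l‖ ≤ N ε' ≤ ε` where `ε ≤ infDist z K` (`‖f i‖ ≤ 1`), and, as `∑ i, f i * u i l = g l - h l`,
`h' l = (1 - χ) h l + χ g l + ∑ i, f i (G' i l - χ u i l)`, so `‖h' l‖ ≤ ‖h l‖ + ‖g l‖ + N C` (growth), and `‖h' l - g l‖ ≤ N C` where `infDist z K ≤ r`. On `kor K R`: where `infDist z K ≤ r` use the bound of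
`g`; where `r ≤ infDist z K` `kor_far` gives `‖z‖² ≤ 1 - r²/(2 R)` (`R > 0`, otherwise no such `z`), a compact set on which `h'` is continuous. -/
theorem step (μ : Measure E) [μ.IsAddHaarMeasure] {m : ℕ} (hm : 1 ≤ m)
    (hdim : Module.finrank ℂ E = m + 1) {N : ℕ} {f : Fin N → E → ℂ}
    (hf : ∀ j, DifferentiableOn ℂ (f j) (ball 0 1))
    (hf1 : ∀ j, ∀ z ∈ ball (0 : E) 1, ‖f j z‖ ≤ 1) {K : Set E} (hK : K ⊆ sphere 0 1)
    {h g : Fin N → E → ℂ} (hh : Sol f h) (hg : Sol f g) (hgK : KBd K g) {ε : ℝ} (hε : 0 < ε) :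
    ∃ h' : Fin N → E → ℂ, Sol f h' ∧ KBd K h' ∧
      ∀ z ∈ ball (0 : E) 1, ε ≤ infDist z K → ∀ j, ‖h' j z - h j z‖ ≤ ε := by
  rcases K.eq_empty_or_nonempty with rfl | hne
  · refine ⟨h, hh, ?_, ?_⟩
    · intro R
      refine ⟨0, ?_⟩
      rintro z ⟨_, ζ, hζ, _⟩
      exact absurd hζ (Set.notMem_empty ζ)
    · intro z _ _ j
      rw [sub_self, norm_zero]
      exact hε.le
  -- growth constants
  obtain ⟨Ch, hCh0, hCh⟩ : ∃ C : ℝ, 0 ≤ C ∧ ∀ z ∈ ball (0 : E) 1, ∀ j, ‖h j z‖ ≤ C * (1 - ‖z‖ ^ 2) ^ (-(1 / 8) : ℝ) := by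
    obtain ⟨C, hC⟩ := hh.gr
    refine ⟨max C 0, le_max_right _ _, fun z hz j => (hC z hz j).trans ?_⟩
    have hz1 : ‖z‖ < 1 := mem_ball_zero_iff.1 hz
    exact mul_le_mul_of_nonneg_right (le_max_left _ _) (zero_le_one.trans (X14_pow (norm_nonneg z) hz1))
  obtain ⟨Cg, hCg0, hCg⟩ : ∃ C : ℝ, 0 ≤ C ∧ ∀ z ∈ ball (0 : E) 1, ∀ j, ‖g j z‖ ≤ C * (1 - ‖z‖ ^ 2) ^ (-(1 / 8) : ℝ) := by
    obtain ⟨C, hC⟩ := hg.gr
    refine ⟨max C 0, le_max_right _ _, fun z hz j => (hC z hz j).trans ?_⟩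
    have hz1 : ‖z‖ < 1 := mem_ball_zero_iff.1 hz
    exact mul_le_mul_of_nonneg_right (le_max_left _ _) (zero_le_one.trans (X14_pow (norm_nonneg z) hz1))
  have hN : (0 : ℝ) < (N : ℝ) + 1 := by positivity
  obtain ⟨e', he'⟩ : ∃ e' : ℝ, e' = ε / ((N : ℝ) + 1) := ⟨_, rfl⟩
  have he0 : 0 < e' := by rw [he']; exact div_pos hε hN
  have hee : e' ≤ ε := by
    rw [he']
    exact div_le_self hε.le (by linarith [(Nat.cast_nonneg N : (0 : ℝ) ≤ (N : ℝ))])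
  have hNe : (N : ℝ) * e' ≤ ε := by
    have h1 : ((N : ℝ) + 1) * e' = ε := by
      rw [he']
      field_simp
    nlinarith
  obtain ⟨r, C, χ, hr, hC, hχ, hχ1, -, hG⟩ := cut_sol μ hm hdim hK hne (Cu := 2 * Ch * Cg) (ε := e') (by positivity) he0
  obtain ⟨u, hu⟩ : ∃ u : Fin N → Fin N → E → ℂ, ∀ i l z, u i l z = h i z * g l z - g i z * h l z := ⟨_, fun _ _ _ => rfl⟩
  have hu' : ∀ i l, u i l = fun z => h i z * g l z - g i z * h l z := fun i l => funext (hu i l)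
  have hud : ∀ i l, DifferentiableOn ℂ (u i l) (ball 0 1) := by
    intro i l
    rw [hu']
    exact ((hh.holo i).mul (hg.holo l)).sub ((hg.holo i).mul (hh.holo l))
  have hub : ∀ i l, ∀ z ∈ ball (0 : E) 1, ‖u i l z‖ ≤ 2 * Ch * Cg * (1 - ‖z‖ ^ 2) ^ (-(1 / 4) : ℝ) := by
    intro i l z hz
    have hz1 : ‖z‖ < 1 := mem_ball_zero_iff.1 hz
    have hs : 0 < 1 - ‖z‖ ^ 2 := by nlinarith [norm_nonneg z]
    have hs2 : (1 - ‖z‖ ^ 2) ^ (-(1 / 4) : ℝ) = (1 - ‖z‖ ^ 2) ^ (-(1 / 8) : ℝ) * (1 - ‖z‖ ^ 2) ^ (-(1 / 8) : ℝ) := by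
      rw [← Real.rpow_add hs]
      norm_num
    have hp : 0 ≤ (1 - ‖z‖ ^ 2) ^ (-(1 / 8) : ℝ) := Real.rpow_nonneg hs.le _
    rw [hu, hs2]
    have a1 : ‖h i z * g l z‖ ≤ (Ch * (1 - ‖z‖ ^ 2) ^ (-(1 / 8) : ℝ)) * (Cg * (1 - ‖z‖ ^ 2) ^ (-(1 / 8) : ℝ)) := by
      rw [norm_mul]
      exact mul_le_mul (hCh z hz i) (hCg z hz l) (norm_nonneg _) (by positivity)
    have a2 : ‖g i z * h l z‖ ≤ (Cg * (1 - ‖z‖ ^ 2) ^ (-(1 / 8) : ℝ)) * (Ch * (1 - ‖z‖ ^ 2) ^ (-(1 / 8) : ℝ)) := by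
      rw [norm_mul]
      exact mul_le_mul (hCg z hz i) (hCh z hz l) (norm_nonneg _) (by positivity)
    have a3 := norm_sub_le (h i z * g l z) (g i z * h l z)
    nlinarith
  choose G hGd hGb using fun i l => hG (u i l) (hud i l) (hub i l)
  obtain ⟨G', hG'⟩ : ∃ G' : Fin N → Fin N → E → ℂ, ∀ i l z, G' i l z = (G i l z - G l i z) / 2 := ⟨_, fun _ _ _ => rfl⟩
  have hGf : ∀ i l, G' i l = fun z => (G i l z - G l i z) / 2 := fun i l => funext (hG' i l)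
  have hanti : ∀ z i l, G' i l z = -G' l i z := by
    intro z i l
    rw [hG', hG']
    ring
  have hG1 : ∀ z ∈ ball (0 : E) 1, ∀ i l, ‖G' i l z - (χ z : ℂ) * u i l z‖ ≤ C := by
    intro z hz i l
    have e1 : G' i l z - (χ z : ℂ) * u i l z = ((G i l z - (χ z : ℂ) * u i l z) - (G l i z - (χ z : ℂ) * u l i z)) / 2 := by
      rw [hG', hu, hu]
      ring
    rw [e1, norm_div]
    have b1 := (hGb i l z hz).1
    have b2 := (hGb l i z hz).1
    have b3 := norm_sub_le (G i l z - (χ z : ℂ) * u i l z) (G l i z - (χ z : ℂ) * u l i z)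
    have b4 : ‖(2 : ℂ)‖ = 2 := by norm_num
    rw [b4, div_le_iff₀ two_pos]
    linarith
  have hG2 : ∀ z ∈ ball (0 : E) 1, e' ≤ infDist z K → ∀ i l, ‖G' i l z‖ ≤ e' := by
    intro z hz hd i l
    rw [hG', norm_div]
    have b1 := (hGb i l z hz).2 hd
    have b2 := (hGb l i z hz).2 hd
    have b3 := norm_sub_le (G i l z) (G l i z)
    have b4 : ‖(2 : ℂ)‖ = 2 := by norm_num
    rw [b4, div_le_iff₀ two_pos]
    linarith
  obtain ⟨h', hh'⟩ : ∃ h' : Fin N → E → ℂ, ∀ l z, h' l z = h l z + ∑ i, f i z * G' i l z := ⟨_, fun _ _ => rfl⟩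
  have hhf : ∀ l, h' l = fun z => h l z + ∑ i, f i z * G' i l z := fun l => funext (hh' l)
  -- the second formula for `h'`
  have hform : ∀ z ∈ ball (0 : E) 1, ∀ l, h' l z = (1 - (χ z : ℂ)) * h l z + (χ z : ℂ) * g l z +
      ∑ i, f i z * (G' i l z - (χ z : ℂ) * u i l z) := by
    intro z hz l
    have c1 : ∑ i, f i z * (G' i l z - (χ z : ℂ) * u i l z) = ∑ i, f i z * G' i l z -
        (χ z : ℂ) * ((∑ i, f i z * h i z) * g l z - (∑ i, f i z * g i z) * h l z) := by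
      rw [Finset.sum_mul, Finset.sum_mul, ← Finset.sum_sub_distrib, Finset.mul_sum, ← Finset.sum_sub_distrib]
      refine Finset.sum_congr rfl fun i _ => ?_
      rw [hu]
      ring
    rw [hh', c1, hh.sol z hz, hg.sol z hz]
    ring
  have hχn : ∀ z, ‖(χ z : ℂ)‖ = χ z := fun z => by
    rw [Complex.norm_real, Real.norm_of_nonneg (hχ z).1]
  have hχn' : ∀ z, ‖(1 - (χ z : ℂ))‖ = 1 - χ z := fun z => by
    have : (1 - (χ z : ℂ)) = ((1 - χ z : ℝ) : ℂ) := by push_cast; rfl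
    rw [this, Complex.norm_real, Real.norm_of_nonneg (by linarith [(hχ z).2])]
  have herr : ∀ z ∈ ball (0 : E) 1, ∀ l, ‖∑ i, f i z * (G' i l z - (χ z : ℂ) * u i l z)‖ ≤ N * C := by
    intro z hz l
    exact X14_sum_le _ _ (fun i => hf1 i z hz) (fun i => hG1 z hz i l)
  have hgrow : ∀ z ∈ ball (0 : E) 1, ∀ l, ‖h' l z‖ ≤ (Ch + Cg + N * C) * (1 - ‖z‖ ^ 2) ^ (-(1 / 8) : ℝ) := by
    intro z hz l
    have hz1 : ‖z‖ < 1 := mem_ball_zero_iff.1 hz
    have hp := X14_pow (norm_nonneg z) hz1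
    have d1 : ‖(1 - (χ z : ℂ)) * h l z‖ ≤ ‖h l z‖ := by
      rw [norm_mul, hχn']
      have := mul_le_mul_of_nonneg_right (show 1 - χ z ≤ 1 by linarith [(hχ z).1]) (norm_nonneg (h l z))
      linarith
    have d2 : ‖(χ z : ℂ) * g l z‖ ≤ ‖g l z‖ := by
      rw [norm_mul, hχn]
      have := mul_le_mul_of_nonneg_right (hχ z).2 (norm_nonneg (g l z))
      linarith
    have d3 := herr z hz l
    have d4 := hCh z hz l
    have d5 := hCg z hz l
    have d6 : (N : ℝ) * C ≤ N * C * (1 - ‖z‖ ^ 2) ^ (-(1 / 8) : ℝ) := le_mul_of_one_le_right (by positivity) hp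
    rw [hform z hz l]
    have d7 := norm_add_le ((1 - (χ z : ℂ)) * h l z + (χ z : ℂ) * g l z) (∑ i, f i z * (G' i l z - (χ z : ℂ) * u i l z))
    have d8 := norm_add_le ((1 - (χ z : ℂ)) * h l z) ((χ z : ℂ) * g l z)
    have d9 : (Ch + Cg + N * C) * (1 - ‖z‖ ^ 2) ^ (-(1 / 8) : ℝ) = Ch * (1 - ‖z‖ ^ 2) ^ (-(1 / 8) : ℝ) +
      Cg * (1 - ‖z‖ ^ 2) ^ (-(1 / 8) : ℝ) + N * C * (1 - ‖z‖ ^ 2) ^ (-(1 / 8) : ℝ) := by ring
    rw [d9]
    linarith
  refine ⟨h', ⟨?_, ?_, ?_⟩, ?_, ?_⟩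
  · intro l
    rw [hhf]
    refine (hh.holo l).add (DifferentiableOn.fun_sum fun i _ => (hf i).mul ?_)
    rw [hGf]
    have g1 : DifferentiableOn ℂ (fun z => G i l z - G l i z) (ball 0 1) := (hGd i l).sub (hGd l i)
    have g2 : (fun z => (G i l z - G l i z) / 2) = fun z => (2 : ℂ)⁻¹ * (G i l z - G l i z) := by
      funext z
      ring
    rw [g2]
    exact g1.const_mul _
  · intro z hz
    have e1 : ∑ l, f l z * h' l z = ∑ l, f l z * h l z + ∑ l, f l z * ∑ i, f i z * G' i l z := by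
      rw [← Finset.sum_add_distrib]
      refine Finset.sum_congr rfl fun l _ => ?_
      rw [hh']
      ring
    rw [e1, hh.sol z hz, X14_double (fun i => f i z) (fun i l => G' i l z) (hanti z), add_zero]
  · exact ⟨_, fun z hz l => hgrow z hz l⟩
  · intro R
    obtain ⟨CR, hCR⟩ := hgK R
    refine ⟨|CR| + N * C + (Ch + Cg + N * C) * |(r ^ 2 / (2 * R)) ^ (-(1 / 8) : ℝ)|, ?_⟩
    intro z hz l
    have hz1 : ‖z‖ < 1 := hz.1
    have hzb : z ∈ ball (0 : E) 1 := mem_ball_zero_iff.2 hz1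
    have hNC : 0 ≤ (N : ℝ) * C := by positivity
    rcases le_or_gt (infDist z K) r with hle | hlt
    · have hone := hχ1 z hle
      have k1 := hform z hzb l
      rw [hone] at k1
      have k2 : h' l z = g l z + ∑ i, f i z * (G' i l z - (χ z : ℂ) * u i l z) := by
        rw [k1, hone]
        push_cast
        ring
      have k3 := herr z hzb l
      have k4 := hCR z hz l
      have k5 := norm_add_le (g l z) (∑ i, f i z * (G' i l z - (χ z : ℂ) * u i l z))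
      have k6 : 0 ≤ (Ch + Cg + N * C) * |(r ^ 2 / (2 * R)) ^ (-(1 / 8) : ℝ)| := by positivity
      rw [k2]
      linarith [le_abs_self CR]
    · have k1 := kor_far hK hr.le hz hlt.le
      have hs : 0 < 1 - ‖z‖ ^ 2 := by nlinarith [norm_nonneg z]
      have hR : 0 < R := by
        by_contra hcon
        push Not at hcon
        have : 2 * R * (1 - ‖z‖ ^ 2) ≤ 0 := mul_nonpos_of_nonpos_of_nonneg (by linarith) hs.le
        nlinarith [pow_pos hr 2]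
      have k2 : r ^ 2 / (2 * R) ≤ 1 - ‖z‖ ^ 2 := by
        rw [div_le_iff₀ (by positivity)]
        linarith
      have k3 : (1 - ‖z‖ ^ 2) ^ (-(1 / 8) : ℝ) ≤ (r ^ 2 / (2 * R)) ^ (-(1 / 8) : ℝ) :=
        Real.rpow_le_rpow_of_nonpos (by positivity) k2 (by norm_num)
      have k4 := hgrow z hzb l
      have k5 : (Ch + Cg + N * C) * (1 - ‖z‖ ^ 2) ^ (-(1 / 8) : ℝ) ≤
          (Ch + Cg + N * C) * |(r ^ 2 / (2 * R)) ^ (-(1 / 8) : ℝ)| :=
        mul_le_mul_of_nonneg_left (k3.trans (le_abs_self _)) (by positivity)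
      linarith [abs_nonneg CR]
  · intro z hz hd j
    have e1 : h' j z - h j z = ∑ i, f i z * G' i j z := by
      rw [hh']
      ring
    rw [e1]
    exact (X14_sum_le _ _ (fun i => hf1 i z hz) (fun i => hG2 z hz (hee.trans hd) i j)).trans hNe

end Pool.Agent.MPca0fc2.XC
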