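import Mathlib
import Pool.Agent.Lib.MP_ca0fc2_an.XC.Defs
import Pool.Agent.Lib.MP_ca0fc2_an.XC.X11
import Pool.Agent.Lib.MP_ca0fc2_an.Mg.G049

set_option autoImplicit false
set_option linter.unusedSectionVars false

open Metric Set MeasureTheory Filter Topology
open scoped InnerProductSpace ENNReal ContDiff

namespace Pool.Agent.MPca0fc2.XC

open Pool.Agent.MPca0fc2.PT
open Pool.Agent.MPca0fc2.QT
open Pool.Agent.MPca0fc2.TS
open Pool.Agent.MPca0fc2.TE

variable {E : Type*} [NormedAddCommGroup E] [InnerProductSpace ℂ E]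

variable [FiniteDimensional ℂ E]

private lemma X15_lower (a : ℕ → ℝ) : ∀ n : ℕ, (∀ i, i < n → 0 < a i) →
    ∃ ε : ℝ, 0 < ε ∧ ∀ i, i < n → ε ≤ a i := by
  intro n
  induction n with
  | zero => intro _; exact ⟨1, one_pos, fun i hi => absurd hi (Nat.not_lt_zero i)⟩
  | succ n ih =>
    intro h
    obtain ⟨ε, hε, h1⟩ := ih (fun i hi => h i (by omega))
    refine ⟨min ε (a n), lt_min hε (h n (by omega)), fun i hi => ?_⟩
    rcases Nat.lt_succ_iff_lt_or_eq.1 hi with h2 | h2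
    · exact (min_le_left _ _).trans (h1 i h2)
    · rw [h2]; exact min_le_right _ _

private lemma X15_dist {A B : Set E} (hA : IsCompact A) (hB : IsCompact B) (hd : Disjoint A B) :
    ∃ d : ℝ, 0 < d ∧ ∀ x ∈ A, ∀ y ∈ B, d ≤ dist x y := by
  rcases A.eq_empty_or_nonempty with h | h
  · exact ⟨1, one_pos, fun x hx => by rw [h] at hx; exact absurd hx (Set.notMem_empty x)⟩
  rcases B.eq_empty_or_nonempty with h' | h'
  · exact ⟨1, one_pos, fun x _ y hy => by rw [h'] at hy; exact absurd hy (Set.notMem_empty y)⟩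
  obtain ⟨⟨x, y⟩, ⟨hx, hy⟩, hmin⟩ := (hA.prod hB).exists_isMinOn (h.prod h')
    (continuous_dist.continuousOn (s := A ×ˢ B))
  refine ⟨dist x y, dist_pos.2 ?_, fun x' hx' y' hy' => ?_⟩
  · intro hxy
    exact Set.disjoint_left.1 hd hx (by rw [hxy]; exact hy)
  · exact hmin (Set.mk_mem_prod hx' hy')

private lemma X15_bdd {N : ℕ} {f h : Fin N → E → ℂ} (hs : Sol f h) {t : ℝ} (ht : t < 1) :
    ∃ C : ℝ, ∀ z : E, ‖z‖ < 1 → ‖z‖ ^ 2 ≤ t → ∀ j, ‖h j z‖ ≤ C := by
  obtain ⟨C, hC⟩ := hs.gr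
  refine ⟨|C| * (1 - t) ^ (-(1 / 8) : ℝ), fun z hz hzt j => ?_⟩
  have h1 := hC z (by simpa using hz) j
  have h2 : 0 < 1 - t := by linarith
  have h3 : 1 - t ≤ 1 - ‖z‖ ^ 2 := by linarith
  have h4 : (1 - ‖z‖ ^ 2) ^ (-(1 / 8) : ℝ) ≤ (1 - t) ^ (-(1 / 8) : ℝ) :=
    Real.rpow_le_rpow_of_nonpos h2 h3 (by norm_num)
  have h5 : 0 ≤ (1 - ‖z‖ ^ 2) ^ (-(1 / 8) : ℝ) := Real.rpow_nonneg (by linarith) _
  calc ‖h j z‖ ≤ C * (1 - ‖z‖ ^ 2) ^ (-(1 / 8) : ℝ) := h1
    _ ≤ |C| * (1 - ‖z‖ ^ 2) ^ (-(1 / 8) : ℝ) := mul_le_mul_of_nonneg_right (le_abs_self C) h5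
    _ ≤ |C| * (1 - t) ^ (-(1 / 8) : ℝ) := mul_le_mul_of_nonneg_left h4 (abs_nonneg C)

private lemma X15_cau {a : ℕ → ℂ} {k₀ : ℕ} (h : ∀ k, k₀ ≤ k → ‖a (k + 1) - a k‖ ≤ (1 / 2 : ℝ) ^ k) :
    CauchySeq a := by
  have h1 : CauchySeq (fun n => a (n + k₀)) := by
    refine cauchySeq_of_le_geometric (1 / 2 : ℝ) ((1 / 2 : ℝ) ^ k₀) (by norm_num) (fun n => ?_)
    rw [dist_comm, dist_eq_norm]
    have h2 := h (n + k₀) (by omega)
    rw [show n + 1 + k₀ = n + k₀ + 1 by omega]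
    refine h2.trans (le_of_eq ?_)
    rw [pow_add, mul_comm]
  obtain ⟨y, hy⟩ := cauchySeq_tendsto_of_complete h1
  exact ((tendsto_add_atTop_iff_nat k₀).1 hy).cauchySeq

private lemma X15_lim {a : ℕ → ℂ} {k₀ : ℕ} {y : ℂ}
    (h : ∀ k, k₀ ≤ k → ‖a (k + 1) - a k‖ ≤ (1 / 2 : ℝ) ^ k) (hy : Tendsto a atTop (𝓝 y)) :
    ∀ n, k₀ ≤ n → ‖a n - y‖ ≤ 2 * (1 / 2 : ℝ) ^ n := by
  intro n hn
  have h1 : Tendsto (fun m => a (m + n)) atTop (𝓝 y) := (tendsto_add_atTop_iff_nat n).2 hy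
  have h2 := dist_le_of_le_geometric_of_tendsto₀ (f := fun m => a (m + n)) (1 / 2 : ℝ)
    ((1 / 2 : ℝ) ^ n) (by norm_num) (fun m => by
      rw [dist_comm, dist_eq_norm]
      have h2 := h (m + n) (by omega)
      rw [show m + 1 + n = m + n + 1 by omega]
      refine h2.trans (le_of_eq ?_)
      rw [pow_add, mul_comm]) h1
  rw [dist_eq_norm, Nat.zero_add] at h2
  refine h2.trans (le_of_eq ?_)
  ring

/-- The solution for a sequence of pairwise disjoint compact sets.
Proof. For `i < k` there is `d i k > 0` with `d i k ≤ dist x y`, `x ∈ K i`, `y ∈ K k` (disjoint compact sets;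
if one is empty any number does). Let `ε k > 0`, `ε k ≤ 2^(-k)`, `ε k ≤ (d i k)²/(16 (k + 1))` and `ε k ≤ d i k / 2` for all `i < k`. By recursion (`hstep`) there are
solutions `h k` with `‖h (k+1) - h k‖ ≤ ε k` on `{ε k ≤ infDist z (K k)}` and `KBd (K k) (h (k+1))` (start: any solution, from `hsol 0`). (`hstep` with `K k`; if `K k` is empty the conclusion of `hstep` may be
useless as `infDist z ∅ = 0`; in that case take `h (k+1) = h k`.)
Claim: `KBd (K i) (h k)` for all `i < k`: by induction on `k`; for `i < k` and `z ∈ kor (K i) R`: if `ε k ≤ infDist z (K k)`, `h (k+1)` is close to `h k`; otherwise `infDist z (K i) ≥ d i k - ε k ≥ d i k/2`,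
and `kor_far` gives a compact set of such `z`, on which `h (k+1)` is continuous. Locally uniform convergence: on `‖z‖ ≤ r < 1`, `infDist z (K k) ≥ 1 - r ≥ ε k` for large `k`, so the increments are `≤ 2^(-k)`
(`TendstoLocallyUniformlyOn`, the limit `h` is holomorphic: `TendstoLocallyUniformlyOn.differentiableOn`; it is stated for functions on `ℂ`; for functions on `E` see how the library does it: grep
`TendstoLocallyUniformlyOn` / `ultra_holo` (SL), or use `hlim`), a solution. On `kor (K i) R` (`R ≥ 0`): for `k > i`, `k ≥ R`, `kor_sep` gives `ε k ≤ infDist z (K k)`, so `‖h j z - h k₀ j z‖ ≤ ∑ 2^(-k) ≤ 2`,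
`k₀ = max (i + 1) ⌈R⌉₊`. -/
theorem induct {N : ℕ} {f : Fin N → E → ℂ} {K : ℕ → Set E} (hK : ∀ k, K k ⊆ sphere 0 1)
    (hKc : ∀ k, IsCompact (K k)) (hKd : ∀ i k, i ≠ k → Disjoint (K i) (K k))
    (hsol : ∀ k, ∃ g : Fin N → E → ℂ, Sol f g ∧ KBd (K k) g)
    (hstep : ∀ (K : Set E), K ⊆ sphere 0 1 → ∀ h g : Fin N → E → ℂ, Sol f h → Sol f g → KBd K g →
      ∀ ε : ℝ, 0 < ε → ∃ h' : Fin N → E → ℂ, Sol f h' ∧ KBd K h' ∧
        ∀ z ∈ ball (0 : E) 1, ε ≤ infDist z K → ∀ j, ‖h' j z - h j z‖ ≤ ε) :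
    ∃ h : Fin N → E → ℂ, (∀ j, DifferentiableOn ℂ (h j) (ball 0 1)) ∧
      (∀ z ∈ ball (0 : E) 1, ∑ j, f j z * h j z = 1) ∧ ∀ k, KBd (K k) h := by
  classical
  have hd : ∀ i k : ℕ, ∃ d : ℝ, i ≠ k → 0 < d ∧ ∀ x ∈ K i, ∀ y ∈ K k, d ≤ dist x y := by
    intro i k
    by_cases hik : i = k
    · exact ⟨1, fun h => absurd hik h⟩
    · obtain ⟨d, h1, h2⟩ := X15_dist (hKc i) (hKc k) (hKd i k hik)
      exact ⟨d, fun _ => ⟨h1, h2⟩⟩
  choose d hd using hd
  have hε : ∀ k : ℕ, ∃ ε : ℝ, 0 < ε ∧ ε ≤ (1 / 2 : ℝ) ^ k ∧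
      ∀ i, i < k → ε ≤ d i k ^ 2 / (16 * ((k : ℝ) + 1)) ∧ ε ≤ d i k / 2 := by
    intro k
    obtain ⟨e, he, h1⟩ := X15_lower
      (fun i => min (d i k ^ 2 / (16 * ((k : ℝ) + 1))) (d i k / 2)) k (fun i hi => by
        have h2 := (hd i k (by omega)).1
        have h3 : (0 : ℝ) < (k : ℝ) + 1 := by positivity
        exact lt_min (by positivity) (by positivity))
    refine ⟨min e ((1 / 2 : ℝ) ^ k), lt_min he (by positivity), min_le_right _ _, fun i hi => ?_⟩
    exact ⟨(min_le_left _ _).trans ((h1 i hi).trans (min_le_left _ _)),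
      (min_le_left _ _).trans ((h1 i hi).trans (min_le_right _ _))⟩
  choose ε hε0 hε1 hε2 using hε
  have hnext : ∀ (k : ℕ) (h : {h : Fin N → E → ℂ // Sol f h}), ∃ h' : {h : Fin N → E → ℂ // Sol f h},
      KBd (K k) h'.1 ∧ ∀ z ∈ ball (0 : E) 1, ((K k).Nonempty → ε k ≤ infDist z (K k)) →
        ∀ j, ‖h'.1 j z - h.1 j z‖ ≤ ε k := by
    intro k h
    rcases (K k).eq_empty_or_nonempty with he | hne
    · refine ⟨h, ?_, ?_⟩
      · intro R
        refine ⟨0, fun z hz => ?_⟩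
        obtain ⟨_, ζ, hζ, _⟩ := hz
        rw [he] at hζ
        exact absurd hζ (Set.notMem_empty ζ)
      · intro z _ _ j
        rw [sub_self, norm_zero]
        exact (hε0 k).le
    · obtain ⟨g, hg, hgK⟩ := hsol k
      obtain ⟨h', h1, h2, h3⟩ := hstep (K k) (hK k) h.1 g h.2 hg hgK (ε k) (hε0 k)
      exact ⟨⟨h', h1⟩, h2, fun z hz hz2 j => h3 z hz (hz2 hne) j⟩
  choose nxt hn1 hn2 using hnext
  obtain ⟨g₀, hg₀, -⟩ := hsol 0
  let H : ℕ → {h : Fin N → E → ℂ // Sol f h} := fun k =>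
    Nat.rec (motive := fun _ => {h : Fin N → E → ℂ // Sol f h}) ⟨g₀, hg₀⟩ (fun k h => nxt k h) k
  have hHs : ∀ k, H (k + 1) = nxt k (H k) := fun k => rfl
  have hclose : ∀ k, ∀ z ∈ ball (0 : E) 1, ((K k).Nonempty → ε k ≤ infDist z (K k)) →
      ∀ j, ‖(H (k + 1)).1 j z - (H k).1 j z‖ ≤ ε k := by
    intro k z hz hz2 j
    rw [hHs]
    exact hn2 k (H k) z hz hz2 j
  -- boundedness of the approximations
  have hbd : ∀ k i : ℕ, i < k → KBd (K i) (H k).1 := by
    intro k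
    induction k with
    | zero => intro i hi; exact absurd hi (Nat.not_lt_zero i)
    | succ k ih =>
      intro i hi
      rcases Nat.lt_succ_iff_lt_or_eq.1 hi with h1 | h1
      · intro R
        obtain ⟨C, hC⟩ := ih i h1 R
        have hd0 : 0 < d i k := (hd i k (by omega)).1
        by_cases hR : 0 < R
        · have ht : 1 - (d i k / 2) ^ 2 / (2 * R) < 1 := by
            have : 0 < (d i k / 2) ^ 2 / (2 * R) := by positivity
            linarith
          obtain ⟨C', hC'⟩ := X15_bdd (H (k + 1)).2 ht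
          refine ⟨max (C + ε k) C', fun z hz j => ?_⟩
          have hz1 : ‖z‖ < 1 := hz.1
          by_cases hgood : (K k).Nonempty → ε k ≤ infDist z (K k)
          · have h2 := hclose k z (by simpa using hz1) hgood j
            have h3 := hC z hz j
            have h4 : ‖(H (k + 1)).1 j z‖ ≤ ‖(H (k + 1)).1 j z - (H k).1 j z‖ + ‖(H k).1 j z‖ := by
              have := norm_add_le ((H (k + 1)).1 j z - (H k).1 j z) ((H k).1 j z)
              rwa [sub_add_cancel] at this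
            exact le_max_of_le_left (by linarith)
          · refine le_max_of_le_right (hC' z hz1 ?_ j)
            push Not at hgood
            obtain ⟨hne, hlt⟩ := hgood
            obtain ⟨y', hy', hzy'⟩ := (infDist_lt_iff hne).1 hlt
            have hnei : (K i).Nonempty := by
              obtain ⟨_, ζ, hζ, _⟩ := hz
              exact ⟨ζ, hζ⟩
            have h5 : d i k / 2 ≤ infDist z (K i) := by
              rw [le_infDist hnei]
              intro y hy
              have h6 := (hd i k (by omega)).2 y hy y' hy'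
              have h7 : dist y y' ≤ dist z y + dist z y' := by
                have := dist_triangle_left y y' z
                linarith
              have h8 := (hε2 k i h1).2
              linarith
            have h9 := kor_far (hK i) (by positivity) hz h5
            have h10 : (d i k / 2) ^ 2 / (2 * R) ≤ 1 - ‖z‖ ^ 2 := by
              rw [div_le_iff₀ (by positivity)]
              linarith
            linarith
        · refine ⟨C + ε k, fun z hz j => ?_⟩
          have hz1 : ‖z‖ < 1 := hz.1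
          by_cases hgood : (K k).Nonempty → ε k ≤ infDist z (K k)
          · have h2 := hclose k z (by simpa using hz1) hgood j
            have h3 := hC z hz j
            have h4 : ‖(H (k + 1)).1 j z‖ ≤ ‖(H (k + 1)).1 j z - (H k).1 j z‖ + ‖(H k).1 j z‖ := by
              have := norm_add_le ((H (k + 1)).1 j z - (H k).1 j z) ((H k).1 j z)
              rwa [sub_add_cancel] at this
            linarith
          · exfalso
            push Not at hgood
            obtain ⟨hne, hlt⟩ := hgood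
            obtain ⟨y', hy', hzy'⟩ := (infDist_lt_iff hne).1 hlt
            have hnei : (K i).Nonempty := by
              obtain ⟨_, ζ, hζ, _⟩ := hz
              exact ⟨ζ, hζ⟩
            have h5 : d i k / 2 ≤ infDist z (K i) := by
              rw [le_infDist hnei]
              intro y hy
              have h6 := (hd i k (by omega)).2 y hy y' hy'
              have h7 : dist y y' ≤ dist z y + dist z y' := by
                have := dist_triangle_left y y' z
                linarith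
              have h8 := (hε2 k i h1).2
              linarith
            have h9 := kor_far (hK i) (by positivity) hz h5
            have h10 : 0 < (d i k / 2) ^ 2 := by positivity
            have h11 : 0 ≤ 1 - ‖z‖ ^ 2 := by nlinarith [norm_nonneg z]
            have h12 : 2 * R * (1 - ‖z‖ ^ 2) ≤ 0 :=
              mul_nonpos_of_nonpos_of_nonneg (by linarith) h11
            linarith
      · rw [h1, hHs]
        exact hn1 k (H k)
  -- good indices in the interior
  have hgoodt : ∀ t : ℝ, t < 1 → ∃ k₀ : ℕ, ∀ z : E, ‖z‖ < 1 → ‖z‖ ^ 2 ≤ t →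
      ∀ k, k₀ ≤ k → ((K k).Nonempty → ε k ≤ infDist z (K k)) := by
    intro t ht
    obtain ⟨k₀, hk₀⟩ := exists_pow_lt_of_lt_one (show (0 : ℝ) < (1 - t) / 2 by linarith)
      (show (1 / 2 : ℝ) < 1 by norm_num)
    refine ⟨k₀, fun z hz hzt k hk hne => ?_⟩
    have h1 := depth_le (hK k) hne hz
    have h2 : (1 / 2 : ℝ) ^ k ≤ (1 / 2 : ℝ) ^ k₀ :=
      pow_le_pow_of_le_one (by norm_num) (by norm_num) hk
    have h3 := hε1 k
    linarith
  have hstep2 : ∀ (z : E), ‖z‖ < 1 → ∀ k₀ : ℕ,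
      (∀ k, k₀ ≤ k → ((K k).Nonempty → ε k ≤ infDist z (K k))) → ∀ j, ∀ k, k₀ ≤ k →
        ‖(H (k + 1)).1 j z - (H k).1 j z‖ ≤ (1 / 2 : ℝ) ^ k := fun z hz k₀ hg j k hk =>
    (hclose k z (by simpa using hz) (hg k hk) j).trans (hε1 k)
  have hcau : ∀ (z : E), ‖z‖ < 1 → ∀ j, CauchySeq (fun k => (H k).1 j z) := by
    intro z hz j
    have ht : ‖z‖ ^ 2 < 1 := by nlinarith [norm_nonneg z]
    obtain ⟨k₀, hk₀⟩ := hgoodt (‖z‖ ^ 2) ht
    exact X15_cau (k₀ := k₀) (hstep2 z hz k₀ (hk₀ z hz le_rfl) j)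
  let h : Fin N → E → ℂ := fun j z => limUnder atTop (fun k => (H k).1 j z)
  have hlim : ∀ (z : E), ‖z‖ < 1 → ∀ j, Tendsto (fun k => (H k).1 j z) atTop (𝓝 (h j z)) :=
    fun z hz j => CauchySeq.tendsto_limUnder (u := fun k => (H k).1 j z) (hcau z hz j)
  have hest : ∀ (z : E), ‖z‖ < 1 → ∀ k₀ : ℕ,
      (∀ k, k₀ ≤ k → ((K k).Nonempty → ε k ≤ infDist z (K k))) → ∀ j, ∀ n, k₀ ≤ n →
        ‖(H n).1 j z - h j z‖ ≤ 2 * (1 / 2 : ℝ) ^ n := fun z hz k₀ hg j =>
    X15_lim (k₀ := k₀) (hstep2 z hz k₀ hg j) (hlim z hz j)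
  refine ⟨h, ?_, ?_, ?_⟩
  · intro j z₀ hz₀
    have hz₀' : ‖z₀‖ < 1 := by simpa using hz₀
    obtain ⟨s, hs1, hs2⟩ := exists_between hz₀'
    have hs0 : 0 < s := (norm_nonneg z₀).trans_lt hs1
    have ht : s ^ 2 < 1 := by nlinarith
    have hin : ∀ z ∈ ball (0 : E) s, ‖z‖ < 1 ∧ ‖z‖ ^ 2 ≤ s ^ 2 := by
      intro z hz
      have h1 : ‖z‖ < s := by simpa using hz
      exact ⟨h1.trans hs2, by nlinarith [norm_nonneg z]⟩
    obtain ⟨k₀, hk₀⟩ := hgoodt (s ^ 2) ht
    obtain ⟨C, hC⟩ := X15_bdd (H k₀).2 ht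
    have hsub : ball (0 : E) s ⊆ ball 0 1 := ball_subset_ball hs2.le
    have hdiff : DifferentiableOn ℂ (h j) (ball 0 s) := by
      refine Pool.Agent.Lib.MP_ca0fc2_an.differentiableOn_of_unif_limit
        (G := fun n => (H (k₀ + n)).1 j) isOpen_ball
        (fun n => ((H (k₀ + n)).2.holo j).mono hsub) (ε := fun n => 2 * (1 / 2 : ℝ) ^ (k₀ + n))
        ?_ (fun n z hz => ?_) (M := C + 2) (fun z hz => ?_)
      · have h1 : Tendsto (fun n : ℕ => (1 / 2 : ℝ) ^ n) atTop (𝓝 0) :=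
          tendsto_pow_atTop_nhds_zero_of_lt_one (by norm_num) (by norm_num)
        have h2 : Tendsto (fun n : ℕ => (1 / 2 : ℝ) ^ (n + k₀)) atTop (𝓝 0) :=
          (tendsto_add_atTop_iff_nat k₀).2 h1
        have h3 := h2.const_mul 2
        rw [mul_zero] at h3
        refine h3.congr fun n => ?_
        rw [Nat.add_comm]
      · exact hest z (hin z hz).1 k₀ (hk₀ z (hin z hz).1 (hin z hz).2) j (k₀ + n) (by omega)
      · have h1 := hest z (hin z hz).1 k₀ (hk₀ z (hin z hz).1 (hin z hz).2) j k₀ le_rfl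
        have h2 := hC z (hin z hz).1 (hin z hz).2 j
        have h3 : ‖h j z‖ ≤ ‖(H k₀).1 j z‖ + ‖(H k₀).1 j z - h j z‖ := by
          have := norm_sub_le ((H k₀).1 j z) ((H k₀).1 j z - h j z)
          rwa [sub_sub_cancel] at this
        have h4 : (1 / 2 : ℝ) ^ k₀ ≤ 1 := pow_le_one₀ (by norm_num) (by norm_num)
        linarith
    exact (hdiff.differentiableAt (isOpen_ball.mem_nhds (by simpa using hs1))).differentiableWithinAt
  · intro z hz
    have hz' : ‖z‖ < 1 := by simpa using hz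
    have h1 : Tendsto (fun k => ∑ j, f j z * (H k).1 j z) atTop (𝓝 (∑ j, f j z * h j z)) :=
      tendsto_finsetSum _ fun j _ => (hlim z hz' j).const_mul (f j z)
    have h2 : Tendsto (fun k => ∑ j, f j z * (H k).1 j z) atTop (𝓝 1) := by
      refine tendsto_const_nhds.congr fun k => ?_
      exact ((H k).2.sol z hz).symm
    exact tendsto_nhds_unique h1 h2
  · intro i R
    let R' : ℝ := max R 0
    have hR' : 0 ≤ R' := le_max_right _ _
    let k₀ : ℕ := max (i + 1) ⌈R'⌉₊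
    have hik : i < k₀ := lt_of_lt_of_le (Nat.lt_succ_self i) (le_max_left _ _)
    obtain ⟨C, hC⟩ := hbd k₀ i hik R'
    refine ⟨C + 2, fun z hz j => ?_⟩
    have hz' : z ∈ kor (K i) R' := by
      obtain ⟨h1, ζ, hζ, h2⟩ := hz
      refine ⟨h1, ζ, hζ, h2.trans ?_⟩
      have h3 : 0 ≤ 1 - ‖z‖ ^ 2 := by nlinarith [norm_nonneg z]
      exact mul_le_mul_of_nonneg_right (le_max_left _ _) h3
    have hz1 : ‖z‖ < 1 := hz.1
    have hg : ∀ k, k₀ ≤ k → ((K k).Nonempty → ε k ≤ infDist z (K k)) := by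
      intro k hk hne
      have hik' : i < k := lt_of_lt_of_le hik hk
      have h1 := hd i k (by omega)
      refine kor_sep (hK i) (hK k) hne h1.1 h1.2 hR' ?_ hz'
      refine (hε2 k i hik').1.trans ?_
      have h2 : R' ≤ (k : ℝ) := by
        have h3 : R' ≤ (⌈R'⌉₊ : ℝ) := Nat.le_ceil R'
        have h4 : ((⌈R'⌉₊ : ℕ) : ℝ) ≤ ((k : ℕ) : ℝ) := by
          exact_mod_cast (le_max_right (i + 1) ⌈R'⌉₊).trans hk
        exact h3.trans h4
      have h5 : 0 < 16 * (R' + 1) := by positivity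
      exact div_le_div_of_nonneg_left (by positivity) h5 (by linarith)
    have h1 := hest z hz1 k₀ hg j k₀ le_rfl
    have h2 := hC z hz' j
    have h3 : ‖h j z‖ ≤ ‖(H k₀).1 j z‖ + ‖(H k₀).1 j z - h j z‖ := by
      have := norm_sub_le ((H k₀).1 j z) ((H k₀).1 j z - h j z)
      rwa [sub_sub_cancel] at this
    have h4 : (1 / 2 : ℝ) ^ k₀ ≤ 1 := pow_le_one₀ (by norm_num) (by norm_num)
    linarith

end Pool.Agent.MPca0fc2.XC
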