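import Mathlib
import Pool.Agent.Lib.MP_ca0fc2_an.XC.Defs
import Pool.Agent.Lib.MP_ca0fc2_an.XC.SE

set_option autoImplicit false
set_option linter.unusedSectionVars false

open Metric Set MeasureTheory Filter Topology
open scoped InnerProductSpace ENNReal ContDiff

namespace Pool.Agent.MPca0fc2.XC

theorem X16_mid {n : ℕ} {p q : EuclideanSpace ℂ (Fin n)} (hp : ‖p‖ = 1) (hq : ‖q‖ = 1)
    (h : p ≠ q) : ‖((1 / 2 : ℝ) : ℂ) • (p + q)‖ < 1 := by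
  have h1 : ‖p + q‖ ^ 2 + ‖p - q‖ ^ 2 = 2 * (‖p‖ ^ 2 + ‖q‖ ^ 2) :=
    parallelogram_law_with_norm ℝ p q
  have h2 : 0 < ‖p - q‖ := norm_pos_iff.2 (sub_ne_zero.2 h)
  rw [hp, hq] at h1
  rw [norm_smul, Complex.norm_real]
  norm_num
  nlinarith [norm_nonneg (p + q)]

theorem X16_fr {n : ℕ} (v : EuclideanSpace ℂ (Fin n)) :
    Module.finrank ℂ (Submodule.span ℂ {v}) ≤ 1 := by
  have := finrank_span_le_card (R := ℂ) ({v} : Set (EuclideanSpace ℂ (Fin n)))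
  simpa using this

theorem X16_line {n : ℕ} {K : Set (EuclideanSpace ℂ (Fin n))} (hK : K ⊆ sphere 0 1)
    (hl : ∃ a v : EuclideanSpace ℂ (Fin n), ∀ ζ ∈ K, ∃ c : ℂ, ζ = a + c • v) :
    ∃ (V : Submodule ℂ (EuclideanSpace ℂ (Fin n))) (a : EuclideanSpace ℂ (Fin n)),
      Module.finrank ℂ V ≤ 1 ∧ ‖a‖ < 1 ∧ ∀ ζ ∈ K, ζ - a ∈ V := by
  obtain ⟨b, v, hbv⟩ := hl
  by_cases h1 : ∃ p ∈ K, ∃ q ∈ K, p ≠ q
  · obtain ⟨p, hp, q, hq, hpq⟩ := h1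
    obtain ⟨c₁, h1⟩ := hbv p hp
    obtain ⟨c₂, h2⟩ := hbv q hq
    refine ⟨Submodule.span ℂ {v}, ((1 / 2 : ℝ) : ℂ) • (p + q), X16_fr v,
      X16_mid (mem_sphere_zero_iff_norm.1 (hK hp)) (mem_sphere_zero_iff_norm.1 (hK hq)) hpq,
      fun ζ hζ => ?_⟩
    obtain ⟨c, hc⟩ := hbv ζ hζ
    rw [Submodule.mem_span_singleton]
    refine ⟨c - (c₁ + c₂) / 2, ?_⟩
    rw [hc, h1, h2]
    push_cast
    module
  · push Not at h1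
    by_cases h2 : K.Nonempty
    · obtain ⟨p, hp⟩ := h2
      refine ⟨Submodule.span ℂ {p}, 0, X16_fr p, by simp, fun ζ hζ => ?_⟩
      rw [← h1 p hp ζ hζ, sub_zero]
      exact Submodule.mem_span_singleton_self p
    · refine ⟨⊥, 0, by simp, by simp, fun ζ hζ => absurd ⟨ζ, hζ⟩ h2⟩

/-- solutions for compact sets in a complex line -/
theorem line_KBd {n N : ℕ} (hn : 2 ≤ n) {δ : ℝ} (hδ : 0 < δ)
    {f : Fin N → EuclideanSpace ℂ (Fin n) → ℂ}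
    (hf : ∀ j, DifferentiableOn ℂ (f j) (ball 0 1))
    (hb : ∀ z ∈ ball (0 : EuclideanSpace ℂ (Fin n)) 1,
      δ ≤ ∑ j, ‖f j z‖ ^ 2 ∧ ∑ j, ‖f j z‖ ^ 2 ≤ 1)
    {K : Set (EuclideanSpace ℂ (Fin n))} (hK : K ⊆ sphere 0 1)
    (hl : ∃ a v : EuclideanSpace ℂ (Fin n), ∀ ζ ∈ K, ∃ c : ℂ, ζ = a + c • v) :
    ∃ g : Fin N → EuclideanSpace ℂ (Fin n) → ℂ, Sol f g ∧ KBd K g := by
  obtain ⟨V, a, hV, ha, hKV⟩ := X16_line hK hl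
  obtain ⟨C, hC, hC'⟩ := Pool.Agent.MPca0fc2SE.result (N := N) (M := n + 1) hn le_rfl hδ
    (A := 1) one_pos
  obtain ⟨h, hh⟩ := (hC' f hf hb V a ha).2.1 hV
  have hj : ∀ (j : Fin N) (z : EuclideanSpace ℂ (Fin n)),
      ‖h j z‖ ≤ √(∑ j, ‖h j z‖ ^ 2) := by
    intro j z
    apply Real.le_sqrt_of_sq_le
    exact Finset.single_le_sum (f := fun j => ‖h j z‖ ^ 2) (fun _ _ => sq_nonneg _)
      (Finset.mem_univ j)
  have ha2 : 0 < 1 - ‖a‖ ^ 2 := by nlinarith [norm_nonneg a]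
  refine ⟨h, ⟨hh.holo, hh.sol, ?_⟩, fun R => ?_⟩
  · refine ⟨C * (1 + 8 * (4 / (1 - ‖a‖ ^ 2)) ^ (1 / 8 : ℝ)), fun z hz j => ?_⟩
    have h1 := hh.dist z hz 0 (by simpa using ha)
    rw [mem_ball_zero_iff] at hz
    have hz2 : 0 < 1 - ‖z‖ ^ 2 := by nlinarith [norm_nonneg z]
    simp only [ZeroMemClass.coe_zero, add_zero] at h1
    have h2 : ‖1 - ⟪z, a⟫_ℂ‖ ≤ 2 := by
      have h3 := norm_sub_le (1 : ℂ) ⟪z, a⟫_ℂ
      have h4 := norm_inner_le_norm (𝕜 := ℂ) z a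
      rw [norm_one] at h3
      nlinarith [norm_nonneg z, norm_nonneg a]
    have h5 : ‖1 - ⟪z, a⟫_ℂ‖ ^ 2 / ((1 - ‖z‖ ^ 2) * (1 - ‖a‖ ^ 2)) ≤
        4 / (1 - ‖a‖ ^ 2) * (1 - ‖z‖ ^ 2)⁻¹ := by
      have e : 4 / (1 - ‖a‖ ^ 2) * (1 - ‖z‖ ^ 2)⁻¹ = 4 / ((1 - ‖z‖ ^ 2) * (1 - ‖a‖ ^ 2)) := by
        field_simp
      rw [e]
      apply div_le_div_of_nonneg_right _ (by positivity)
      nlinarith [norm_nonneg (1 - ⟪z, a⟫_ℂ)]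
    have h6 : 0 ≤ ‖1 - ⟪z, a⟫_ℂ‖ ^ 2 / ((1 - ‖z‖ ^ 2) * (1 - ‖a‖ ^ 2)) := by positivity
    have h7 := Real.log_le_rpow_div h6 (show (0 : ℝ) < 1 / 8 by norm_num)
    have h8 : (‖1 - ⟪z, a⟫_ℂ‖ ^ 2 / ((1 - ‖z‖ ^ 2) * (1 - ‖a‖ ^ 2))) ^ (1 / 8 : ℝ) ≤
        (4 / (1 - ‖a‖ ^ 2)) ^ (1 / 8 : ℝ) * (1 - ‖z‖ ^ 2) ^ (-(1 / 8) : ℝ) := by
      refine (Real.rpow_le_rpow h6 h5 (by norm_num)).trans (le_of_eq ?_)
      rw [Real.mul_rpow (by positivity) (by positivity), Real.inv_rpow hz2.le,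
        Real.rpow_neg hz2.le]
    have h9 : 1 ≤ (1 - ‖z‖ ^ 2) ^ (-(1 / 8) : ℝ) := by
      apply Real.one_le_rpow_of_pos_of_le_one_of_nonpos hz2 (by nlinarith [norm_nonneg z])
        (by norm_num)
    refine (hj j z).trans (h1.trans ?_)
    rw [mul_assoc]
    apply mul_le_mul_of_nonneg_left _ hC.le
    have h10 : (0:ℝ) ≤ (4 / (1 - ‖a‖ ^ 2)) ^ (1 / 8 : ℝ) := by positivity
    nlinarith
  · refine ⟨C * (1 + Real.log ((|R| + 2) ^ 2 / (1 - ‖a‖))), fun z hz j => ?_⟩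
    obtain ⟨hz1, ζ, hζ, hζR⟩ := hz
    have hζ1 : ‖ζ‖ = 1 := mem_sphere_zero_iff_norm.1 (hK hζ)
    obtain ⟨t, ht⟩ : ∃ t : ℝ, t = 1 - ‖z‖ ^ 2 := ⟨_, rfl⟩
    have ht0 : 0 < t := by rw [ht]; nlinarith [norm_nonneg z]
    have ht1 : t ≤ 1 := by rw [ht]; nlinarith [norm_nonneg z]
    have ha1 : 0 < 1 - ‖a‖ := by linarith
    obtain ⟨v, hv⟩ : ∃ v : V, (v : EuclideanSpace ℂ (Fin n)) = ((1 - t : ℝ) : ℂ) • (ζ - a) :=
      ⟨⟨_, V.smul_mem _ (hKV ζ hζ)⟩, rfl⟩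
    obtain ⟨w, hw⟩ : ∃ w : EuclideanSpace ℂ (Fin n), w = a + v := ⟨_, rfl⟩
    have hw1 : w = ((1 - t : ℝ) : ℂ) • ζ + ((t : ℝ) : ℂ) • a := by
      rw [hw, hv]
      push_cast
      module
    have hw2 : w = ζ - ((t : ℝ) : ℂ) • (ζ - a) := by
      rw [hw1]
      push_cast
      module
    have hwn : ‖w‖ ≤ 1 - t * (1 - ‖a‖) := by
      rw [hw1]
      refine (norm_add_le _ _).trans ?_
      rw [norm_smul, norm_smul, Complex.norm_real, Complex.norm_real,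
        Real.norm_of_nonneg (by linarith), Real.norm_of_nonneg ht0.le, hζ1]
      linarith
    have hta : 0 < t * (1 - ‖a‖) := by positivity
    have hwlt : ‖w‖ < 1 := by linarith
    have hwd : t * (1 - ‖a‖) ≤ 1 - ‖w‖ ^ 2 := by nlinarith [norm_nonneg w]
    have h1 := hh.dist z (mem_ball_zero_iff.2 hz1) v (by rw [← hw]; exact hwlt)
    rw [← hw, ← ht] at h1
    have hin : ‖1 - ⟪z, w⟫_ℂ‖ ≤ (|R| + 2) * t := by
      have e : 1 - ⟪z, w⟫_ℂ = (1 - ⟪z, ζ⟫_ℂ) + ((t : ℝ) : ℂ) * ⟪z, ζ - a⟫_ℂ := by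
        rw [hw2, inner_sub_right, inner_smul_right]
        ring
      rw [e]
      refine (norm_add_le _ _).trans ?_
      rw [norm_mul, Complex.norm_real, Real.norm_of_nonneg ht0.le]
      have h3 : ‖⟪z, ζ - a⟫_ℂ‖ ≤ 2 := by
        refine (norm_inner_le_norm (𝕜 := ℂ) z (ζ - a)).trans ?_
        have := norm_sub_le ζ a
        nlinarith [norm_nonneg z, norm_nonneg (ζ - a)]
      rw [← ht] at hζR
      have h4 : R * t ≤ |R| * t := mul_le_mul_of_nonneg_right (le_abs_self R) ht0.le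
      nlinarith
    have hpos : 0 < ‖1 - ⟪z, w⟫_ℂ‖ := by
      have h3 := norm_sub_norm_le (1 : ℂ) ⟪z, w⟫_ℂ
      have h4 := norm_inner_le_norm (𝕜 := ℂ) z w
      rw [norm_one] at h3
      nlinarith [norm_nonneg z, norm_nonneg w]
    have hwd0 : 0 < 1 - ‖w‖ ^ 2 := lt_of_lt_of_le hta hwd
    have hq : ‖1 - ⟪z, w⟫_ℂ‖ ^ 2 / (t * (1 - ‖w‖ ^ 2)) ≤ (|R| + 2) ^ 2 / (1 - ‖a‖) := by
      rw [div_le_div_iff₀ (by positivity) ha1]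
      have h3 : ‖1 - ⟪z, w⟫_ℂ‖ ^ 2 ≤ ((|R| + 2) * t) ^ 2 :=
        pow_le_pow_left₀ (norm_nonneg _) hin 2
      calc ‖1 - ⟪z, w⟫_ℂ‖ ^ 2 * (1 - ‖a‖) ≤ ((|R| + 2) * t) ^ 2 * (1 - ‖a‖) :=
            mul_le_mul_of_nonneg_right h3 ha1.le
        _ = (|R| + 2) ^ 2 * (t * (t * (1 - ‖a‖))) := by ring
        _ ≤ (|R| + 2) ^ 2 * (t * (1 - ‖w‖ ^ 2)) := by gcongr
    refine (hj j z).trans (h1.trans ?_)
    apply mul_le_mul_of_nonneg_left _ hC.le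
    have := Real.log_le_log (by positivity) hq
    linarith

end Pool.Agent.MPca0fc2.XC
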