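import Mathlib
import Pool.Agent.Lib.MP_ca0fc2_an.XC.Defs

set_option autoImplicit false
set_option linter.unusedSectionVars false

open Metric Set MeasureTheory Filter Topology
open scoped InnerProductSpace ENNReal ContDiff

namespace Pool.Agent.MPca0fc2.XC

variable {E : Type*} [NormedAddCommGroup E] [InnerProductSpace ℂ E]

/-- a unit vector orthogonal to a given vector -/
theorem X17_perp {n : ℕ} (hn : 2 ≤ n) (z : EuclideanSpace ℂ (Fin n)) :
    ∃ u : EuclideanSpace ℂ (Fin n), ‖u‖ = 1 ∧ ⟪z, u⟫_ℂ = 0 := by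
  have h1 : Module.finrank ℂ (Submodule.span ℂ {z})ᗮ ≥ 1 := by
    have h2 := Submodule.finrank_add_finrank_orthogonal (Submodule.span ℂ {z})
    have h3 := finrank_span_le_card (R := ℂ) ({z} : Set (EuclideanSpace ℂ (Fin n)))
    have h4 : Module.finrank ℂ (Submodule.span ℂ {z}) ≤ 1 := by simpa using h3
    rw [finrank_euclideanSpace_fin] at h2
    omega
  have h5 : 0 < Module.finrank ℂ (Submodule.span ℂ {z})ᗮ := by omega
  have h6 : Nontrivial (Submodule.span ℂ {z})ᗮ := Module.nontrivial_of_finrank_pos h5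
  obtain ⟨w, hw⟩ := exists_ne (0 : (Submodule.span ℂ {z})ᗮ)
  have hw' : ‖(w : EuclideanSpace ℂ (Fin n))‖ ≠ 0 := by simpa using hw
  refine ⟨((‖(w : EuclideanSpace ℂ (Fin n))‖⁻¹ : ℝ) : ℂ) • (w : EuclideanSpace ℂ (Fin n)),
    ?_, ?_⟩
  · rw [norm_smul, Complex.norm_real, Real.norm_of_nonneg (by positivity), inv_mul_cancel₀ hw']
  · rw [inner_smul_right]
    have := (Submodule.mem_orthogonal _ _).1 w.2 z (Submodule.mem_span_singleton_self z)
    rw [this, mul_zero]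

/-- The maximum principle on complex discs orthogonal to the radius: bounds on pieces of a sequence of
spheres give bounds near a boundary point. -/
theorem disc_bd {n : ℕ} (hn : 2 ≤ n) {h : EuclideanSpace ℂ (Fin n) → ℂ}
    (hh : DifferentiableOn ℂ h (ball 0 1)) {p₀ : EuclideanSpace ℂ (Fin n)} (hp₀ : ‖p₀‖ = 1)
    {s M : ℝ} (hs : 0 < s) (hs1 : s ≤ 1) {r : ℕ → ℝ} (hr : ∀ i, 0 ≤ r i ∧ r i < 1)
    (hr1 : Tendsto r atTop (𝓝 1))
    (hb : ∀ i, ∀ p : EuclideanSpace ℂ (Fin n), ‖p‖ = 1 → ‖p - p₀‖ < s →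
      ‖h ((r i : ℂ) • p)‖ ≤ M) {z : EuclideanSpace ℂ (Fin n)} (hz : ‖z‖ < 1)
    (hzp : ‖z - p₀‖ < s ^ 2 / 16) : ‖h z‖ ≤ M := by
  obtain ⟨u, hu, hzu⟩ := X17_perp hn z
  have hzl : 1 - ‖z‖ < s ^ 2 / 16 := by
    have h1 := norm_sub_norm_le p₀ z
    rw [hp₀, norm_sub_rev] at h1
    linarith
  -- choose a radius
  obtain ⟨i, hi⟩ : ∃ i, ‖z‖ < r i := by
    have := (hr1.eventually (lt_mem_nhds hz)).exists
    exact this
  obtain ⟨hr0, hr1'⟩ := hr i
  have hri : 0 < r i := lt_of_le_of_lt (norm_nonneg _) hi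
  obtain ⟨ρ, hρ⟩ : ∃ ρ : ℝ, ρ = √(r i ^ 2 - ‖z‖ ^ 2) := ⟨_, rfl⟩
  have hd : 0 < r i ^ 2 - ‖z‖ ^ 2 := by nlinarith [norm_nonneg z]
  have hρ0 : 0 < ρ := by rw [hρ]; exact Real.sqrt_pos.2 hd
  have hρ2 : ρ ^ 2 = r i ^ 2 - ‖z‖ ^ 2 := by rw [hρ, Real.sq_sqrt hd.le]
  have hpy : ∀ c : ℂ, ‖z + c • u‖ ^ 2 = ‖z‖ ^ 2 + ‖c‖ ^ 2 := by
    intro c
    have h1 : ⟪z, c • u⟫_ℂ = 0 := by rw [inner_smul_right, hzu, mul_zero]
    have h2 := norm_add_sq_eq_norm_sq_add_norm_sq_of_inner_eq_zero z (c • u) h1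
    rw [norm_smul, hu, mul_one] at h2
    nlinarith
  have hmem : ∀ c : ℂ, ‖c‖ ≤ ρ → z + c • u ∈ ball (0 : EuclideanSpace ℂ (Fin n)) 1 := by
    intro c hc
    rw [mem_ball_zero_iff]
    have h1 := hpy c
    have h2 : ‖c‖ ^ 2 ≤ ρ ^ 2 := pow_le_pow_left₀ (norm_nonneg _) hc 2
    nlinarith [norm_nonneg (z + c • u)]
  have hfront : ∀ c : ℂ, ‖c‖ = ρ → ‖h (z + c • u)‖ ≤ M := by
    intro c hc
    obtain ⟨w, hw⟩ : ∃ w, w = z + c • u := ⟨_, rfl⟩
    have h1 : ‖w‖ = r i := by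
      have h2 := hpy c
      rw [hc, hρ2, ← hw] at h2
      have h3 : ‖w‖ ^ 2 = r i ^ 2 := by rw [h2]; ring
      exact (pow_left_inj₀ (norm_nonneg _) hr0 two_ne_zero).1 h3
    have e : w = (r i : ℂ) • (((r i)⁻¹ : ℝ) : ℂ) • w := by
      rw [smul_smul, ← Complex.ofReal_mul, mul_inv_cancel₀ hri.ne', Complex.ofReal_one, one_smul]
    rw [← hw, e]
    refine hb i _ ?_ ?_
    · rw [norm_smul, Complex.norm_real, Real.norm_of_nonneg (by positivity), h1,
        inv_mul_cancel₀ hri.ne']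
    · have h4 : (((r i)⁻¹ : ℝ) : ℂ) • w - p₀ =
          ((((r i)⁻¹ : ℝ) : ℂ) • w - w) + (c • u + (z - p₀)) := by
        rw [hw]; abel
      have h5 : ‖(((r i)⁻¹ : ℝ) : ℂ) • w - w‖ = 1 - r i := by
        have h6 : (((r i)⁻¹ : ℝ) : ℂ) • w - w = (((r i)⁻¹ - 1 : ℝ) : ℂ) • w := by
          push_cast
          module
        rw [h6, norm_smul, Complex.norm_real, h1, Real.norm_of_nonneg]
        · field_simp
        · rw [sub_nonneg]
          exact (one_le_inv₀ hri).2 hr1'.le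
      have h7 : ‖c • u‖ = ρ := by rw [norm_smul, hu, mul_one, hc]
      have h8 : ρ ≤ 3 * s / 8 := by
        rw [hρ, Real.sqrt_le_left (by positivity)]
        nlinarith [norm_nonneg z]
      rw [h4]
      have h9 := norm_add_le ((((r i)⁻¹ : ℝ) : ℂ) • w - w) (c • u + (z - p₀))
      have h10 := norm_add_le (c • u) (z - p₀)
      nlinarith
  -- the maximum principle
  have hcl : closure (ball (0 : ℂ) ρ) = closedBall 0 ρ := closure_ball 0 hρ0.ne'
  have hdc : DiffContOnCl ℂ (fun c : ℂ => h (z + c • u)) (ball 0 ρ) := by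
    apply DifferentiableOn.diffContOnCl
    rw [hcl]
    refine hh.comp (by fun_prop) fun c hc => ?_
    exact hmem c (mem_closedBall_zero_iff.1 hc)
  have h1 := Complex.norm_le_of_forall_mem_frontier_norm_le isBounded_ball hdc
    (C := M) (z := 0) (fun c hc => by
      rw [frontier_ball 0 hρ0.ne', mem_sphere_zero_iff_norm] at hc
      exact hfront c hc) (subset_closure (mem_ball_self hρ0))
  simpa using h1

/-- Baire: from a non meager set of boundary points at which `h` is bounded along a sequence of radii to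
bounds near some boundary point. -/
theorem baire_bd {n N : ℕ} (hn : 2 ≤ n) {h : Fin N → EuclideanSpace ℂ (Fin n) → ℂ}
    (hh : ∀ j, DifferentiableOn ℂ (h j) (ball 0 1)) {r : ℕ → ℝ} (hr : ∀ i, 0 ≤ r i ∧ r i < 1)
    (hr1 : Tendsto r atTop (𝓝 1))
    (hm : ¬ IsMeagre {p : sphere (0 : EuclideanSpace ℂ (Fin n)) 1 | ∃ C : ℝ, ∀ i j,
      ‖h j ((r i : ℂ) • (p : EuclideanSpace ℂ (Fin n)))‖ ≤ C}) :
    ∃ p₀ : EuclideanSpace ℂ (Fin n), ‖p₀‖ = 1 ∧ ∃ s > 0, ∃ M : ℝ, ∀ z, ‖z‖ < 1 → ‖z - p₀‖ < s →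
      ∀ j, ‖h j z‖ ≤ M := by
  obtain ⟨F, hF⟩ : ∃ F : ℕ → Set (sphere (0 : EuclideanSpace ℂ (Fin n)) 1), F = fun m : ℕ =>
    {p : sphere (0 : EuclideanSpace ℂ (Fin n)) 1 | ∀ i j, ‖h j ((r i : ℂ) • (p : EuclideanSpace ℂ (Fin n)))‖ ≤ m} := ⟨_, rfl⟩
  have hmem : ∀ i, ∀ p : sphere (0 : EuclideanSpace ℂ (Fin n)) 1,
      (r i : ℂ) • (p : EuclideanSpace ℂ (Fin n)) ∈ ball (0 : EuclideanSpace ℂ (Fin n)) 1 := by
    intro i p
    rw [mem_ball_zero_iff, norm_smul, Complex.norm_real, Real.norm_of_nonneg (hr i).1,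
      mem_sphere_zero_iff_norm.1 p.2, mul_one]
    exact (hr i).2
  have hFc : ∀ m, IsClosed (F m) := by
    intro m
    rw [hF]
    simp only [setOf_forall]
    refine isClosed_iInter fun i => isClosed_iInter fun j => ?_
    refine isClosed_le ?_ continuous_const
    refine continuous_norm.comp ?_
    refine (hh j).continuousOn.comp_continuous ?_ (hmem i)
    exact (continuous_subtype_val (p := fun x : EuclideanSpace ℂ (Fin n) =>
      x ∈ sphere (0 : EuclideanSpace ℂ (Fin n)) 1)).const_smul ((r i : ℝ) : ℂ)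
  have hsub : {p : sphere (0 : EuclideanSpace ℂ (Fin n)) 1 | ∃ C : ℝ, ∀ i j,
      ‖h j ((r i : ℂ) • (p : EuclideanSpace ℂ (Fin n)))‖ ≤ C} ⊆ ⋃ m, F m := by
    rintro p ⟨C, hC⟩
    obtain ⟨m, hm⟩ := exists_nat_ge C
    rw [hF]
    exact mem_iUnion.2 ⟨m, fun i j => (hC i j).trans hm⟩
  obtain ⟨m, hm⟩ : ∃ m, (interior (F m)).Nonempty := by
    by_contra hcon
    push Not at hcon
    apply hm
    refine IsMeagre.mono hsub (isMeagre_iUnion fun m => ?_)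
    exact ((hFc m).isNowhereDense_iff.2 (hcon m)).isMeagre
  obtain ⟨p₀, hp₀⟩ := hm
  obtain ⟨s, hs, hsF⟩ := Metric.mem_nhds_iff.1 (isOpen_interior.mem_nhds hp₀)
  have hp1 : ‖(p₀ : EuclideanSpace ℂ (Fin n))‖ = 1 := mem_sphere_zero_iff_norm.1 p₀.2
  refine ⟨p₀, hp1, (min s 1) ^ 2 / 16, by positivity, m, fun z hz hzp j => ?_⟩
  refine disc_bd hn (hh j) hp1 (s := min s 1) (by positivity) (min_le_right _ _) hr hr1
    (fun i p hp hpp => ?_) hz hzp
  have h1 : (⟨p, mem_sphere_zero_iff_norm.2 hp⟩ : sphere (0 : EuclideanSpace ℂ (Fin n)) 1) ∈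
      F m := by
    apply interior_subset
    apply hsF
    rw [mem_ball, Subtype.dist_eq, dist_eq_norm]
    exact lt_of_lt_of_le hpp (min_le_left _ _)
  rw [hF] at h1
  exact h1 i j

end Pool.Agent.MPca0fc2.XC
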