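import Mathlib
import Pool.Agent.Lib.MP_ca0fc2_an.Mg.G128

/-! The sets on which a bounded function is almost as large as possible contain large hyperbolic balls. -/

set_option autoImplicit false
set_option linter.unusedSectionVars false

open Metric Set Filter Topology
open scoped InnerProductSpace

namespace Pool.Agent.MPca0fc2.XC

open Pool.Agent.MPca0fc2.PT
open Pool.Agent.MPca0fc2.TB (En Solv)
open Pool.Agent.MPca0fc2.ZL
open Pool.Agent.Lib.MP_ca0fc2_an.ZL (ext Data)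

/-- Borel-Caratheodory on the disc through `gg a 0` and `gg a x`. -/
theorem bc_disc {n : ℕ} {F : En n → ℂ} (hF : DifferentiableOn ℂ F (ball 0 1)) {S ε : ℝ}
    (hS : ∀ z ∈ ball (0 : En n) 1, ‖F z‖ ≤ S) (hε : 0 < ε) {a : En n} (ha : ‖a‖ < 1)
    (haS : S - ε < ‖F a‖) {x : En n} (hx : ‖x‖ < 1) :
    ‖F a‖ - 2 * ε * ‖x‖ / (1 - ‖x‖) ≤ ‖F (gg a x)‖ := by
  have hG : DifferentiableOn ℂ (fun y => F (gg a y)) (ball 0 1) :=
    hF.comp (Pool.Agent.MPca0fc2.CG.gg_holo ha) fun y hy => Pool.Agent.MPca0fc2.CG.gg_maps ha hy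
  rcases eq_or_ne x 0 with rfl | hx0
  · rw [gg_zero, norm_zero]
    simp
  have hxn : 0 < ‖x‖ := norm_pos_iff.2 hx0
  -- the rotation
  obtain ⟨θ, hθ, hθF⟩ : ∃ θ : ℂ, ‖θ‖ = 1 ∧ θ * F a = (‖F a‖ : ℂ) := by
    rcases eq_or_ne (F a) 0 with h0 | h0
    · exact ⟨1, norm_one, by rw [h0]; simp⟩
    · have hn : (‖F a‖ : ℂ) ≠ 0 := by
        rw [Complex.ofReal_ne_zero]
        exact norm_ne_zero_iff.2 h0
      refine ⟨(‖F a‖ : ℂ) / F a, ?_, by field_simp⟩
      rw [norm_div, Complex.norm_real, norm_norm, div_self (norm_ne_zero_iff.2 h0)]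
  obtain ⟨e, he⟩ : ∃ e : En n, e = ((‖x‖⁻¹ : ℝ) : ℂ) • x := ⟨_, rfl⟩
  have hen : ‖e‖ = 1 := by
    rw [he, norm_smul, Complex.norm_real, Real.norm_of_nonneg (by positivity),
      inv_mul_cancel₀ hxn.ne']
  have hex : ((‖x‖ : ℝ) : ℂ) • e = x := by
    rw [he, smul_smul, ← Complex.ofReal_mul, mul_inv_cancel₀ hxn.ne', Complex.ofReal_one, one_smul]
  have hmaps : ∀ l ∈ ball (0 : ℂ) 1, l • e ∈ ball (0 : En n) 1 := by
    intro l hl
    rw [mem_ball_zero_iff] at hl ⊢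
    rw [norm_smul, hen, mul_one]
    exact hl
  obtain ⟨u, hu⟩ : ∃ u : ℂ → ℂ, u = fun l => θ * F (gg a (l • e)) - (‖F a‖ : ℂ) := ⟨_, rfl⟩
  have hud : DifferentiableOn ℂ u (ball 0 1) := by
    rw [hu]
    refine DifferentiableOn.sub_const ?_ _
    refine DifferentiableOn.const_mul ?_ _
    exact hG.comp (by fun_prop) hmaps
  have hu0 : u 0 = 0 := by
    rw [hu]
    simp only
    rw [zero_smul, gg_zero, hθF, sub_self]
  have hre : MapsTo u (ball 0 1) {z | z.re ≤ ε} := by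
    intro l hl
    show (u l).re ≤ ε
    rw [hu]
    simp only
    rw [Complex.sub_re, Complex.ofReal_re]
    have h1 := Complex.re_le_norm (θ * F (gg a (l • e)))
    rw [norm_mul, hθ, one_mul] at h1
    have h2 := hS _ (Pool.Agent.MPca0fc2.CG.gg_maps ha (hmaps l hl))
    linarith
  have key := Complex.borelCaratheodory_zero (z := ((‖x‖ : ℝ) : ℂ)) hε hud hre one_pos (by
    rw [mem_ball_zero_iff, Complex.norm_real, norm_norm]
    exact hx) hu0
  rw [Complex.norm_real, norm_norm, hu] at key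
  simp only at key
  rw [hex] at key
  have h3 := norm_sub_norm_le (‖F a‖ : ℂ) (θ * F (gg a x))
  rw [norm_mul, hθ, one_mul, Complex.norm_real, norm_norm] at h3
  rw [norm_sub_rev] at h3
  linarith

/-- the set `|F| > t`, `t < sup |F|` -/
theorem level_thick {n : ℕ} {F : En n → ℂ} (hF : DifferentiableOn ℂ F (ball 0 1)) {A t : ℝ}
    (hA : ∀ z ∈ ball (0 : En n) 1, ‖F z‖ ≤ A) (ht : ∃ z ∈ ball (0 : En n) 1, t < ‖F z‖) (k : ℝ)
    (hk : k < 1) : ∃ a : En n, ‖a‖ < 1 ∧ ∀ x, ‖x‖ < k → gg a x ∈ {z | z ∈ ball (0 : En n) 1 ∧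
      t < ‖F z‖} := by
  obtain ⟨z₀, hz₀, htz⟩ := ht
  obtain ⟨S, hS⟩ : ∃ S : ℝ, S = sSup ((fun z => ‖F z‖) '' ball (0 : En n) 1) := ⟨_, rfl⟩
  have hbdd : BddAbove ((fun z => ‖F z‖) '' ball (0 : En n) 1) := by
    refine ⟨A, ?_⟩
    rintro _ ⟨z, hz, rfl⟩
    exact hA z hz
  have hSle : ∀ z ∈ ball (0 : En n) 1, ‖F z‖ ≤ S := by
    intro z hz
    rw [hS]
    exact le_csSup hbdd ⟨z, hz, rfl⟩
  have hSt : t < S := htz.trans_le (hSle z₀ hz₀)
  obtain ⟨q, hq⟩ : ∃ q : ℝ, q = max k 0 := ⟨_, rfl⟩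
  have hq1 : q < 1 := by rw [hq]; exact max_lt hk one_pos
  have hq0 : 0 ≤ q := by rw [hq]; exact le_max_right _ _
  have hkq : k ≤ q := by rw [hq]; exact le_max_left _ _
  obtain ⟨ε, hε⟩ : ∃ ε : ℝ, ε = (S - t) * (1 - q) / 4 := ⟨_, rfl⟩
  have hε0 : 0 < ε := by
    rw [hε]
    have h1 : 0 < S - t := by linarith
    have h2 : 0 < 1 - q := by linarith
    positivity
  obtain ⟨_, ⟨a, ha, rfl⟩, haS⟩ := exists_lt_of_lt_csSup
    (s := (fun z => ‖F z‖) '' ball (0 : En n) 1) ⟨_, z₀, hz₀, rfl⟩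
    (show S - ε < sSup ((fun z => ‖F z‖) '' ball (0 : En n) 1) by rw [← hS]; linarith)
  have ha1 : ‖a‖ < 1 := mem_ball_zero_iff.1 ha
  refine ⟨a, ha1, fun x hx => ?_⟩
  have hxq : ‖x‖ < q := hx.trans_le hkq
  have hx1 : ‖x‖ < 1 := hxq.trans hq1
  refine ⟨Pool.Agent.MPca0fc2.CG.gg_maps ha1 (mem_ball_zero_iff.2 hx1), ?_⟩
  have h1 := bc_disc hF hSle hε0 ha1 haS hx1
  have h2 : 2 * ε * ‖x‖ / (1 - ‖x‖) ≤ (S - t) / 2 := by
    rw [div_le_div_iff₀ (by linarith) two_pos, hε]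
    have h3 : 0 < S - t := by linarith
    have h4 : (1 - q) * ‖x‖ ≤ 1 - ‖x‖ := by nlinarith [norm_nonneg x]
    nlinarith
  have h5 : ε ≤ (S - t) / 4 := by
    rw [hε]
    nlinarith
  linarith

/-- Generic data, and the distance of a given function from the ideal. -/
theorem gen_ideal {n N : ℕ} (hn : 1 ≤ n) (hN : 2 ≤ N) {δ : ℝ} (hδ : 0 < δ) (hδ1 : δ < 1)
    {F : En n → ℂ} (hF : DifferentiableOn ℂ F (ball 0 1)) :
    ∀ᶠ f : Data n N δ in residual (Data n N δ),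
      ∀ (h : Fin N → En n → ℂ) (M s : ℝ), (∀ j, DifferentiableOn ℂ (h j) (ball 0 1)) →
      (∀ j, ∀ z ∈ ball (0 : En n) 1, ‖h j z‖ ≤ M) →
      (∀ z ∈ ball (0 : En n) 1, ‖F z - ∑ j, ext f.1 z j * h j z‖ ≤ s) →
      (∃ z ∈ ball (0 : En n) 1, s < ‖F z‖) →
      ∃ A : ℝ, ∀ g : Data n N δ, Solv (ext g.1) (ball 0 1) A := by
  by_cases hb : ∃ A : ℝ, ∀ z ∈ ball (0 : En n) 1, ‖F z‖ ≤ A
  swap
  · -- unbounded functions
    refine Eventually.of_forall fun f h M s hh hM hs _ => ?_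
    exfalso
    apply hb
    refine ⟨s + ∑ _j : Fin N, |M|, fun z hz => ?_⟩
    have h1 : ‖∑ j, ext f.1 z j * h j z‖ ≤ ∑ _j : Fin N, |M| := by
      refine (norm_sum_le _ _).trans (Finset.sum_le_sum fun j _ => ?_)
      rw [norm_mul]
      have h2 := ((Pool.Agent.MPca0fc2.ZL.data_bounds f).2 z hz).1 j
      have h3 := (hM j z hz).trans (le_abs_self M)
      nlinarith [norm_nonneg (ext f.1 z j), norm_nonneg (h j z), abs_nonneg M]
    have h4 : F z = (F z - ∑ j, ext f.1 z j * h j z) + ∑ j, ext f.1 z j * h j z := by ring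
    rw [h4]
    exact (norm_add_le _ _).trans (add_le_add (hs z hz) h1)
  obtain ⟨A, hA⟩ := hb
  have key : ∀ᶠ f : Data n N δ in residual (Data n N δ), ∀ t : ℚ,
      (∃ z ∈ ball (0 : En n) 1, (t : ℝ) < ‖F z‖) →
      ∀ A : ℝ, Solv (ext f.1) (ball 0 1 ∩ {z | z ∈ ball (0 : En n) 1 ∧ (t : ℝ) < ‖F z‖}) A →
      ∀ g : Data n N δ, Solv (ext g.1) (ball 0 1) A := by
    rw [eventually_countable_forall]
    intro t
    by_cases ht : ∃ z ∈ ball (0 : En n) 1, (t : ℝ) < ‖F z‖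
    · have hopen : IsOpen {z | z ∈ ball (0 : En n) 1 ∧ (t : ℝ) < ‖F z‖} := by
        have h1 := (hF.continuousOn.norm).isOpen_inter_preimage isOpen_ball
          (isOpen_Ioi (a := (t : ℝ)))
        exact h1
      filter_upwards [Pool.Agent.MPca0fc2.TK.gen_thick hn hN hδ hδ1 hopen
        (fun k hk => level_thick hF hA ht k hk)] with f hf _
      exact hf
    · exact Eventually.of_forall fun f h => absurd h ht
  filter_upwards [key] with f hf h M s hh hM hs hz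
  obtain ⟨z₀, hz₀, hsz⟩ := hz
  obtain ⟨t, ht1, ht2⟩ := exists_rat_btwn hsz
  obtain ⟨v, hv⟩ : ∃ v : En n → ℂ, v = fun z => ∑ j, ext f.1 z j * h j z := ⟨_, rfl⟩
  have hvb : ∀ z ∈ ball (0 : En n) 1, (t : ℝ) < ‖F z‖ → (t : ℝ) - s ≤ ‖v z‖ := by
    intro z hz htz
    have h1 := hs z hz
    have h2 := norm_sub_norm_le (F z) (v z)
    rw [hv] at h2 ⊢
    linarith
  have hts : 0 < (t : ℝ) - s := by linarith
  have hvd : DifferentiableOn ℂ v (ball 0 1) := by
    rw [hv]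
    refine DifferentiableOn.fun_sum fun j _ => DifferentiableOn.mul ?_ (hh j)
    exact (EuclideanSpace.proj (𝕜 := ℂ) j).differentiable.comp_differentiableOn
      (Pool.Agent.MPca0fc2.ZL.data_bounds f).1
  refine ⟨∑ _j : Fin N, |M| / ((t : ℝ) - s), hf t ⟨z₀, hz₀, ht2⟩ _
    ⟨fun z => WithLp.toLp 2 fun j => h j z / v z, ?_, fun z hz => ?_, fun z hz => ?_⟩⟩
  · intro z hz
    rw [differentiableWithinAt_euclidean]
    intro j
    have hvz : v z ≠ 0 := by
      intro h0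
      have := hvb z hz.1 hz.2.2
      rw [h0, norm_zero] at this
      linarith
    show DifferentiableWithinAt ℂ (fun z => h j z / v z) _ z
    simp only [div_eq_mul_inv]
    exact (((hh j) z hz.1).mono inter_subset_left).fun_mul
      (((hvd z hz.1).mono inter_subset_left).fun_inv hvz)
  · have h0 : 0 ≤ |M| / ((t : ℝ) - s) := by positivity
    have h3 : ∀ j, ‖h j z / v z‖ ≤ |M| / ((t : ℝ) - s) := by
      intro j
      rw [norm_div]
      have h4 := hvb z hz.1 hz.2.2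
      exact div_le_div₀ (abs_nonneg _) ((hM j z hz.1).trans (le_abs_self M)) hts h4
    have h5 : 0 ≤ ∑ _j : Fin N, |M| / ((t : ℝ) - s) := Finset.sum_nonneg fun _ _ => h0
    rw [EuclideanSpace.norm_eq, Real.sqrt_le_left h5]
    exact (Finset.sum_le_sum fun j _ => pow_le_pow_left₀ (norm_nonneg _) (h3 j) 2).trans
      (Finset.sum_sq_le_sq_sum_of_nonneg fun _ _ => h0)
  · have hvz : v z ≠ 0 := by
      intro h0
      have := hvb z hz.1 hz.2.2
      rw [h0, norm_zero] at this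
      linarith
    show ∑ j, ext f.1 z j * (h j z / v z) = 1
    have h6 : ∑ j, ext f.1 z j * (h j z / v z) = v z / v z := by
      conv_rhs => rw [hv]
      simp only
      rw [Finset.sum_div]
      refine Finset.sum_congr rfl fun j _ => ?_
      rw [hv]
      ring
    rw [h6, div_self hvz]

end Pool.Agent.MPca0fc2.XC
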